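import Pool.Agent.Y985.ME.Stm
import Pool.Agent.H984R4.NP.Det
import Pool.Agent.H984R3.Per.PerBig

/-!
Interfaces of the box `Λ_n` (all the edges outside are closed): a piece which is fast near a block
forces a bad event of the block.  Adapted from `Pool.Agent.Y655.ME.Slow` (exploration paths).
-/

set_option autoImplicit false

namespace Pool.Agent.W5h17.LT

open H974 Finset H342P H984P H984N Pool.Agent.Y985.ME

/-- the box as a domain -/
def Bn (n : ℕ) : Dm := ⟨0, n, n, 0⟩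

theorem Bn_edges (n : ℕ) : (Bn n).edges = RE 0 n 0 n := rfl

theorem nxt_step (F : Set Edg) (σ : St) : sd σ.1 (nxt F σ).1 ≤ 1 := by
  rw [det_sd_eq]
  obtain ⟨⟨x, y⟩, q⟩ := σ
  unfold nxt
  split_ifs
  · cases q <;> simp
  · cases q <;> simp

theorem orb_step (F : Set Edg) (σ : St) (s : ℕ) : sd (orb F σ s).1 (orb F σ (s + 1)).1 ≤ 1 := by
  rw [orb_succ]
  exact nxt_step F _

theorem orb_in {n : ℕ} {F : Finset Edg} (hF : F ⊆ RE 0 n 0 n) {σ : St} (h : inR 0 n 0 n σ.1)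
    (s : ℕ) : inR 0 n 0 n (orb (↑F : Set Edg) σ s).1 := by
  by_cases he : σ.1 = (orb (↑F : Set Edg) σ s).1
  · rw [← he]; exact h
  · exact pb_box hF (pb_reach _ σ s) he

/-- A fast piece in the bulk is a fast piece in a square. -/
theorem bulk_loc {n : ℕ} {R L : ℤ} {M : ℕ} (hR : 1 ≤ R) (hRL : 3 * R ≤ L)
    {F : Finset Edg} {σ : St} {l : ℕ} (hbd : 4 * L ≤ (Bn n).bd σ.1)
    (hfar : Far σ.1 R (orb (↑F : Set Edg) σ l).1) (hlM : l < M) :
    bulk_sq M R L (L * (σ.1.1 / L) - 2 * L) (L * (σ.1.2 / L) - 2 * L) F := by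
  classical
  have hL : 0 < L := by omega
  obtain ⟨v, hv⟩ : ∃ v, v = σ.1 := ⟨_, rfl⟩
  rw [← hv] at hbd hfar ⊢
  unfold Dm.bd Bn at hbd
  rw [le_min_iff, le_min_iff, le_min_iff] at hbd
  obtain ⟨⟨b1, b2⟩, b3, b4⟩ := hbd
  have q1 : L * (v.1 / L) ≤ v.1 := Int.mul_ediv_self_le hL.ne'
  have q2 : v.1 < L * (v.1 / L) + L := Int.lt_mul_ediv_self_add hL
  have q3 : L * (v.2 / L) ≤ v.2 := Int.mul_ediv_self_le hL.ne'
  have q4 : v.2 < L * (v.2 / L) + L := Int.lt_mul_ediv_self_add hL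
  obtain ⟨b, hb⟩ : ∃ b, b = L * (v.1 / L) - 2 * L := ⟨_, rfl⟩
  obtain ⟨c, hc⟩ : ∃ c, c = L * (v.2 / L) - 2 * L := ⟨_, rfl⟩
  rw [← hb, ← hc]
  have hex : ∃ t, Far v R (orb (↑F : Set Edg) σ t).1 := ⟨l, hfar⟩
  have ht0 : Nat.find hex ≤ l := Nat.find_min' hex hfar
  have hcong : orb (↑(F ∩ RE b (b + 4 * L) c (c + 4 * L)) : Set Edg) σ
      (Nat.find hex) = orb (↑F : Set Edg) σ (Nat.find hex) := by
    refine orb_congr (T := Nat.find hex) ?_ le_rfl
    intro e he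
    rw [mem_Exm] at he
    obtain ⟨s, hs, rfl⟩ := he
    have hnf := Nat.find_min hex hs
    generalize orb (↑F : Set Edg) σ s = w at hnf ⊢
    unfold Far at hnf
    push Not at hnf
    have hin : ae w ∈ RE b (b + 4 * L) c (c + 4 * L) := by
      obtain ⟨⟨x, y⟩, q⟩ := w
      cases q
      · rw [ae_ne, mem_RE_true]; simp only at hnf; omega
      · rw [ae_nw, mem_RE_false]; simp only at hnf; omega
      · rw [ae_sw, mem_RE_true]; simp only at hnf; omega
      · rw [ae_se, mem_RE_false]; simp only at hnf; omega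
    rw [Finset.coe_inter]
    constructor
    · intro h
      exact ⟨h, hin⟩
    · rintro ⟨h, -⟩
      exact h
  refine ⟨σ, Nat.find hex, ?_, ?_, by omega⟩
  · unfold inR
    rw [← hv]
    omega
  · rw [hcong, ← hv]
    exact Nat.find_spec hex

/-- The vertices of the blocks next to `q`. -/
theorem near_blk {W : ℤ} (hW : 1 ≤ W) {q v : Vtx} (h : sd (blk W v) q ≤ 1) :
    q.1 * W - W ≤ v.1 ∧ v.1 < q.1 * W + 2 * W ∧ q.2 * W - W ≤ v.2 ∧ v.2 < q.2 * W + 2 * W := by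
  have a1 : W * (v.1 / W) ≤ v.1 := Int.mul_ediv_self_le (by omega)
  have a2 : v.1 < W * (v.1 / W) + W := Int.lt_mul_ediv_self_add (by omega)
  have b1 : W * (v.2 / W) ≤ v.2 := Int.mul_ediv_self_le (by omega)
  have b2 : v.2 < W * (v.2 / W) + W := Int.lt_mul_ediv_self_add (by omega)
  rw [det_sd_eq] at h
  unfold blk at h
  simp only at h
  have key : ∀ x y : ℤ, x ≤ y + 1 → W * x ≤ y * W + W := by
    intro x y hxy
    have := mul_le_mul_of_nonneg_left hxy (show 0 ≤ W by omega)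
    linarith [mul_comm W y, mul_add W y 1]
  have key2 : ∀ x y : ℤ, y - 1 ≤ x → y * W - W ≤ W * x := by
    intro x y hxy
    have := mul_le_mul_of_nonneg_left hxy (show 0 ≤ W by omega)
    linarith [mul_comm W y, mul_sub W y 1]
  have c1 := key (v.1 / W) q.1 (by omega)
  have c2 := key (v.2 / W) q.2 (by omega)
  have c3 := key2 (v.1 / W) q.1 (by omega)
  have c4 := key2 (v.2 / W) q.2 (by omega)
  omega

/-- A fast piece with a vertex in the bulk. -/
theorem bad_bulk {n : ℕ} {W R L : ℤ} {M : ℕ} (hR : 1 ≤ R) (hRL : 3 * R ≤ L) {q : Vtx}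
    {F : Finset Edg} {σ : St} {l : ℕ} (hlM : l < M)
    (hin : q.1 * W - W ≤ σ.1.1 ∧ σ.1.1 < q.1 * W + 2 * W ∧
      q.2 * W - W ≤ σ.1.2 ∧ σ.1.2 < q.2 * W + 2 * W)
    (hbd : 4 * L ≤ (Bn n).bd σ.1) (hf : R ≤ sd σ.1 (orb (↑F : Set Edg) σ l).1) :
    BadB M R L W (Bn n) q F := by
  have hL : 0 < L := by omega
  have hb := bulk_loc (n := n) (M := M) hR hRL hbd (det_far hf) hlM
  have q1 : L * (σ.1.1 / L) ≤ σ.1.1 := Int.mul_ediv_self_le hL.ne'
  have q2 : σ.1.1 < L * (σ.1.1 / L) + L := Int.lt_mul_ediv_self_add hL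
  have q3 : L * (σ.1.2 / L) ≤ σ.1.2 := Int.mul_ediv_self_le hL.ne'
  have q4 : σ.1.2 < L * (σ.1.2 / L) + L := Int.lt_mul_ediv_self_add hL
  unfold Dm.bd at hbd
  rw [le_min_iff, le_min_iff, le_min_iff] at hbd
  obtain ⟨⟨b1, b2⟩, b3, b4⟩ := hbd
  obtain ⟨x1, x2, x3, x4⟩ := hin
  refine ⟨σ.1.1 / L, σ.1.2 / L, ⟨?_, ?_⟩, ⟨?_, ?_⟩, ⟨?_, ?_⟩, ⟨?_, ?_⟩, hb⟩ <;>
    linarith

theorem mem_RE_ends {a b c d : ℤ} {e : Edg} (h1 : inR a b c d (src e)) (h2 : inR a b c d (tgt e)) :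
    e ∈ RE a b c d := by
  obtain ⟨x, y, _ | _⟩ := e
  · simp only [inR, src_mk, tgt_false] at h1 h2
    rw [mem_RE_false]
    omega
  · simp only [inR, src_mk, tgt_true] at h1 h2
    rw [mem_RE_true]
    omega

/-- The local rectangle. -/
theorem in_loc {n : ℕ} {W ρ : ℤ} {q v : Vtx} (h0 : inR 0 n 0 n v)
    (h1 : q.1 * W - 2 * W ≤ v.1) (h2 : v.1 ≤ q.1 * W + 3 * W) (h3 : q.2 * W - 2 * W ≤ v.2)
    (h4 : v.2 ≤ q.2 * W + 3 * W) (hb : (Bn n).bd v < ρ) :
    inR (max (Bn n).l (q.1 * W - 2 * W)) (min (Bn n).r (q.1 * W + 3 * W))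
      (max 0 (q.2 * W - 2 * W)) (min (Bn n).h (q.2 * W + 3 * W)) v ∧
    bdr (max (Bn n).l (q.1 * W - 2 * W)) (min (Bn n).r (q.1 * W + 3 * W))
      (max 0 (q.2 * W - 2 * W)) (min (Bn n).h (q.2 * W + 3 * W)) v < ρ := by
  unfold inR at h0
  unfold Dm.bd at hb
  unfold Bn at hb ⊢
  simp only at hb ⊢
  unfold inR bdr
  omega

/-- A piece near the boundary. -/
theorem bad_bdry {n : ℕ} {W L w : ℤ} (hWw : 4 * w + 1 ≤ W) (hW : 1 ≤ W) {q : Vtx}
    {F : Finset Edg} (hF : F ⊆ RE 0 n 0 n) {σ : St} (hσ : inR 0 n 0 n σ.1) {l : ℕ}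
    (hin : ∀ s ≤ l, (q.1 * W - W ≤ (orb (↑F : Set Edg) σ s).1.1 ∧
      (orb (↑F : Set Edg) σ s).1.1 < q.1 * W + 2 * W ∧ q.2 * W - W ≤ (orb (↑F : Set Edg) σ s).1.2 ∧
      (orb (↑F : Set Edg) σ s).1.2 < q.2 * W + 2 * W) ∧ (Bn n).bd (orb (↑F : Set Edg) σ s).1 < 5 * L)
    (hd : W ≤ sd σ.1 (orb (↑F : Set Edg) σ l).1) : BadP L w W (Bn n) q F := by
  refine ⟨σ.1, (orb (↑F : Set Edg) σ l).1, by omega, ?_⟩
  have hreach : ∀ m ≤ l,
      Reach (↑(F ∩ Lam (Bn n) W q) ∩ Lay (Bn n) W (5 * L + 2) q : Set Edg)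
      σ.1 (orb (↑F : Set Edg) σ m).1 := by
    intro m
    induction m with
    | zero => intro _; exact Reach.refl _ _
    | succ m ih =>
      intro hm
      have ih' := ih (by omega)
      have hsucc : orb (↑F : Set Edg) σ (m + 1) = nxt (↑F) (orb (↑F) σ m) := orb_succ _ _ _
      by_cases hop : ae (orb (↑F : Set Edg) σ m) ∈ (↑F : Set Edg)
      · have hnx : orb (↑F : Set Edg) σ (m + 1) = mv (orb (↑F) σ m) := by
          rw [hsucc, nxt_open hop]
        have hb1 := hin m (by omega)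
        have hb2 := hin (m + 1) hm
        have hc1 := orb_in hF hσ m
        have hc2 := orb_in hF hσ (m + 1)
        rw [hnx] at hb2 hc2
        have hends := pb_ends (orb (↑F : Set Edg) σ m)
        have hQ : ∀ v : Vtx, v = (orb (↑F : Set Edg) σ m).1 ∨ v = (mv (orb (↑F : Set Edg) σ m)).1 →
            inR (max (Bn n).l (q.1 * W - 2 * W)) (min (Bn n).r (q.1 * W + 3 * W))
              (max 0 (q.2 * W - 2 * W)) (min (Bn n).h (q.2 * W + 3 * W)) v ∧
            bdr (max (Bn n).l (q.1 * W - 2 * W)) (min (Bn n).r (q.1 * W + 3 * W))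
              (max 0 (q.2 * W - 2 * W)) (min (Bn n).h (q.2 * W + 3 * W)) v < 5 * L + 2 := by
          intro v hv
          rcases hv with rfl | rfl
          · obtain ⟨⟨t1, t2, t3, t4⟩, t5⟩ := hb1
            exact in_loc hc1 (by omega) (by omega) (by omega) (by omega) (by omega)
          · obtain ⟨⟨t1, t2, t3, t4⟩, t5⟩ := hb2
            exact in_loc hc2 (by omega) (by omega) (by omega) (by omega) (by omega)
        have q1 := hQ (src (ae (orb (↑F : Set Edg) σ m))) (by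
          rcases hends with ⟨t1, t2⟩ | ⟨t1, t2⟩
          · exact Or.inl t1
          · exact Or.inr t1)
        have q2 := hQ (tgt (ae (orb (↑F : Set Edg) σ m))) (by
          rcases hends with ⟨t1, t2⟩ | ⟨t1, t2⟩
          · exact Or.inr t2
          · exact Or.inl t2)
        refine ih'.trans (Adj.reach ⟨ae (orb (↑F : Set Edg) σ m), ⟨?_, q1.2, q2.2⟩, ?_⟩)
        · rw [Finset.coe_inter]
          exact ⟨hop, mem_RE_ends q1.1 q2.1⟩
        · rw [hnx]
          exact hends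
      · have hrt : ∀ τ : St, (rt τ).1 = τ.1 := by
          rintro ⟨v, q'⟩
          cases q' <;> rfl
        rw [hsucc, nxt_closed hop, hrt]
        exact ih'
  exact hreach l le_rfl

/-- Near a block which is not bad the interfaces are slow. -/
theorem slow {n : ℕ} {M : ℕ} {R L w W : ℤ} {q : Vtx} {F : Finset Edg} (hPar : Par R L w W)
    (hF : F ⊆ RE 0 n 0 n) (hB : ¬ (BadB M R L W (Bn n) q F ∨ BadP L w W (Bn n) q F)) {σ : St}
    (hσ : inR 0 n 0 n σ.1) {l : ℕ} (hin : ∀ t ≤ l, sd (blk W (orb (↑F : Set Edg) σ t).1) q ≤ 1)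
    (hd : W ≤ sd σ.1 (orb (↑F : Set Edg) σ l).1) : M ≤ l := by
  obtain ⟨hR, hRL, hw, hWw⟩ := hPar
  by_contra hM
  have hM' : l < M := by omega
  apply hB
  have hW1 : 1 ≤ W := by omega
  have hin' := fun s h1 => near_blk hW1 (hin s h1)
  by_cases hbulk : ∃ m ≤ l, 5 * L ≤ (Bn n).bd (orb (↑F : Set Edg) σ m).1
  · left
    obtain ⟨m, hml, hy⟩ := hbulk
    have htri := det_sd_tri σ.1 (orb (↑F : Set Edg) σ m).1 (orb (↑F : Set Edg) σ l).1
    have hcm := det_sd_comm σ.1 (orb (↑F : Set Edg) σ m).1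
    by_cases hf : R ≤ sd (orb (↑F : Set Edg) σ m).1 (orb (↑F : Set Edg) σ l).1
    · have e : orb (↑F : Set Edg) (orb (↑F : Set Edg) σ m) (l - m) = orb (↑F : Set Edg) σ l := by
        rw [← orb_add]
        congr 1
        omega
      refine bad_bulk hR hRL (σ := orb (↑F : Set Edg) σ m) (l := l - m) (by omega)
        (hin' m hml) (by omega) (by rw [e]; exact hf)
    · have h5 : R ≤ sd (orb (↑F : Set Edg) σ m).1 (orb (↑F : Set Edg) σ 0).1 := by
        rw [orb_zero]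
        omega
      obtain ⟨i, hki, him, hRi, hs⟩ := det_last (fun s => (orb (↑F : Set Edg) σ s).1)
        (fun s => orb_step (↑F) σ s) (Nat.zero_le m) h5
      have h6 := hs i le_rfl him
      have h7 := det_bd_lip (Bn n) (orb (↑F : Set Edg) σ m).1 (orb (↑F : Set Edg) σ i).1
      have e : orb (↑F : Set Edg) (orb (↑F : Set Edg) σ i) (m - i) = orb (↑F : Set Edg) σ m := by
        rw [← orb_add]
        congr 1
        omega
      refine bad_bulk hR hRL (σ := orb (↑F : Set Edg) σ i) (l := m - i) (by omega)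
        (hin' i (by omega)) ?_ (by rw [e, det_sd_comm]; exact hRi)
      omega
  · right
    push Not at hbulk
    exact bad_bdry hWw hW1 hF hσ (fun s t1 => ⟨hin' s t1, hbulk s t1⟩) hd

end Pool.Agent.W5h17.LT
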