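import Pool.Agent.Y884.ME.Fast
import Pool.Agent.W5h17.LT.Bad

/-!
The probability that some interface of the box `Λ_n` has a piece of extent `y` with at most
`x * y ^ (7/4)` steps.  Adapted from `Pool.Agent.Y884.ME` (exploration paths).
-/

set_option autoImplicit false

namespace Pool.Agent.W5h17.LT

open H974 Finset H342P H984P H984N Pool.Agent.Y985.ME Pool.Agent.Y884.ME

open Classical in
/-- The path spends a long time near a block which is visited and not bad. -/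
theorem good_time {x : ℕ → Vtx} (hxs : ∀ s, sd (x s) (x (s + 1)) ≤ 1) {W : ℤ} (hW : 1 ≤ W)
    {q : Vtx} {M : ℕ}
    (hgood : ∀ k l : ℕ, k ≤ l → (∀ t, k ≤ t → t ≤ l → sd (blk W (x t)) q ≤ 1) →
      W ≤ sd (x k) (x l) → M ≤ l - k)
    {N : ℕ} (hd : 2 * W ≤ sd (x 0) (x N)) {τ : ℕ} (hτ : τ ≤ N) (hq : blk W (x τ) = q) :
    M ≤ ((range (N + 1)).filter (fun t => sd (blk W (x t)) q ≤ 1)).card := by
  -- the interval
  have main : ∀ s e : ℕ, s ≤ e → e ≤ N → W ≤ sd (x s) (x e) →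
      (∀ t, s ≤ t → t ≤ e → sd (x τ) (x t) ≤ W) →
      M ≤ ((range (N + 1)).filter (fun t => sd (blk W (x t)) q ≤ 1)).card := by
    intro s e hse heN hse2 hnear
    have hb : ∀ t, s ≤ t → t ≤ e → sd (blk W (x t)) q ≤ 1 := by
      intro t t1 t2
      rw [← hq, det_sd_comm]
      exact blk_step hW (hnear t t1 t2)
    have h5 : M ≤ e - s := hgood s e hse hb hse2
    have h6 : Finset.Icc s e ⊆ (range (N + 1)).filter (fun t => sd (blk W (x t)) q ≤ 1) := by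
      intro t ht
      rw [mem_Icc] at ht
      rw [mem_filter, mem_range]
      exact ⟨by omega, hb t ht.1 ht.2⟩
    have h7 := card_le_card h6
    rw [Nat.card_Icc] at h7
    omega
  have htri := det_sd_tri (x 0) (x τ) (x N)
  have hcm := det_sd_comm (x 0) (x τ)
  by_cases hf : W ≤ sd (x τ) (x N)
  · obtain ⟨i, e1, e2, e3, e4⟩ := det_first x hxs hτ hf
    refine main τ i e1 e2 e3 (fun t t1 t2 => ?_)
    have := e4 t t1 t2
    omega
  · have hf' : W ≤ sd (x τ) (x 0) := by omega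
    obtain ⟨i, e1, e2, e3, e4⟩ := det_last x hxs (Nat.zero_le τ) hf'
    refine main i τ e2 hτ (by rw [det_sd_comm]; exact e3) (fun t t1 t2 => ?_)
    have := e4 t t1 t2
    omega

theorem blk_mem {n : ℕ} {W : ℤ} (hW : 1 ≤ W) {v : Vtx} (h : inR 0 n 0 n v) :
    blk W v ∈ Bks (Bn n) W := by
  unfold inR at h
  unfold Bks blk Bn
  rw [mem_product, mem_Icc, mem_Icc]
  simp only
  refine ⟨⟨Int.ediv_le_ediv (by omega) (by omega), Int.ediv_le_ediv (by omega) (by omega)⟩,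
    Int.ediv_nonneg (by omega) (by omega), Int.ediv_le_ediv (by omega) (by omega)⟩

open Classical in
/-- If the path is fast then many blocks of a chain are bad. -/
theorem chain_sub {n : ℕ} {x : ℕ → Vtx} (hxs : ∀ s, sd (x s) (x (s + 1)) ≤ 1)
    (hxin : ∀ s, inR 0 n 0 n (x s)) {W : ℤ} (hW : 1 ≤ W) {F : Finset Edg}
    {Bd : Vtx → Finset Edg → Prop} {M : ℕ}
    (hgood : ∀ q, ¬ Bd q F → ∀ k l : ℕ, k ≤ l →
      (∀ t, k ≤ t → t ≤ l → sd (blk W (x t)) q ≤ 1) → W ≤ sd (x k) (x l) → M ≤ l - k)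
    {k : ℕ} (hk : 2 ≤ k) {N : ℕ} (hd : k * W ≤ sd (x 0) (x N))
    (hM : 98 * (N + 1) < (k + 1) * M) :
    ∃ b ∈ Bks (Bn n) W, ∃ Q ∈ AS k b, Q.card = k + 1 ∧ ∃ B ∈ Q.powerset,
      (B ⊆ Bks (Bn n) W ∧ (∀ q ∈ B, ∀ r ∈ B, cls q = cls r) ∧ k + 1 ≤ 98 * B.card) ∧
      ∀ q ∈ B, Bd q F := by
  have hβ : ∀ r, sd (blk W (x r)) (blk W (x (r + 1))) ≤ 1 :=
    fun r => blk_step hW ((hxs r).trans hW)
  have hd2 : 2 * W ≤ sd (x 0) (x N) := by
    have : (2 : ℤ) * W ≤ k * W := mul_le_mul_of_nonneg_right (by exact_mod_cast hk) (by omega)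
    omega
  obtain ⟨Q, hQ, hQc, hQv⟩ := chain (β := fun r => blk W (x r)) hβ N k 0
    (Nat.zero_le _) (blk_far hW hd)
  have hin : ∀ q ∈ Q, q ∈ Bks (Bn n) W := by
    intro q hq
    obtain ⟨τ, -, -, h1⟩ := hQv q hq
    rw [← h1]
    exact blk_mem hW (hxin _)
  refine ⟨blk W (x 0), blk_mem hW (hxin _), Q, hQ, hQc, ?_⟩
  obtain ⟨c, hc⟩ := pigeon (Q := Q) (k := k + 1) hQc.ge
  obtain ⟨Qc, hQcd⟩ : ∃ Qc, Qc = Q.filter (fun q => cls q = c) := ⟨_, rfl⟩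
  have hc' : k + 1 ≤ 49 * Qc.card := by rw [hQcd]; exact hc
  have hcl : ∀ q ∈ Qc, cls q = c := by
    intro q hq
    rw [hQcd, mem_filter] at hq
    exact hq.2
  have hsub : Qc ⊆ Q := by rw [hQcd]; exact filter_subset _ _
  refine ⟨Qc.filter (fun q => Bd q F), ?_, ⟨?_, ?_, ?_⟩, ?_⟩
  · rw [mem_powerset]
    exact (filter_subset _ _).trans hsub
  · intro q hq
    rw [mem_filter] at hq
    exact hin q (hsub hq.1)
  · intro q hq r hr
    rw [mem_filter] at hq hr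
    rw [hcl q hq.1, hcl r hr.1]
  · have hsplit := card_filter_add_card_filter_not (s := Qc) (fun q => Bd q F)
    have hct := count_times (β := fun r => blk W (x r)) (n := N) (M := M)
      (G := Qc.filter (fun q => ¬ Bd q F)) (by
        intro q hq r hr
        rw [mem_filter] at hq hr
        rw [hcl q hq.1, hcl r hr.1]) (by
        intro q hq
        rw [mem_filter] at hq
        obtain ⟨τ, -, hτ, hτq⟩ := hQv q (hsub hq.1)
        exact good_time hxs hW (hgood q hq.2) hd2 hτ hτq)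
    by_contra hcon
    push Not at hcon
    set g := (Qc.filter (fun q => ¬ Bd q F)).card with hg
    set b := (Qc.filter (fun q => Bd q F)).card with hb
    have h1 : k + 1 ≤ 98 * g := by omega
    have h2 : (k + 1) * M ≤ 98 * g * M := Nat.mul_le_mul_right M h1
    have h3 : 98 * g * M = 98 * (g * M) := by ring
    omega
  · intro q hq
    rw [mem_filter] at hq
    exact hq.2

/-- number of blocks -/
theorem card_BksB {n : ℕ} {W : ℤ} (hW : 1 ≤ W) (hn : (W : ℝ) ≤ n) :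
    ((Bks (Bn n) W).card : ℝ) ≤ 6 * ((n : ℝ) / W) ^ 2 := by
  have hWr : (0 : ℝ) < W := by exact_mod_cast (show (0:ℤ) < W by omega)
  have hnW : 1 ≤ (n : ℝ) / W := by rwa [le_div_iff₀ hWr, one_mul]
  have e2 : 0 ≤ (n : ℤ) / W := Int.ediv_nonneg (by positivity) (by omega)
  have hcard : ((Bks (Bn n) W).card : ℝ) =
      (((n : ℤ) / W + 1 : ℤ) : ℝ) * (((n : ℤ) / W + 1 : ℤ) : ℝ) := by
    unfold Bks Bn
    rw [card_product, Int.card_Icc, Int.card_Icc]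
    simp only [Int.zero_ediv]
    have f1 : ((((n : ℤ) / W + 1 - 0).toNat : ℕ) : ℤ) = (n : ℤ) / W + 1 := by omega
    rw [← f1]
    push_cast
    rfl
  have a1 : W * ((n : ℤ) / W) ≤ n := Int.mul_ediv_self_le (by omega)
  have a1' : (W : ℝ) * (((n : ℤ) / W : ℤ) : ℝ) ≤ n := by exact_mod_cast a1
  have g2 : (((n : ℤ) / W + 1 : ℤ) : ℝ) ≤ 2 * ((n : ℝ) / W) := by
    have : (((n : ℤ) / W : ℤ) : ℝ) ≤ (n : ℝ) / W := by
      rw [le_div_iff₀ hWr]
      nlinarith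
    push_cast
    linarith
  have g3 : (0 : ℝ) ≤ (((n : ℤ) / W + 1 : ℤ) : ℝ) := by
    exact_mod_cast (show (0:ℤ) ≤ (n : ℤ) / W + 1 by omega)
  rw [hcard]
  calc (((n : ℤ) / W + 1 : ℤ) : ℝ) * (((n : ℤ) / W + 1 : ℤ) : ℝ)
      ≤ (2 * ((n : ℝ) / W)) * (2 * ((n : ℝ) / W)) := mul_le_mul g2 g2 g3 (by positivity)
    _ ≤ 6 * ((n : ℝ) / W) ^ 2 := by nlinarith

/-- Local bad events of small probability; near a block which is not bad the interfaces are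
slow. -/
theorem blks {c C : ℝ} (hc : 0 < c) (hC : 0 < C) (hL : LowA c (1/4)) (hU : TwoUp C (1/4)) :
    ∀ η : ℝ, 0 < η → ∃ c s : ℝ, 0 < c ∧ 0 < s ∧
  ∀ (n : ℕ) (W : ℤ), s ≤ W → s * W ≤ n →
  ∃ Bad : Vtx → Finset Edg → Prop,
    (∀ q F, Bad q F ↔ Bad q (F ∩ Lam (Bn n) W q)) ∧
    (∀ q ∈ Bks (Bn n) W, P (Bn n).edges (Bad q) ≤ η) ∧
    (∀ F ⊆ RE 0 n 0 n, ∀ q, ¬ Bad q F → ∀ σ : St, inR 0 n 0 n σ.1 → ∀ l : ℕ,
      (∀ t ≤ l, sd (blk W (orb (↑F : Set Edg) σ t).1) q ≤ 1) →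
      W ≤ sd σ.1 (orb (↑F : Set Edg) σ l).1 → ⌈c * (W : ℝ) ^ (7/4 : ℝ)⌉₊ ≤ l) := by
  intro η hη
  obtain ⟨c, s, hc, hs, h⟩ := badL_pr hc hC hL hU η hη
  refine ⟨c, max s 8, hc, by positivity, ?_⟩
  intro n W hsW h1
  have hs1 : s ≤ W := (le_max_left _ _).trans hsW
  have hs8 : (8:ℝ) ≤ W := (le_max_right _ _).trans hsW
  have hW0 : (0:ℝ) < W := by linarith
  have h8 : (8:ℝ) * W ≤ max s 8 * W := mul_le_mul_of_nonneg_right (le_max_right _ _) hW0.le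
  have g1 : 8 * W ≤ (n : ℤ) := by
    have : ((8 * W : ℤ) : ℝ) ≤ ((n : ℤ) : ℝ) := by push_cast; linarith
    exact_mod_cast this
  obtain ⟨R, L, w, hp, hb⟩ := h W hs1
  refine ⟨BadL ⌈c * (W : ℝ) ^ (7/4 : ℝ)⌉₊ R L w W n, ?_, ?_, ?_⟩
  · intro q F
    exact badL_local hp n q F
  · intro q hq
    exact hb n g1 q hq
  · intro F hF q hq σ hσ l hin hd
    exact slow hp hF hq hσ hin hd

/-- The lower tail of the duration of the pieces of the interfaces of the box. -/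
theorem orb_fast {c C : ℝ} (hc : 0 < c) (hC : 0 < C) (hL : LowA c (1/4)) (hU : TwoUp C (1/4)) :
    ∃ c C : ℝ, 0 < c ∧ 0 < C ∧
  ∀ (n : ℕ) (y x : ℝ), 0 < x → x ≤ 1 → C * x ^ (-(4/3) : ℝ) ≤ y → y ≤ n →
  P (RE 0 n 0 n) (fun F => ∃ (σ : St) (l : ℕ), inR 0 n 0 n σ.1 ∧
      y ≤ ((sd σ.1 (orb (↑F : Set Edg) σ l).1 : ℤ) : ℝ) ∧ (l : ℝ) ≤ x * y ^ (7/4 : ℝ)) ≤
    C * ((n : ℝ) / y) ^ 2 * Real.exp (-(c * x ^ (-(4/3) : ℝ))) := by
  obtain ⟨c0, s0, hc0, hs0, H⟩ := blks hc hC hL hU ((1/36) ^ 98) (by positivity)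
  obtain ⟨B, hB⟩ : ∃ B : ℝ, B = max (196 / c0) 1 := ⟨_, rfl⟩
  have hB1 : 1 ≤ B := by rw [hB]; exact le_max_right _ _
  have hB2 : 196 / c0 ≤ B := by rw [hB]; exact le_max_left _ _
  obtain ⟨A, hA⟩ : ∃ A : ℝ, A = B ^ (4/3 : ℝ) := ⟨_, rfl⟩
  have hA1 : 1 ≤ A := by rw [hA]; exact Real.one_le_rpow hB1 (by norm_num)
  have hA0 : 0 < A := by linarith
  have hA34 : A ^ (3/4 : ℝ) = B := by
    rw [hA, ← Real.rpow_mul (by linarith)]
    norm_num
  have hlog : 0 < Real.log 2 := Real.log_pos (by norm_num)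
  obtain ⟨K1, hK1⟩ : ∃ K1 : ℝ, K1 = max (2 * A * s0) (4 * A) := ⟨_, rfl⟩
  have hK1a : 2 * A * s0 ≤ K1 := by rw [hK1]; exact le_max_left _ _
  have hK1b : 4 * A ≤ K1 := by rw [hK1]; exact le_max_right _ _
  obtain ⟨a, ha⟩ : ∃ a : ℝ, a = Real.log 2 / (4 * A) := ⟨_, rfl⟩
  have ha0 : 0 < a := by rw [ha]; positivity
  obtain ⟨C, hC⟩ : ∃ C : ℝ, C = Real.exp (a * K1) + s0 + 12 / (a * A) ^ 2 := ⟨_, rfl⟩
  have hE0 : 0 < Real.exp (a * K1) := Real.exp_pos _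
  have hK0 : 0 < K1 := by linarith
  have hE1 : 1 ≤ Real.exp (a * K1) := Real.one_le_exp (by positivity)
  have h12 : 0 < 12 / (a * A) ^ 2 := by positivity
  have hC1 : 1 ≤ C := by rw [hC]; linarith
  have hCs : s0 ≤ C := by rw [hC]; linarith
  have hCE : Real.exp (a * K1) ≤ C := by rw [hC]; linarith
  have hC12 : 12 / (a * A) ^ 2 ≤ C := by rw [hC]; linarith
  refine ⟨a, C, ha0, by linarith, ?_⟩
  intro n y x hx hx1 hCy hyn
  obtain ⟨u, hu⟩ : ∃ u : ℝ, u = x ^ (4/3 : ℝ) := ⟨_, rfl⟩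
  have hu0 : 0 < u := by rw [hu]; positivity
  have hu1 : u ≤ 1 := by rw [hu]; exact Real.rpow_le_one hx.le hx1 (by norm_num)
  have hux : u ^ (3/4 : ℝ) = x := by
    rw [hu, ← Real.rpow_mul hx.le]
    norm_num
  obtain ⟨z, hz⟩ : ∃ z : ℝ, z = x ^ (-(4/3) : ℝ) := ⟨_, rfl⟩
  have hzu : z = u⁻¹ := by rw [hz, hu, Real.rpow_neg hx.le]
  have hzu1 : z * u = 1 := by rw [hzu]; exact inv_mul_cancel₀ hu0.ne'
  have hz0 : 0 < z := by rw [hzu]; positivity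
  have hz1 : 1 ≤ z := by rw [hzu]; exact one_le_inv_iff₀.mpr ⟨hu0, hu1⟩
  rw [← hz] at hCy ⊢
  have hy1 : 1 ≤ y := by nlinarith
  have hy0 : 0 < y := by linarith
  have hn0 : (0:ℝ) < n := by linarith
  have hny : 1 ≤ (n:ℝ) / y := by rwa [le_div_iff₀ hy0, one_mul]
  have hny2 : 1 ≤ ((n:ℝ) / y) ^ 2 := one_le_pow₀ hny
  rcases lt_or_ge z K1 with hzs | hzl
  · -- trivial case
    refine (Pr_le_one Pool.Agent.Y884.ME.half_ok _ _).trans ?_
    have h1 : Real.exp (a * K1) * Real.exp (-(a * z)) ≤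
        C * ((n:ℝ) / y) ^ 2 * Real.exp (-(a * z)) := by
      apply mul_le_mul_of_nonneg_right _ (Real.exp_pos _).le
      nlinarith
    refine le_trans ?_ h1
    rw [← Real.exp_add]
    apply Real.one_le_exp
    nlinarith
  -- main case
  obtain ⟨v, hv⟩ : ∃ v : ℝ, v = u * y := ⟨_, rfl⟩
  have hvC : C ≤ v := by
    have h1 := mul_le_mul_of_nonneg_right hCy hu0.le
    have h2 : C * z * u = C := by rw [mul_assoc, hzu1, mul_one]
    rw [hv]
    linarith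
  have hv1 : 1 ≤ v := by linarith
  obtain ⟨T, hT⟩ : ∃ T : ℝ, T = A * v := ⟨_, rfl⟩
  have hTC : C ≤ T := by rw [hT]; nlinarith
  have hT1 : 1 ≤ T := by linarith
  obtain ⟨W, hW⟩ : ∃ W : ℤ, W = ⌈T⌉ := ⟨_, rfl⟩
  have hTW : T ≤ W := by rw [hW]; exact Int.le_ceil T
  have hWT : (W : ℝ) ≤ 2 * T := by
    have := Int.ceil_lt_add_one T
    rw [← hW] at this
    linarith
  have hW1r : (1 : ℝ) ≤ W := by linarith
  have hW1 : 1 ≤ W := by exact_mod_cast hW1r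
  have hW0 : (0 : ℝ) < W := by linarith
  obtain ⟨k, hk⟩ : ∃ k : ℕ, k = ⌊y / W⌋₊ := ⟨_, rfl⟩
  have hk1 : (k : ℝ) ≤ y / W := by rw [hk]; exact Nat.floor_le (by positivity)
  have hk2 : y / W < k + 1 := by rw [hk]; exact Nat.lt_floor_add_one _
  have hkW : (k : ℝ) * W ≤ y := by rwa [le_div_iff₀ hW0] at hk1
  have hyW : z / (2 * A) ≤ y / W := by
    have h1 : z / (2 * A) = y / (2 * T) := by
      rw [hT, hv, hzu]
      field_simp
    rw [h1]
    exact div_le_div_of_nonneg_left hy0.le hW0 hWT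
  have hyW' : y / W ≤ z / A := by
    have h1 : z / A = y / T := by
      rw [hT, hv, hzu]
      field_simp
    rw [h1]
    exact div_le_div_of_nonneg_left hy0.le (by linarith) hTW
  have hk2' : 2 ≤ k := by
    rw [hk]
    apply Nat.le_floor
    push_cast
    refine le_trans ?_ hyW
    rw [le_div_iff₀ (by positivity)]
    linarith
  have hsW : s0 * W ≤ n := by
    have h1 : 2 * A * s0 ≤ z := hK1a.trans hzl
    have h2 : 2 * A * s0 * u ≤ 1 := by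
      have := mul_le_mul_of_nonneg_right h1 hu0.le
      linarith
    calc s0 * W ≤ s0 * (2 * T) := mul_le_mul_of_nonneg_left hWT hs0.le
      _ = 2 * A * s0 * u * y := by rw [hT, hv]; ring
      _ ≤ 1 * y := mul_le_mul_of_nonneg_right h2 hy0.le
      _ ≤ n := by linarith
  have hWy : (W : ℝ) ≤ y := by
    have h1 : (2 : ℝ) ≤ k := by exact_mod_cast hk2'
    nlinarith
  obtain ⟨Bd, hloc, hbad, hgood⟩ := H n W (by linarith) hsW
  obtain ⟨M, hM⟩ : ∃ M : ℕ, M = ⌈c0 * (W : ℝ) ^ (7/4 : ℝ)⌉₊ := ⟨_, rfl⟩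
  have hMge : c0 * (W : ℝ) ^ (7/4 : ℝ) ≤ M := by rw [hM]; exact Nat.le_ceil _
  have hv34 : v ^ (3/4 : ℝ) * y = x * y ^ (7/4 : ℝ) := by
    rw [hv, Real.mul_rpow hu0.le hy0.le, hux, show (7/4 : ℝ) = 3/4 + 1 by norm_num,
      Real.rpow_add hy0, Real.rpow_one]
    ring
  have hxy1 : 1 ≤ x * y ^ (7/4 : ℝ) := by
    rw [← hv34]
    have h1 : 1 ≤ v ^ (3/4 : ℝ) := Real.one_le_rpow hv1 (by norm_num)
    nlinarith
  have hkM : 196 * (x * y ^ (7/4 : ℝ)) < (k + 1) * M := by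
    have h1 : (W : ℝ) ^ (7/4 : ℝ) = W * (W : ℝ) ^ (3/4 : ℝ) := by
      rw [show (7/4 : ℝ) = 1 + 3/4 by norm_num, Real.rpow_add hW0, Real.rpow_one]
    have h2 : B * v ^ (3/4 : ℝ) ≤ (W : ℝ) ^ (3/4 : ℝ) := by
      rw [← hA34, ← Real.mul_rpow hA0.le (by linarith), ← hT]
      exact Real.rpow_le_rpow (by linarith) hTW (by norm_num)
    have h3 : 0 < v ^ (3/4 : ℝ) := by positivity
    have h4 : 196 ≤ c0 * B := by
      rw [div_le_iff₀ hc0] at hB2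
      linarith
    have hMp : (0 : ℝ) < M := lt_of_lt_of_le (by positivity) hMge
    calc 196 * (x * y ^ (7/4 : ℝ)) = 196 * (v ^ (3/4 : ℝ) * y) := by rw [hv34]
      _ ≤ c0 * B * (v ^ (3/4 : ℝ) * y) := mul_le_mul_of_nonneg_right h4 (by positivity)
      _ = c0 * y * (B * v ^ (3/4 : ℝ)) := by ring
      _ ≤ c0 * y * (W : ℝ) ^ (3/4 : ℝ) := mul_le_mul_of_nonneg_left h2 (by positivity)
      _ = y / W * (c0 * (W : ℝ) ^ (7/4 : ℝ)) := by
          rw [h1]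
          field_simp
      _ ≤ y / W * M := mul_le_mul_of_nonneg_left hMge (by positivity)
      _ < (k + 1) * M := mul_lt_mul_of_pos_right hk2 hMp
  -- the event
  have hsub : ∀ F, F ⊆ (Bn n).edges → (∃ (σ : St) (l : ℕ), inR 0 n 0 n σ.1 ∧
      y ≤ ((sd σ.1 (orb (↑F : Set Edg) σ l).1 : ℤ) : ℝ) ∧ (l : ℝ) ≤ x * y ^ (7/4 : ℝ)) →
      ∃ b ∈ Bks (Bn n) W, ∃ Q ∈ AS k b, Q.card = k + 1 ∧ ∃ B ∈ Q.powerset,
      (B ⊆ Bks (Bn n) W ∧ (∀ q ∈ B, ∀ r ∈ B, cls q = cls r) ∧ k + 1 ≤ 98 * B.card) ∧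
      ∀ q ∈ B, Bd q F := by
    rintro F hF ⟨σ, l0, hσ, hd, ht⟩
    refine chain_sub (x := fun t => (orb (↑F : Set Edg) σ t).1) (orb_step _ σ)
      (orb_in hF hσ) hW1 (M := M) (fun q hq k l h1 h2 h3 => ?_) hk2' (N := l0) ?_ ?_
    · rw [hM]
      have e : ∀ t, orb (↑F : Set Edg) (orb (↑F : Set Edg) σ k) t = orb (↑F : Set Edg) σ (t + k) :=
        fun t => (orb_add _ _ _ _).symm
      refine hgood F hF q hq (orb (↑F : Set Edg) σ k) (orb_in hF hσ k) (l - k) (fun t ht => ?_) ?_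
      · rw [e]
        exact h2 (t + k) (by omega) (by omega)
      · rw [e, Nat.sub_add_cancel h1]
        exact h3
    · have h1 : (((k : ℤ) * W : ℤ) : ℝ) ≤ ((sd σ.1 (orb (↑F : Set Edg) σ l0).1 : ℤ) : ℝ) := by
        push_cast
        exact hkW.trans hd
      exact_mod_cast h1
    · have h1 : ((98 * (l0 + 1) : ℕ) : ℝ) < (((k + 1) * M : ℕ) : ℝ) := by
        rw [Nat.cast_mul, Nat.cast_mul, Nat.cast_add, Nat.cast_add, Nat.cast_one]
        norm_num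
        linarith
      exact_mod_cast h1
  rw [← Bn_edges]
  refine (Pr_mono Pool.Agent.Y884.ME.half_ok hsub).trans ?_
  refine (chain_pr hW1 hloc hbad).trans ?_
  have hcard := card_BksB hW1 (hWy.trans hyn)
  have hhalf : ((1/2 : ℝ)) ^ (k + 1) ≤ Real.exp (-(2 * (a * z))) := by
    have h3 : ((1/2 : ℝ)) ^ (k + 1) = Real.exp (-(((k + 1 : ℕ) : ℝ) * Real.log 2)) := by
      rw [Real.exp_neg, Real.exp_nat_mul, Real.exp_log (by norm_num), one_div, inv_pow]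
    rw [h3]
    apply Real.exp_le_exp.mpr
    push_cast
    have h4 : 2 * (a * z) = z / (2 * A) * Real.log 2 := by
      rw [ha]
      field_simp
      ring
    have h5 := mul_le_mul_of_nonneg_right (hyW.trans hk2.le) hlog.le
    linarith
  have hquad : (a * z) ^ 2 ≤ 2 * Real.exp (a * z) := by
    have := Real.quadratic_le_exp_of_nonneg (show 0 ≤ a * z by positivity)
    have h0 : 0 < a * z := by positivity
    linarith
  have hsplit : (n:ℝ) / W = (n:ℝ) / y * (y / W) := by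
    field_simp
  calc ((Bks (Bn n) W).card : ℝ) * (1/2) ^ (k + 1)
      ≤ (6 * ((n:ℝ) / W) ^ 2) * Real.exp (-(2 * (a * z))) :=
        mul_le_mul hcard hhalf (by positivity) (by positivity)
    _ = 6 * ((n:ℝ) / y) ^ 2 * (y / W) ^ 2 * Real.exp (-(2 * (a * z))) := by rw [hsplit]; ring
    _ ≤ 6 * ((n:ℝ) / y) ^ 2 * (z / A) ^ 2 * Real.exp (-(2 * (a * z))) := by
        gcongr
    _ = 6 / (a * A) ^ 2 * (a * z) ^ 2 * ((n:ℝ) / y) ^ 2 * Real.exp (-(2 * (a * z))) := by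
        field_simp
    _ ≤ 6 / (a * A) ^ 2 * (2 * Real.exp (a * z)) * ((n:ℝ) / y) ^ 2 *
        Real.exp (-(2 * (a * z))) := by
        gcongr
    _ = 12 / (a * A) ^ 2 * ((n:ℝ) / y) ^ 2 *
        (Real.exp (a * z) * Real.exp (-(2 * (a * z)))) := by ring
    _ = 12 / (a * A) ^ 2 * ((n:ℝ) / y) ^ 2 * Real.exp (-(a * z)) := by
        rw [← Real.exp_add]
        ring_nf
    _ ≤ C * ((n:ℝ) / y) ^ 2 * Real.exp (-(a * z)) := by
        gcongr

end Pool.Agent.W5h17.LT
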