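import Pool.Agent.H974R2.RSW2
import Pool.Agent.H974R2.Block

/-!
Crossings of long rectangles, several decreasing events, blocking events of annuli.
-/

set_option autoImplicit false

namespace Pool.Agent.W5h17.LT

open H974 Finset

theorem okl : Ok (fun _ : Edg => (1/2:ℝ)) := fun _ => ⟨by norm_num, by norm_num⟩

/-- Long crossings, powers. -/
theorem hh_long0 {n : ℤ} (hn : 0 < n) (k : ℕ) :
    (1/2:ℝ) ^ (48 * (k + 1)) ≤ hh (1/2) (8 * n + 6 * n * k) (2 * n) := by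
  have h0 : (0:ℝ) ≤ 1/2 := by norm_num
  have h1 : (1/2:ℝ) ≤ 1 := by norm_num
  induction k with
  | zero =>
    have h2 := hh_82 hn
    have h3 : (1/2:ℝ) ^ (48 * (0 + 1)) ≤ (1/2:ℝ) ^ 47 :=
      pow_le_pow_of_le_one h0 h1 (by norm_num)
    have e : 8 * n + 6 * n * ((0 : ℕ) : ℤ) = 8 * n := by push_cast; ring
    rw [e]
    exact h3.trans h2
  | succ k ih =>
    have h2 := hh_82 hn
    have h3 := hh_square (2 * n) (by omega)
    have hnk : 0 ≤ 6 * n * (k : ℤ) := by positivity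
    have h4 := hh_glue h0 h1 (w1 := 8 * n + 6 * n * k) (w2 := 8 * n) (v := 2 * n) (h := 2 * n)
      (by omega) (by omega) (by omega) (by omega)
    have e : 8 * n + 6 * n * k + 8 * n - 2 * n = 8 * n + 6 * n * ((k + 1 : ℕ) : ℤ) := by
      push_cast; ring
    rw [e] at h4
    refine le_trans ?_ h4
    have e2 : (1/2:ℝ) ^ (48 * (k + 1 + 1)) = (1/2:ℝ) ^ (48 * (k + 1)) * (1/2:ℝ) ^ 47 * (1/2) := by
      rw [show 48 * (k + 1 + 1) = 48 * (k + 1) + 47 + 1 by ring, pow_add, pow_add, pow_one]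
    rw [e2]
    have p1 : (0:ℝ) ≤ (1/2:ℝ) ^ (48 * (k + 1)) := by positivity
    have p2 : (0:ℝ) ≤ (1/2:ℝ) ^ 47 := by positivity
    exact mul_le_mul (mul_le_mul ih h2 p2 (p1.trans ih)) h3 (by norm_num)
      (mul_nonneg (p1.trans ih) (p2.trans h2))

/-- Long crossings. -/
theorem hh_long {w h : ℤ} (hw : 0 < w) (hh2 : 2 ≤ h) :
    Real.exp (-(34 * ((w:ℝ) / h + 1))) ≤ hh (1/2) w h := by
  obtain ⟨n, hn⟩ : ∃ n : ℤ, n = h / 2 := ⟨_, rfl⟩
  have hn0 : 0 < n := by omega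
  have hn2 : 2 * n ≤ h := by omega
  have hn3 : h ≤ 3 * n := by omega
  obtain ⟨k, hk⟩ : ∃ k : ℕ, (k : ℤ) = w / (6 * n) :=
    ⟨(w / (6 * n)).toNat, Int.toNat_of_nonneg (Int.ediv_nonneg hw.le (by omega))⟩
  have hk1 : w < 6 * n * k + 6 * n := by
    rw [hk]
    exact Int.lt_mul_ediv_self_add (by omega)
  have hk2 : 6 * n * k ≤ w := by
    rw [hk]
    exact Int.mul_ediv_self_le (by omega)
  have h1 := hh_long0 hn0 k
  have h2 : hh (1/2) (8 * n + 6 * n * k) (2 * n) ≤ hh (1/2) w h :=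
    hh_mono (by norm_num) (by norm_num) hw (by omega) hn2
  refine le_trans ?_ (h1.trans h2)
  have e2 : ((1:ℝ)/2) ^ (48 * (k + 1)) = Real.exp (-(((48 * (k + 1) : ℕ) : ℝ) * Real.log 2)) := by
    rw [Real.exp_neg, Real.exp_nat_mul, Real.exp_log (by norm_num), one_div, inv_pow]
  rw [e2]
  apply Real.exp_le_exp.mpr
  have hh0 : (0:ℝ) < h := by exact_mod_cast (by omega : 0 < h)
  have hkr : (k:ℝ) ≤ (w:ℝ) / h := by
    rw [le_div_iff₀ hh0]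
    have e3 : (h:ℝ) ≤ 3 * n := by exact_mod_cast hn3
    have e4 : 6 * (n:ℝ) * k ≤ w := by exact_mod_cast hk2
    have e5 : (0:ℝ) ≤ k := Nat.cast_nonneg k
    have e6 : (0:ℝ) < n := by exact_mod_cast hn0
    nlinarith
  have hlog : Real.log 2 < 0.7 := by
    have := Real.log_two_lt_d9
    linarith
  have hlog0 : 0 < Real.log 2 := Real.log_pos (by norm_num)
  have hk0 : (0:ℝ) ≤ k := Nat.cast_nonneg k
  push_cast
  nlinarith

/-- No crossing of a rectangle of width `b - a` and height `d - c`. -/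
theorem pr_not_LRc {a b c d : ℤ} (hab : a + 3 ≤ b) (hcd : c ≤ d) {S : Finset Edg}
    (hS : LRE a b c d ⊆ S) :
    Real.exp (-(34 * (((d:ℝ) - c + 1) / ((b:ℝ) - a - 1) + 1))) ≤
      Pr (fun _ => (1/2:ℝ)) S (fun F => ¬ LRc a b c d F) := by
  rw [Pr_not, pr_LRc _ hS, hh_dual (by omega) (by omega)]
  have e1 : (1:ℝ) - 1/2 = 1/2 := by norm_num
  rw [e1]
  have h := hh_long (w := d - c + 1) (h := b - a - 1) (by omega) (by omega)
  push_cast at h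
  linarith

theorem pr_not_TBc {a b c d : ℤ} (hab : a ≤ b) (hcd : c + 3 ≤ d) {S : Finset Edg}
    (hS : TBE a b c d ⊆ S) :
    Real.exp (-(34 * (((b:ℝ) - a + 1) / ((d:ℝ) - c - 1) + 1))) ≤
      Pr (fun _ => (1/2:ℝ)) S (fun F => ¬ TBc a b c d F) := by
  rw [Pr_not, pr_TBc _ hS, hh_dual (by omega) (by omega)]
  have e1 : (1:ℝ) - 1/2 = 1/2 := by norm_num
  rw [e1]
  have h := hh_long (w := b - a + 1) (h := d - c - 1) (by omega) (by omega)
  push_cast at h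
  linarith

/-- Several decreasing events. -/
theorem fkg_neg {ι : Type} [DecidableEq ι] {S : Finset Edg} (I : Finset ι)
    (A : ι → Finset Edg → Prop) (hA : ∀ i ∈ I, IncrE S (A i)) (t : ι → ℝ)
    (ht : ∀ i ∈ I, Real.exp (-(t i)) ≤ Pr (fun _ => (1/2:ℝ)) S (fun F => ¬ A i F)) :
    Real.exp (-(∑ i ∈ I, t i)) ≤ Pr (fun _ => (1/2:ℝ)) S (fun F => ∀ i ∈ I, ¬ A i F) := by
  induction I using Finset.induction_on with
  | empty =>
    rw [Pr_true _ (fun F _ i hi => absurd hi (notMem_empty i))]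
    simp
  | @insert j I hj ih =>
    have h1 := ih (fun i hi => hA i (mem_insert_of_mem hi)) (fun i hi => ht i (mem_insert_of_mem hi))
    have h2 := ht j (mem_insert_self _ _)
    have hinc : IncrE S (fun F => ∃ i ∈ I, A i F) := by
      rintro F G h3 h4 ⟨i, hi, h5⟩
      exact ⟨i, hi, hA i (mem_insert_of_mem hi) F G h3 h4 h5⟩
    have h3 := Pr_harris_dd okl (hA j (mem_insert_self _ _)) hinc
    rw [← Pr_not, ← Pr_not] at h3
    have h4 : Pr (fun _ => (1/2:ℝ)) S (fun F => ¬ ∃ i ∈ I, A i F) =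
        Pr (fun _ => (1/2:ℝ)) S (fun F => ∀ i ∈ I, ¬ A i F) := by
      apply Pr_congr
      intro F _
      push Not
      rfl
    have h5 : Pr (fun _ => (1/2:ℝ)) S (fun F => ¬ A j F ∧ ¬ ∃ i ∈ I, A i F) =
        Pr (fun _ => (1/2:ℝ)) S (fun F => ∀ i ∈ insert j I, ¬ A i F) := by
      apply Pr_congr
      intro F _
      constructor
      · rintro ⟨h6, h7⟩ i hi
        rw [mem_insert] at hi
        rcases hi with rfl | hi
        · exact h6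
        · exact fun h8 => h7 ⟨i, hi, h8⟩
      · intro h6
        exact ⟨h6 j (mem_insert_self _ _),
          fun ⟨i, hi, h8⟩ => h6 i (mem_insert_of_mem hi) h8⟩
    rw [h4, h5] at h3
    refine le_trans ?_ h3
    rw [sum_insert hj, neg_add, Real.exp_add]
    exact mul_le_mul h2 h1 (Real.exp_pos _).le ((Real.exp_pos _).le.trans h2)

/-! ### Annuli -/

/-- No open path crosses the annulus. -/
def Blk4 (c1 c2 r R : ℤ) (F : Finset Edg) : Prop :=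
  (¬ LRc (c1 + r) (c1 + R) (c2 - R) (c2 + R) F ∧ ¬ LRc (c1 - R) (c1 - r) (c2 - R) (c2 + R) F) ∧
    (¬ TBc (c1 - R) (c1 + R) (c2 + r) (c2 + R) F ∧ ¬ TBc (c1 - R) (c1 + R) (c2 - R) (c2 - r) F)

theorem Blk4.anti {c1 c2 r R : ℤ} {F G : Finset Edg} (h : F ⊆ G) (hG : Blk4 c1 c2 r R G) :
    Blk4 c1 c2 r R F :=
  ⟨⟨fun h1 => hG.1.1 (h1.mono h), fun h1 => hG.1.2 (h1.mono h)⟩,
    ⟨fun h1 => hG.2.1 (h1.mono h), fun h1 => hG.2.2 (h1.mono h)⟩⟩

/-- A path which starts in the inner box stays in the outer box. -/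
theorem blk_stop {c1 c2 r R : ℤ} (hr : 0 ≤ r) (hrR : r < R) {F : Finset Edg}
    (hb : Blk4 c1 c2 r R F) {u v : Vtx} (hu : inR (c1 - r) (c1 + r) (c2 - r) (c2 + r) u)
    (h : Reach (↑F : Set Edg) u v) :
    (c1 - R < v.1 ∧ v.1 < c1 + R) ∧ (c2 - R < v.2 ∧ v.2 < c2 + R) := by
  by_contra hcon
  have hv : v.1 ≤ c1 - R ∨ c1 + R ≤ v.1 ∨ v.2 ≤ c2 - R ∨ c2 + R ≤ v.2 := by omega
  unfold inR at hu
  obtain ⟨w, k1, k2, k3⟩ := first_exit (a := c1 - R) (b := c1 + R) (c := c2 - R) (d := c2 + R)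
    (by unfold inR; omega) h hv
  obtain ⟨⟨hb1, hb2⟩, hb3, hb4⟩ := hb
  rcases k2 with k2 | k2 | k2 | k2
  · apply hb2
    obtain ⟨y1, y2, m1, m2, m3, -⟩ := sub_LR (a := c1 - R) (b := c1 - r) (c := c2 - R)
      (d := c2 + R) (by omega)
      (by rintro x y ⟨-, h⟩ _ _; simp only [mem_coe, mem_RE_true] at h; omega)
      (by rintro x y ⟨-, h⟩ _ _; simp only [mem_coe, mem_RE_false] at h; omega)
      k3.symm k2.le (by omega)
    exact ⟨y1, y2, m1, m2, m3.mono (by rintro e ⟨⟨h4, -⟩, h5⟩; exact ⟨h4, h5⟩)⟩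
  · apply hb1
    obtain ⟨y1, y2, m1, m2, m3, -⟩ := sub_LR (a := c1 + r) (b := c1 + R) (c := c2 - R)
      (d := c2 + R) (by omega)
      (by rintro x y ⟨-, h⟩ _ _; simp only [mem_coe, mem_RE_true] at h; omega)
      (by rintro x y ⟨-, h⟩ _ _; simp only [mem_coe, mem_RE_false] at h; omega)
      k3 (by omega) k2.ge
    exact ⟨y1, y2, m1, m2, m3.mono (by rintro e ⟨⟨h4, -⟩, h5⟩; exact ⟨h4, h5⟩)⟩
  · apply hb4
    obtain ⟨y1, y2, m1, m2, m3, -⟩ := sub_TB (a := c1 - R) (b := c1 + R) (c := c2 - R)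
      (d := c2 - r) (by omega)
      (by rintro x y ⟨-, h⟩ _ _; simp only [mem_coe, mem_RE_false] at h; omega)
      (by rintro x y ⟨-, h⟩ _ _; simp only [mem_coe, mem_RE_true] at h; omega)
      k3.symm k2.le (by omega)
    exact ⟨y1, y2, m1, m2, m3.mono (by rintro e ⟨⟨h4, -⟩, h5⟩; exact ⟨h4, h5⟩)⟩
  · apply hb3
    obtain ⟨y1, y2, m1, m2, m3, -⟩ := sub_TB (a := c1 - R) (b := c1 + R) (c := c2 + r)
      (d := c2 + R) (by omega)
      (by rintro x y ⟨-, h⟩ _ _; simp only [mem_coe, mem_RE_false] at h; omega)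
      (by rintro x y ⟨-, h⟩ _ _; simp only [mem_coe, mem_RE_true] at h; omega)
      k3 (by omega) k2.ge
    exact ⟨y1, y2, m1, m2, m3.mono (by rintro e ⟨⟨h4, -⟩, h5⟩; exact ⟨h4, h5⟩)⟩

/-- Four open crossings around the annulus. -/
def Cir4 (c1 c2 r R : ℤ) (F : Finset Edg) : Prop :=
  (LRc (c1 - R - 1) (c1 + R + 1) (c2 + r) (c2 + R) F ∧
    LRc (c1 - R - 1) (c1 + R + 1) (c2 - R) (c2 - r) F) ∧
    (TBc (c1 + r) (c1 + R) (c2 - R - 1) (c2 + R + 1) F ∧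
      TBc (c1 - R) (c1 - r) (c2 - R - 1) (c2 + R + 1) F)

theorem Cir4.mono {c1 c2 r R : ℤ} {F G : Finset Edg} (h : F ⊆ G) (hF : Cir4 c1 c2 r R F) :
    Cir4 c1 c2 r R G :=
  ⟨⟨hF.1.1.mono h, hF.1.2.mono h⟩, ⟨hF.2.1.mono h, hF.2.2.mono h⟩⟩

theorem image_dl_LRE (G : Set Edg) (a b c d : ℤ) :
    dl '' G ∩ ↑(TBE a (b - 1) (c - 1) d) = dl '' (G ∩ ↑(LRE a b c d)) := by
  rw [Set.image_inter dl.injective, ← coe_dmp, dmp_LRE]

theorem image_dl_TBE (G : Set Edg) (a b c d : ℤ) :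
    dl '' G ∩ ↑(LRE (a - 1) b c (d - 1)) = dl '' (G ∩ ↑(TBE a b c d)) := by
  rw [Set.image_inter dl.injective, ← coe_dmp, dmp_TBE]

/-- A closed dual path which starts in the inner box stays in the outer box. -/
theorem cir_stop {c1 c2 r R : ℤ} (hr : 0 < r) (hrR : r < R) {F : Finset Edg}
    (hb : Cir4 c1 c2 r R F) {f g : Vtx}
    (hf : inR (c1 - r) (c1 + r - 1) (c2 - r) (c2 + r - 1) f)
    (h : DReach (↑F : Set Edg)ᶜ f g) :
    (c1 - R - 1 < g.1 ∧ g.1 < c1 + R) ∧ (c2 - R - 1 < g.2 ∧ g.2 < c2 + R) := by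
  by_contra hcon
  have hv : g.1 ≤ c1 - R - 1 ∨ c1 + R ≤ g.1 ∨ g.2 ≤ c2 - R - 1 ∨ c2 + R ≤ g.2 := by omega
  unfold inR at hf
  rw [← reach_dl] at h
  obtain ⟨w, k1, k2, k3⟩ := first_exit (a := c1 - R - 1) (b := c1 + R) (c := c2 - R - 1)
    (d := c2 + R) (by unfold inR; omega) h hv
  obtain ⟨⟨hb1, hb2⟩, hb3, hb4⟩ := hb
  rcases k2 with k2 | k2 | k2 | k2
  · -- left
    obtain ⟨y1, y2, m1, m2, m3, -⟩ := sub_LR (a := c1 - R - 1) (b := c1 - r) (c := c2 - R - 1)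
      (d := c2 + R) (by omega)
      (by rintro x y ⟨-, h⟩ _ _; simp only [mem_coe, mem_RE_true] at h; omega)
      (by rintro x y ⟨-, h⟩ _ _; simp only [mem_coe, mem_RE_false] at h; omega)
      k3.symm k2.le (by omega)
    obtain ⟨x, x', n1, n2, n3⟩ := hb4
    have e := image_dl_TBE (↑F : Set Edg)ᶜ (c1 - R) (c1 - r) (c2 - R - 1) (c2 + R + 1)
    rw [show c2 + R + 1 - 1 = c2 + R by ring] at e
    have m4 : Reach (dl '' ((↑F : Set Edg)ᶜ ∩ ↑(TBE (c1 - R) (c1 - r) (c2 - R - 1)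
        (c2 + R + 1)))) (c1 - R - 1, y1) (c1 - r, y2) := by
      rw [← e]
      exact m3.mono (by rintro e ⟨⟨h4, -⟩, h5⟩; exact ⟨h4, h5⟩)
    rw [reach_dl] at m4
    exact no_both_TB (by omega) n2 (by omega) n3 m4
  · -- right
    obtain ⟨y1, y2, m1, m2, m3, -⟩ := sub_LR (a := c1 + r - 1) (b := c1 + R) (c := c2 - R - 1)
      (d := c2 + R) (by omega)
      (by rintro x y ⟨-, h⟩ _ _; simp only [mem_coe, mem_RE_true] at h; omega)
      (by rintro x y ⟨-, h⟩ _ _; simp only [mem_coe, mem_RE_false] at h; omega)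
      k3 (by omega) k2.ge
    obtain ⟨x, x', n1, n2, n3⟩ := hb3
    have e := image_dl_TBE (↑F : Set Edg)ᶜ (c1 + r) (c1 + R) (c2 - R - 1) (c2 + R + 1)
    rw [show c2 + R + 1 - 1 = c2 + R by ring] at e
    have m4 : Reach (dl '' ((↑F : Set Edg)ᶜ ∩ ↑(TBE (c1 + r) (c1 + R) (c2 - R - 1)
        (c2 + R + 1)))) (c1 + r - 1, y1) (c1 + R, y2) := by
      rw [← e]
      exact m3.mono (by rintro e ⟨⟨h4, -⟩, h5⟩; exact ⟨h4, h5⟩)
    rw [reach_dl] at m4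
    exact no_both_TB (by omega) n2 (by omega) n3 m4
  · -- bottom
    obtain ⟨y1, y2, m1, m2, m3, -⟩ := sub_TB (a := c1 - R - 1) (b := c1 + R) (c := c2 - R - 1)
      (d := c2 - r) (by omega)
      (by rintro x y ⟨-, h⟩ _ _; simp only [mem_coe, mem_RE_false] at h; omega)
      (by rintro x y ⟨-, h⟩ _ _; simp only [mem_coe, mem_RE_true] at h; omega)
      k3.symm k2.le (by omega)
    obtain ⟨x, x', n1, n2, n3⟩ := hb2
    have e := image_dl_LRE (↑F : Set Edg)ᶜ (c1 - R - 1) (c1 + R + 1) (c2 - R) (c2 - r)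
    rw [show c1 + R + 1 - 1 = c1 + R by ring] at e
    have m4 : Reach (dl '' ((↑F : Set Edg)ᶜ ∩ ↑(LRE (c1 - R - 1) (c1 + R + 1) (c2 - R)
        (c2 - r)))) (y1, c2 - R - 1) (y2, c2 - r) := by
      rw [← e]
      exact m3.mono (by rintro e ⟨⟨h4, -⟩, h5⟩; exact ⟨h4, h5⟩)
    rw [reach_dl] at m4
    exact no_both (by omega) n2 (by omega) n3 m4
  · -- top
    obtain ⟨y1, y2, m1, m2, m3, -⟩ := sub_TB (a := c1 - R - 1) (b := c1 + R) (c := c2 + r - 1)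
      (d := c2 + R) (by omega)
      (by rintro x y ⟨-, h⟩ _ _; simp only [mem_coe, mem_RE_false] at h; omega)
      (by rintro x y ⟨-, h⟩ _ _; simp only [mem_coe, mem_RE_true] at h; omega)
      k3 (by omega) k2.ge
    obtain ⟨x, x', n1, n2, n3⟩ := hb1
    have e := image_dl_LRE (↑F : Set Edg)ᶜ (c1 - R - 1) (c1 + R + 1) (c2 + r) (c2 + R)
    rw [show c1 + R + 1 - 1 = c1 + R by ring] at e
    have m4 : Reach (dl '' ((↑F : Set Edg)ᶜ ∩ ↑(LRE (c1 - R - 1) (c1 + R + 1) (c2 + r)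
        (c2 + R)))) (y1, c2 + r - 1) (y2, c2 + R) := by
      rw [← e]
      exact m3.mono (by rintro e ⟨⟨h4, -⟩, h5⟩; exact ⟨h4, h5⟩)
    rw [reach_dl] at m4
    exact no_both (by omega) n2 (by omega) n3 m4

/-- The constant. -/
noncomputable def dd : ℝ := (1/2) ^ 188

theorem dd_pos : 0 < dd := by unfold dd; positivity

/-- The blocking event has probability bounded below. -/
theorem pr_Blk4 {c1 c2 r : ℤ} (hr : 5 ≤ r) {S : Finset Edg}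
    (hS : RE (c1 - 3 * r) (c1 + 3 * r) (c2 - 3 * r) (c2 + 3 * r) ⊆ S) :
    dd ≤ Pr (fun _ => (1/2:ℝ)) S (Blk4 c1 c2 r (3 * r)) := by
  have e1 : (1:ℝ) - 1/2 = 1/2 := by norm_num
  have hn : ∀ w h : ℤ, 0 < w → w ≤ 8 * (r - 1) → 2 * (r - 1) ≤ h → (1/2:ℝ) ^ 47 ≤ hh (1/2) w h :=
    fun w h h1 h2 h3 => rsw (n := r - 1) (by omega) h1 h2 h3
  have s1 : LRE (c1 + r) (c1 + 3 * r) (c2 - 3 * r) (c2 + 3 * r) ⊆ S :=
    LRE_subset_RE.trans ((RE_subset (by omega) (by omega) (by omega) (by omega)).trans hS)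
  have s2 : LRE (c1 - 3 * r) (c1 - r) (c2 - 3 * r) (c2 + 3 * r) ⊆ S :=
    LRE_subset_RE.trans ((RE_subset (by omega) (by omega) (by omega) (by omega)).trans hS)
  have s3 : TBE (c1 - 3 * r) (c1 + 3 * r) (c2 + r) (c2 + 3 * r) ⊆ S :=
    TBE_subset_RE.trans ((RE_subset (by omega) (by omega) (by omega) (by omega)).trans hS)
  have s4 : TBE (c1 - 3 * r) (c1 + 3 * r) (c2 - 3 * r) (c2 - r) ⊆ S :=
    TBE_subset_RE.trans ((RE_subset (by omega) (by omega) (by omega) (by omega)).trans hS)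
  have p1 : (1/2:ℝ) ^ 47 ≤ 1 - Pr (fun _ => (1/2:ℝ)) S
      (LRc (c1 + r) (c1 + 3 * r) (c2 - 3 * r) (c2 + 3 * r)) := by
    rw [pr_LRc _ s1, hh_dual (by omega) (by omega), e1]
    have := hn (c2 + 3 * r - (c2 - 3 * r) + 1) (c1 + 3 * r - (c1 + r) - 1) (by omega) (by omega)
      (by omega)
    linarith
  have p2 : (1/2:ℝ) ^ 47 ≤ 1 - Pr (fun _ => (1/2:ℝ)) S
      (LRc (c1 - 3 * r) (c1 - r) (c2 - 3 * r) (c2 + 3 * r)) := by
    rw [pr_LRc _ s2, hh_dual (by omega) (by omega), e1]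
    have := hn (c2 + 3 * r - (c2 - 3 * r) + 1) (c1 - r - (c1 - 3 * r) - 1) (by omega) (by omega)
      (by omega)
    linarith
  have p3 : (1/2:ℝ) ^ 47 ≤ 1 - Pr (fun _ => (1/2:ℝ)) S
      (TBc (c1 - 3 * r) (c1 + 3 * r) (c2 + r) (c2 + 3 * r)) := by
    rw [pr_TBc _ s3, hh_dual (by omega) (by omega), e1]
    have := hn (c1 + 3 * r - (c1 - 3 * r) + 1) (c2 + 3 * r - (c2 + r) - 1) (by omega) (by omega)
      (by omega)
    linarith
  have p4 : (1/2:ℝ) ^ 47 ≤ 1 - Pr (fun _ => (1/2:ℝ)) S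
      (TBc (c1 - 3 * r) (c1 + 3 * r) (c2 - 3 * r) (c2 - r)) := by
    rw [pr_TBc _ s4, hh_dual (by omega) (by omega), e1]
    have := hn (c1 + 3 * r - (c1 - 3 * r) + 1) (c2 - r - (c2 - 3 * r) - 1) (by omega) (by omega)
      (by omega)
    linarith
  have i1 := Pr_harris_dd okl (LRc_incr S (c1 + r) (c1 + 3 * r) (c2 - 3 * r) (c2 + 3 * r))
    (LRc_incr S (c1 - 3 * r) (c1 - r) (c2 - 3 * r) (c2 + 3 * r))
  have i2 := Pr_harris_dd okl (TBc_incr S (c1 - 3 * r) (c1 + 3 * r) (c2 + r) (c2 + 3 * r))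
    (TBc_incr S (c1 - 3 * r) (c1 + 3 * r) (c2 - 3 * r) (c2 - r))
  obtain ⟨A, hA⟩ : ∃ A : Finset Edg → Prop, A = fun F =>
    LRc (c1 + r) (c1 + 3 * r) (c2 - 3 * r) (c2 + 3 * r) F ∨
    LRc (c1 - 3 * r) (c1 - r) (c2 - 3 * r) (c2 + 3 * r) F := ⟨_, rfl⟩
  obtain ⟨B, hB⟩ : ∃ B : Finset Edg → Prop, B = fun F =>
    TBc (c1 - 3 * r) (c1 + 3 * r) (c2 + r) (c2 + 3 * r) F ∨
    TBc (c1 - 3 * r) (c1 + 3 * r) (c2 - 3 * r) (c2 - r) F := ⟨_, rfl⟩
  have hAi : IncrE S A := by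
    rw [hA]
    rintro F G h1 h2 (h3 | h3)
    · exact Or.inl (h3.mono h1)
    · exact Or.inr (h3.mono h1)
  have hBi : IncrE S B := by
    rw [hB]
    rintro F G h1 h2 (h3 | h3)
    · exact Or.inl (h3.mono h1)
    · exact Or.inr (h3.mono h1)
  have i3 := Pr_harris_dd okl hAi hBi
  have q1 : (1/2:ℝ) ^ 94 ≤ 1 - Pr (fun _ => (1/2:ℝ)) S A := by
    have h1 : 1 - Pr (fun _ => (1/2:ℝ)) S A = Pr (fun _ => (1/2:ℝ)) S (fun F =>
        ¬ LRc (c1 + r) (c1 + 3 * r) (c2 - 3 * r) (c2 + 3 * r) F ∧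
        ¬ LRc (c1 - 3 * r) (c1 - r) (c2 - 3 * r) (c2 + 3 * r) F) := by
      rw [← Pr_not, hA]
      exact Pr_congr fun F _ => not_or
    rw [h1]
    refine le_trans ?_ i1
    rw [show (94:ℕ) = 47 + 47 by norm_num, pow_add]
    exact mul_le_mul p1 p2 (by positivity) ((by positivity : (0:ℝ) ≤ (1/2) ^ 47).trans p1)
  have q2 : (1/2:ℝ) ^ 94 ≤ 1 - Pr (fun _ => (1/2:ℝ)) S B := by
    have h1 : 1 - Pr (fun _ => (1/2:ℝ)) S B = Pr (fun _ => (1/2:ℝ)) S (fun F =>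
        ¬ TBc (c1 - 3 * r) (c1 + 3 * r) (c2 + r) (c2 + 3 * r) F ∧
        ¬ TBc (c1 - 3 * r) (c1 + 3 * r) (c2 - 3 * r) (c2 - r) F) := by
      rw [← Pr_not, hB]
      exact Pr_congr fun F _ => not_or
    rw [h1]
    refine le_trans ?_ i2
    rw [show (94:ℕ) = 47 + 47 by norm_num, pow_add]
    exact mul_le_mul p3 p4 (by positivity) ((by positivity : (0:ℝ) ≤ (1/2) ^ 47).trans p3)
  have h2 : Pr (fun _ => (1/2:ℝ)) S (fun F => ¬ A F ∧ ¬ B F) =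
      Pr (fun _ => (1/2:ℝ)) S (Blk4 c1 c2 r (3 * r)) := by
    apply Pr_congr
    intro F _
    rw [hA, hB]
    unfold Blk4
    simp only [not_or]
  rw [← h2]
  refine le_trans ?_ i3
  unfold dd
  rw [show (188:ℕ) = 94 + 94 by norm_num, pow_add]
  exact mul_le_mul q1 q2 (by positivity) ((by positivity : (0:ℝ) ≤ (1/2) ^ 94).trans q1)

/-- The circuit has probability bounded below. -/
theorem pr_Cir4 {c1 c2 r : ℤ} (hr : 1 ≤ r) {S : Finset Edg}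
    (hS : RE (c1 - 3 * r - 1) (c1 + 3 * r + 1) (c2 - 3 * r - 1) (c2 + 3 * r + 1) ⊆ S) :
    dd ≤ Pr (fun _ => (1/2:ℝ)) S (Cir4 c1 c2 r (3 * r)) := by
  have hn : ∀ w h : ℤ, 0 < w → w ≤ 8 * r → 2 * r ≤ h → (1/2:ℝ) ^ 47 ≤ hh (1/2) w h :=
    fun w h h1 h2 h3 => rsw (n := r) (by omega) h1 h2 h3
  have s1 : LRE (c1 - 3 * r - 1) (c1 + 3 * r + 1) (c2 + r) (c2 + 3 * r) ⊆ S :=
    LRE_subset_RE.trans ((RE_subset (by omega) (by omega) (by omega) (by omega)).trans hS)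
  have s2 : LRE (c1 - 3 * r - 1) (c1 + 3 * r + 1) (c2 - 3 * r) (c2 - r) ⊆ S :=
    LRE_subset_RE.trans ((RE_subset (by omega) (by omega) (by omega) (by omega)).trans hS)
  have s3 : TBE (c1 + r) (c1 + 3 * r) (c2 - 3 * r - 1) (c2 + 3 * r + 1) ⊆ S :=
    TBE_subset_RE.trans ((RE_subset (by omega) (by omega) (by omega) (by omega)).trans hS)
  have s4 : TBE (c1 - 3 * r) (c1 - r) (c2 - 3 * r - 1) (c2 + 3 * r + 1) ⊆ S :=
    TBE_subset_RE.trans ((RE_subset (by omega) (by omega) (by omega) (by omega)).trans hS)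
  have p1 : (1/2:ℝ) ^ 47 ≤ Pr (fun _ => (1/2:ℝ)) S
      (LRc (c1 - 3 * r - 1) (c1 + 3 * r + 1) (c2 + r) (c2 + 3 * r)) := by
    rw [pr_LRc _ s1]
    exact hn _ _ (by omega) (by omega) (by omega)
  have p2 : (1/2:ℝ) ^ 47 ≤ Pr (fun _ => (1/2:ℝ)) S
      (LRc (c1 - 3 * r - 1) (c1 + 3 * r + 1) (c2 - 3 * r) (c2 - r)) := by
    rw [pr_LRc _ s2]
    exact hn _ _ (by omega) (by omega) (by omega)
  have p3 : (1/2:ℝ) ^ 47 ≤ Pr (fun _ => (1/2:ℝ)) S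
      (TBc (c1 + r) (c1 + 3 * r) (c2 - 3 * r - 1) (c2 + 3 * r + 1)) := by
    rw [pr_TBc _ s3]
    exact hn _ _ (by omega) (by omega) (by omega)
  have p4 : (1/2:ℝ) ^ 47 ≤ Pr (fun _ => (1/2:ℝ)) S
      (TBc (c1 - 3 * r) (c1 - r) (c2 - 3 * r - 1) (c2 + 3 * r + 1)) := by
    rw [pr_TBc _ s4]
    exact hn _ _ (by omega) (by omega) (by omega)
  have i1 := Pr_harris okl (LRc_incr S (c1 - 3 * r - 1) (c1 + 3 * r + 1) (c2 + r) (c2 + 3 * r))
    (LRc_incr S (c1 - 3 * r - 1) (c1 + 3 * r + 1) (c2 - 3 * r) (c2 - r))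
  have i2 := Pr_harris okl (TBc_incr S (c1 + r) (c1 + 3 * r) (c2 - 3 * r - 1) (c2 + 3 * r + 1))
    (TBc_incr S (c1 - 3 * r) (c1 - r) (c2 - 3 * r - 1) (c2 + 3 * r + 1))
  have j1 : IncrE S (fun F => LRc (c1 - 3 * r - 1) (c1 + 3 * r + 1) (c2 + r) (c2 + 3 * r) F ∧
      LRc (c1 - 3 * r - 1) (c1 + 3 * r + 1) (c2 - 3 * r) (c2 - r) F) :=
    fun F G hFG _ hF => ⟨hF.1.mono hFG, hF.2.mono hFG⟩
  have j2 : IncrE S (fun F => TBc (c1 + r) (c1 + 3 * r) (c2 - 3 * r - 1) (c2 + 3 * r + 1) F ∧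
      TBc (c1 - 3 * r) (c1 - r) (c2 - 3 * r - 1) (c2 + 3 * r + 1) F) :=
    fun F G hFG _ hF => ⟨hF.1.mono hFG, hF.2.mono hFG⟩
  have i3 := Pr_harris okl j1 j2
  have z : (0:ℝ) ≤ (1/2) ^ 47 := by positivity
  have q1 := (mul_le_mul p1 p2 z (z.trans p1)).trans i1
  have q2 := (mul_le_mul p3 p4 z (z.trans p3)).trans i2
  have z2 : (0:ℝ) ≤ (1/2) ^ 47 * (1/2) ^ 47 := by positivity
  refine le_trans ?_ ((mul_le_mul q1 q2 z2 (z2.trans q1)).trans i3)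
  unfold dd
  rw [show (188:ℕ) = 47 + 47 + (47 + 47) by norm_num, pow_add, pow_add]

end Pool.Agent.W5h17.LT
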