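import Pool.Agent.W5h17.LT.Tube
import Pool.Agent.H342R2.Per.Sum

/-!
A configuration in which the largest cluster is a long thin cluster: its probability and the outer
perimeter of the largest cluster.
-/

set_option autoImplicit false

namespace Pool.Agent.W5h17.LT

open H974 Finset H342P H984P

section
variable {n : ℕ} {s a : ℤ}

/-- The strips of the family. -/
theorem mem_I1 (hs : 0 < s) {q : Rc} (hq : q ∈ I1 n s a) :
    (∃ k : ℕ, (k : ℤ) * s + s ≤ n ∧ (2 ≤ k ∧ k ≤ 6) ∧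
      q = ⟨true, k * s, k * s + s, s + a + 1, n⟩) ∨
    (∃ k : ℕ, (k : ℤ) * s + s ≤ n ∧ ¬ (2 ≤ k ∧ k ≤ 6) ∧
      q = ⟨true, k * s, k * s + s, 0, n⟩) ∨
    (∃ k : ℕ, (2 ≤ k ∧ k ≤ 6) ∧ q = ⟨true, k * s, k * s + s, 0, s - 1⟩) ∨
    (∃ j : ℕ, (j : ℤ) * s + s ≤ n ∧ j ≠ 1 ∧ q = ⟨false, 0, n, j * s, j * s + s⟩) := by
  unfold I1 at hq
  rw [mem_union, mem_union] at hq
  rcases hq with (hq | hq) | hq
  · obtain ⟨k, hk, rfl⟩ := mem_image.mp hq
    rw [mem_range, lt_K hs] at hk
    unfold Vs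
    split_ifs with h
    · exact Or.inl ⟨k, hk, h, rfl⟩
    · exact Or.inr (Or.inl ⟨k, hk, h, rfl⟩)
  · obtain ⟨k, hk, rfl⟩ := mem_image.mp hq
    exact Or.inr (Or.inr (Or.inl ⟨k, mem_Icc.mp hk, rfl⟩))
  · obtain ⟨j, hj, rfl⟩ := mem_image.mp hq
    rw [mem_erase, mem_range, lt_K hs] at hj
    exact Or.inr (Or.inr (Or.inr ⟨j, hj.2, hj.1, rfl⟩))

theorem mem_I2 {q : Rc} (hq : q ∈ I2 s a) :
    q = ⟨false, 2 * s - a, 7 * s + a, s + a, s + 2 * a⟩ ∨
    q = ⟨false, 2 * s - a, 7 * s + a, s - a, s⟩ ∨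
    q = ⟨true, 2 * s - a, 2 * s, s - a, s + 2 * a⟩ ∨
    q = ⟨true, 7 * s, 7 * s + a, s - a, s + 2 * a⟩ := by
  unfold I2 at hq
  simpa only [mem_insert, mem_singleton] using hq

theorem card_I1 (hs : 0 < s) : ((I1 n s a).card : ℝ) ≤ 2 * ((n:ℝ) / s) + 5 := by
  classical
  have h0 : 0 < s.toNat := by omega
  have e : ((s.toNat : ℕ) : ℤ) = s := Int.toNat_of_nonneg hs.le
  have er : ((s.toNat : ℕ) : ℝ) = s := by exact_mod_cast e
  have h1 : (I1 n s a).card ≤ (n / s.toNat + 5) + n / s.toNat := by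
    unfold I1
    refine (card_union_le _ _).trans (add_le_add ((card_union_le _ _).trans (add_le_add
      (card_image_le.trans (by rw [card_range])) (card_image_le.trans (by simp))))
      (card_image_le.trans ((card_erase_le).trans (by rw [card_range]))))
  have h2 : ((I1 n s a).card : ℝ) ≤ (((n / s.toNat + 5) + n / s.toNat : ℕ) : ℝ) := by
    exact_mod_cast h1
  have h3 : ((n / s.toNat : ℕ) : ℝ) ≤ (n:ℝ) / s := by
    rw [← er]
    exact Nat.cast_div_le
  push_cast at h2 h3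
  linarith

theorem card_I2 : ((I2 s a).card : ℝ) ≤ 4 := by
  have : (I2 s a).card ≤ 4 := by
    unfold I2
    exact card_le_four
  exact_mod_cast this

/-- Multiples of `s`. -/
theorem mul_bd (hs : 0 < s) {k m : ℕ} (h : k ≤ m) : (k : ℤ) * s ≤ m * s :=
  mul_le_mul_of_nonneg_right (by exact_mod_cast h) hs.le

/-- The rectangles are admissible. -/
theorem adm (ha : 36 ≤ a) (has : 2 * a ≤ s) (hn : 9 * s ≤ n) {q : Rc}
    (hq : q ∈ I1 n s a ∪ I2 s a) :
    q.W (3 * (a / 6 - 1)) ∧ q.E ⊆ RE 0 n 0 n ∧ Disjoint q.E (LRE (2 * s) (7 * s) s (s + a)) := by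
  have hs : 0 < s := by omega
  rw [mem_union] at hq
  rcases hq with hq | hq
  · rcases mem_I1 hs hq with ⟨k, hk, ⟨hk2, hk6⟩, rfl⟩ | ⟨k, hk, hk2, rfl⟩ | ⟨k, ⟨hk2, hk6⟩, rfl⟩ |
      ⟨j, hj, hj1, rfl⟩
    · have b1 := mul_bd hs hk2
      have b2 := mul_bd hs hk6
      push_cast at b1 b2
      obtain ⟨z, hz⟩ : ∃ z : ℤ, z = (k:ℤ) * s := ⟨_, rfl⟩
      rw [← hz] at b1 b2 hk ⊢
      refine ⟨?_, ?_, ?_⟩
      · unfold Rc.W
        simp only [if_true]
        omega
      · unfold Rc.E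
        simp only [if_true]
        exact LRE_subset_RE.trans (RE_subset (by omega) (by omega) (by omega) (by omega))
      · unfold Rc.E
        simp only [if_true]
        rw [disjoint_left]
        rintro ⟨x, y, _ | _⟩ h1 h2
        · rw [mem_LRE_false] at h1 h2
          omega
        · rw [mem_LRE_true] at h1 h2
          omega
    · have b0 : 0 ≤ (k:ℤ) * s := by positivity
      have b1 : (k:ℤ) * s + s ≤ 2 * s ∨ 7 * s ≤ (k:ℤ) * s := by
        rcases (by omega : k ≤ 1 ∨ 7 ≤ k) with h | h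
        · left
          have := mul_bd hs h
          push_cast at this
          omega
        · right
          have := mul_bd hs h
          push_cast at this
          omega
      obtain ⟨z, hz⟩ : ∃ z : ℤ, z = (k:ℤ) * s := ⟨_, rfl⟩
      rw [← hz] at b0 b1 hk ⊢
      refine ⟨?_, ?_, ?_⟩
      · unfold Rc.W
        simp only [if_true]
        omega
      · unfold Rc.E
        simp only [if_true]
        exact LRE_subset_RE.trans (RE_subset (by omega) (by omega) (by omega) (by omega))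
      · unfold Rc.E
        simp only [if_true]
        rw [disjoint_left]
        rintro ⟨x, y, _ | _⟩ h1 h2
        · rw [mem_LRE_false] at h1 h2
          omega
        · rw [mem_LRE_true] at h1 h2
          omega
    · have b1 := mul_bd hs hk2
      have b2 := mul_bd hs hk6
      push_cast at b1 b2
      obtain ⟨z, hz⟩ : ∃ z : ℤ, z = (k:ℤ) * s := ⟨_, rfl⟩
      rw [← hz] at b1 b2 ⊢
      refine ⟨?_, ?_, ?_⟩
      · unfold Rc.W
        simp only [if_true]
        omega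
      · unfold Rc.E
        simp only [if_true]
        exact LRE_subset_RE.trans (RE_subset (by omega) (by omega) (by omega) (by omega))
      · unfold Rc.E
        simp only [if_true]
        rw [disjoint_left]
        rintro ⟨x, y, _ | _⟩ h1 h2
        · rw [mem_LRE_false] at h1 h2
          omega
        · rw [mem_LRE_true] at h1 h2
          omega
    · have b0 : 0 ≤ (j:ℤ) * s := by positivity
      have b1 : (j:ℤ) * s + s ≤ s ∨ 2 * s ≤ (j:ℤ) * s := by
        rcases (by omega : j ≤ 0 ∨ 2 ≤ j) with h | h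
        · left
          have := mul_bd hs h
          push_cast at this
          omega
        · right
          have := mul_bd hs h
          push_cast at this
          omega
      obtain ⟨z, hz⟩ : ∃ z : ℤ, z = (j:ℤ) * s := ⟨_, rfl⟩
      rw [← hz] at b0 b1 hj ⊢
      refine ⟨?_, ?_, ?_⟩
      · unfold Rc.W
        simp only [Bool.false_eq_true, if_false]
        omega
      · unfold Rc.E
        simp only [Bool.false_eq_true, if_false]
        exact TBE_subset_RE.trans (RE_subset (by omega) (by omega) (by omega) (by omega))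
      · unfold Rc.E
        simp only [Bool.false_eq_true, if_false]
        rw [disjoint_left]
        rintro ⟨x, y, _ | _⟩ h1 h2
        · rw [mem_TBE_false] at h1
          rw [mem_LRE_false] at h2
          omega
        · rw [mem_TBE_true] at h1
          rw [mem_LRE_true] at h2
          omega
  · rcases mem_I2 hq with rfl | rfl | rfl | rfl
    · refine ⟨?_, ?_, ?_⟩
      · unfold Rc.W
        simp only [Bool.false_eq_true, if_false]
        omega
      · unfold Rc.E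
        simp only [Bool.false_eq_true, if_false]
        exact TBE_subset_RE.trans (RE_subset (by omega) (by omega) (by omega) (by omega))
      · unfold Rc.E
        simp only [Bool.false_eq_true, if_false]
        rw [disjoint_left]
        rintro ⟨x, y, _ | _⟩ h1 h2
        · rw [mem_TBE_false] at h1
          rw [mem_LRE_false] at h2
          omega
        · rw [mem_TBE_true] at h1
          rw [mem_LRE_true] at h2
          omega
    · refine ⟨?_, ?_, ?_⟩
      · unfold Rc.W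
        simp only [Bool.false_eq_true, if_false]
        omega
      · unfold Rc.E
        simp only [Bool.false_eq_true, if_false]
        exact TBE_subset_RE.trans (RE_subset (by omega) (by omega) (by omega) (by omega))
      · unfold Rc.E
        simp only [Bool.false_eq_true, if_false]
        rw [disjoint_left]
        rintro ⟨x, y, _ | _⟩ h1 h2
        · rw [mem_TBE_false] at h1
          rw [mem_LRE_false] at h2
          omega
        · rw [mem_TBE_true] at h1
          rw [mem_LRE_true] at h2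
          omega
    · refine ⟨?_, ?_, ?_⟩
      · unfold Rc.W
        simp only [if_true]
        omega
      · unfold Rc.E
        simp only [if_true]
        exact LRE_subset_RE.trans (RE_subset (by omega) (by omega) (by omega) (by omega))
      · unfold Rc.E
        simp only [if_true]
        rw [disjoint_left]
        rintro ⟨x, y, _ | _⟩ h1 h2
        · rw [mem_LRE_false] at h1 h2
          omega
        · rw [mem_LRE_true] at h1 h2
          omega
    · refine ⟨?_, ?_, ?_⟩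
      · unfold Rc.W
        simp only [if_true]
        omega
      · unfold Rc.E
        simp only [if_true]
        exact LRE_subset_RE.trans (RE_subset (by omega) (by omega) (by omega) (by omega))
      · unfold Rc.E
        simp only [if_true]
        rw [disjoint_left]
        rintro ⟨x, y, _ | _⟩ h1 h2
        · rw [mem_LRE_false] at h1 h2
          omega
        · rw [mem_LRE_true] at h1 h2
          omega

/-- The probability that a strip is not crossed. -/
theorem pr_I1 (ha : 36 ≤ a) (has : 2 * a ≤ s) (hn : 9 * s ≤ n) {q : Rc} (hq : q ∈ I1 n s a) :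
    Real.exp (-(34 * (((n:ℝ) + 1) / ((s:ℝ) - 1) + 1))) ≤
      Pr (fun _ => (1/2:ℝ)) (RE 0 n 0 n) (fun F => ¬ q.X F) := by
  have hs : 0 < s := by omega
  have hs1 : (0:ℝ) < (s:ℝ) - 1 := by
    have : (1:ℝ) < s := by exact_mod_cast (by omega : (1:ℤ) < s)
    linarith
  have ha0 : (0:ℝ) ≤ a := by exact_mod_cast (by omega : (0:ℤ) ≤ a)
  have hsr : (0:ℝ) < s := by exact_mod_cast hs
  have hE := (adm ha has hn (mem_union_left (I2 s a) hq)).2.1
  have hle : ∀ u v : ℝ, u ≤ v → Real.exp (-(34 * (v / ((s:ℝ) - 1) + 1))) ≤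
      Real.exp (-(34 * (u / ((s:ℝ) - 1) + 1))) := by
    intro u v h
    apply Real.exp_le_exp.mpr
    have : u / ((s:ℝ) - 1) ≤ v / ((s:ℝ) - 1) := div_le_div_of_nonneg_right h hs1.le
    linarith
  rcases mem_I1 hs hq with ⟨k, hk, ⟨hk2, hk6⟩, rfl⟩ | ⟨k, hk, hk2, rfl⟩ | ⟨k, ⟨hk2, hk6⟩, rfl⟩ |
      ⟨j, hj, hj1, rfl⟩
  · unfold Rc.E at hE
    unfold Rc.X
    simp only [if_true] at hE ⊢
    have h := pr_not_LRc (a := (k:ℤ) * s) (b := k * s + s) (c := s + a + 1) (d := n) (by omega)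
      (by omega) hE
    refine le_trans ?_ h
    push_cast
    rw [show (k:ℝ) * s + s - k * s - 1 = s - 1 by ring]
    exact hle _ _ (by linarith)
  · unfold Rc.E at hE
    unfold Rc.X
    simp only [if_true] at hE ⊢
    have h := pr_not_LRc (a := (k:ℤ) * s) (b := k * s + s) (c := 0) (d := n) (by omega)
      (by omega) hE
    refine le_trans ?_ h
    push_cast
    rw [show (k:ℝ) * s + s - k * s - 1 = s - 1 by ring]
    exact hle _ _ (by linarith)
  · unfold Rc.E at hE
    unfold Rc.X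
    simp only [if_true] at hE ⊢
    have h := pr_not_LRc (a := (k:ℤ) * s) (b := k * s + s) (c := 0) (d := s - 1) (by omega)
      (by omega) hE
    refine le_trans ?_ h
    push_cast
    rw [show (k:ℝ) * s + s - k * s - 1 = s - 1 by ring]
    have hsn : (s:ℝ) ≤ n := by exact_mod_cast (by omega : s ≤ (n:ℤ))
    exact hle _ _ (by linarith)
  · unfold Rc.E at hE
    unfold Rc.X
    simp only [Bool.false_eq_true, if_false] at hE ⊢
    have h := pr_not_TBc (a := 0) (b := n) (c := (j:ℤ) * s) (d := j * s + s) (by omega)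
      (by omega) hE
    refine le_trans ?_ h
    push_cast
    rw [show (j:ℝ) * s + s - j * s - 1 = s - 1 by ring]
    exact hle _ _ (by linarith)

/-- The probability that a rectangle of the collar is not crossed. -/
theorem pr_I2 (ha : 36 ≤ a) (has : 2 * a ≤ s) (hn : 9 * s ≤ n) {q : Rc} (hq : q ∈ I2 s a) :
    Real.exp (-(34 * ((5 * (s:ℝ) + 2 * a + 1) / ((a:ℝ) - 1) + 1))) ≤
      Pr (fun _ => (1/2:ℝ)) (RE 0 n 0 n) (fun F => ¬ q.X F) := by
  have ha1 : (0:ℝ) < (a:ℝ) - 1 := by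
    have : (1:ℝ) < a := by exact_mod_cast (by omega : (1:ℤ) < a)
    linarith
  have hsr : 2 * (a:ℝ) ≤ s := by exact_mod_cast has
  have hE := (adm ha has hn (mem_union_right (I1 n s a) hq)).2.1
  have hle : ∀ u v : ℝ, u ≤ v → Real.exp (-(34 * (v / ((a:ℝ) - 1) + 1))) ≤
      Real.exp (-(34 * (u / ((a:ℝ) - 1) + 1))) := by
    intro u v h
    apply Real.exp_le_exp.mpr
    have : u / ((a:ℝ) - 1) ≤ v / ((a:ℝ) - 1) := div_le_div_of_nonneg_right h ha1.le
    linarith
  rcases mem_I2 hq with rfl | rfl | rfl | rfl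
  · unfold Rc.E at hE
    unfold Rc.X
    simp only [Bool.false_eq_true, if_false] at hE ⊢
    have h := pr_not_TBc (a := 2 * s - a) (b := 7 * s + a) (c := s + a) (d := s + 2 * a)
      (by omega) (by omega) hE
    refine le_trans ?_ h
    push_cast
    rw [show (s:ℝ) + 2 * a - (s + a) - 1 = a - 1 by ring]
    exact hle _ _ (by linarith)
  · unfold Rc.E at hE
    unfold Rc.X
    simp only [Bool.false_eq_true, if_false] at hE ⊢
    have h := pr_not_TBc (a := 2 * s - a) (b := 7 * s + a) (c := s - a) (d := s)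
      (by omega) (by omega) hE
    refine le_trans ?_ h
    push_cast
    rw [show (s:ℝ) - (s - a) - 1 = a - 1 by ring]
    exact hle _ _ (by linarith)
  · unfold Rc.E at hE
    unfold Rc.X
    simp only [if_true] at hE ⊢
    have h := pr_not_LRc (a := 2 * s - a) (b := 2 * s) (c := s - a) (d := s + 2 * a)
      (by omega) (by omega) hE
    refine le_trans ?_ h
    push_cast
    rw [show 2 * (s:ℝ) - (2 * s - a) - 1 = a - 1 by ring]
    exact hle _ _ (by linarith)
  · unfold Rc.E at hE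
    unfold Rc.X
    simp only [if_true] at hE ⊢
    have h := pr_not_LRc (a := 7 * s) (b := 7 * s + a) (c := s - a) (d := s + 2 * a)
      (by omega) (by omega) hE
    refine le_trans ?_ h
    push_cast
    rw [show 7 * (s:ℝ) + a - 7 * s - 1 = a - 1 by ring]
    exact hle _ _ (by linarith)

/-- The event. -/
def TT (n : ℕ) (s a : ℤ) (F : Finset Edg) : Prop :=
  LRc (2 * s) (7 * s) s (s + a) F ∧ ∀ q ∈ I1 n s a ∪ I2 s a, ¬ q.X F

/-- Independence. -/
theorem TT_eq (ha : 36 ≤ a) (has : 2 * a ≤ s) (hn : 9 * s ≤ n) :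
    Pr (fun _ => (1/2:ℝ)) (RE 0 n 0 n) (TT n s a) =
      Pr (fun _ => (1/2:ℝ)) (RE 0 n 0 n) (LRc (2 * s) (7 * s) s (s + a)) *
      Pr (fun _ => (1/2:ℝ)) (RE 0 n 0 n) (fun F => ∀ q ∈ I1 n s a ∪ I2 s a, ¬ q.X F) := by
  have hS1 : LRE (2 * s) (7 * s) s (s + a) ⊆ RE 0 n 0 n :=
    LRE_subset_RE.trans (RE_subset (by omega) (by omega) (by omega) (by omega))
  unfold TT
  refine Pr_indep (S := LRE (2 * s) (7 * s) s (s + a))
    (T := RE 0 n 0 n \ LRE (2 * s) (7 * s) s (s + a)) hS1 sdiff_subset disjoint_sdiff ?_ ?_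
  · intro F _
    exact LRc_local subset_rfl
  · intro F hF
    refine forall_congr' fun q => forall_congr' fun hq => not_congr ?_
    obtain ⟨-, hqS, hqd⟩ := adm ha has hn hq
    rw [q.local (S := q.E) subset_rfl,
      q.local (F := F ∩ (RE 0 n 0 n \ LRE (2 * s) (7 * s) s (s + a))) (S := q.E) subset_rfl]
    have e1 : F ∩ q.E = (F ∩ (RE 0 n 0 n \ LRE (2 * s) (7 * s) s (s + a))) ∩ q.E := by
      ext e
      simp only [mem_inter, mem_sdiff]
      constructor
      · rintro ⟨h1, h3⟩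
        exact ⟨⟨h1, hF h1, fun h4 => (disjoint_left.mp hqd h3 h4)⟩, h3⟩
      · rintro ⟨⟨h1, -⟩, h3⟩
        exact ⟨h1, h3⟩
    rw [e1]

/-- The probability of the event. -/
theorem pr_TT (ha : 36 ≤ a) (has : 2 * a ≤ s) (hn : 9 * s ≤ n) :
    Real.exp (-(1428 * ((s:ℝ) / a + ((n:ℝ) / s) ^ 2))) ≤
      Pr (fun _ => (1/2:ℝ)) (RE 0 n 0 n) (TT n s a) := by
  classical
  have hs : 0 < s := by omega
  have har : (36:ℝ) ≤ a := by exact_mod_cast ha
  have hsr : 2 * (a:ℝ) ≤ s := by exact_mod_cast has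
  have hnr : 9 * (s:ℝ) ≤ n := by exact_mod_cast hn
  have ha0 : (0:ℝ) < a := by linarith
  have hs0 : (0:ℝ) < s := by linarith
  rw [TT_eq ha has hn]
  obtain ⟨t1, ht1⟩ : ∃ t1 : ℝ, t1 = 34 * (((n:ℝ) + 1) / ((s:ℝ) - 1) + 1) := ⟨_, rfl⟩
  obtain ⟨t2, ht2⟩ : ∃ t2 : ℝ, t2 = 34 * ((5 * (s:ℝ) + 2 * a + 1) / ((a:ℝ) - 1) + 1) := ⟨_, rfl⟩
  obtain ⟨K, hK⟩ : ∃ K : ℝ, K = (n:ℝ) / s := ⟨_, rfl⟩
  obtain ⟨L, hL⟩ : ∃ L : ℝ, L = (s:ℝ) / a := ⟨_, rfl⟩
  have hK9 : 9 ≤ K := by rw [hK, le_div_iff₀ hs0]; exact hnr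
  have hL2 : 2 ≤ L := by rw [hL, le_div_iff₀ ha0]; exact hsr
  have hnK : (n:ℝ) = K * s := by rw [hK]; field_simp
  have hsL : (s:ℝ) = L * a := by rw [hL]; field_simp
  have b1 : t1 ≤ 102 * K := by
    have h1 : ((n:ℝ) + 1) / ((s:ℝ) - 1) ≤ 2 * K := by
      rw [div_le_iff₀ (by linarith), hnK]
      nlinarith
    rw [ht1]
    linarith
  have b2 : t2 ≤ 306 * L := by
    have h1 : (5 * (s:ℝ) + 2 * a + 1) / ((a:ℝ) - 1) ≤ 8 * L := by
      rw [div_le_iff₀ (by linarith), hsL]
      nlinarith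
    rw [ht2]
    linarith
  have t1p : 0 ≤ t1 := by
    rw [ht1]
    have : 0 ≤ ((n:ℝ) + 1) / ((s:ℝ) - 1) := div_nonneg (by linarith) (by linarith)
    linarith
  have t2p : 0 ≤ t2 := by
    rw [ht2]
    have : 0 ≤ (5 * (s:ℝ) + 2 * a + 1) / ((a:ℝ) - 1) := div_nonneg (by linarith) (by linarith)
    linarith
  have p1 : Real.exp (-(204 * L)) ≤
      Pr (fun _ => (1/2:ℝ)) (RE 0 n 0 n) (LRc (2 * s) (7 * s) s (s + a)) := by
    have hS1 : LRE (2 * s) (7 * s) s (s + a) ⊆ RE 0 n 0 n :=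
      LRE_subset_RE.trans (RE_subset (by omega) (by omega) (by omega) (by omega))
    rw [pr_LRc _ hS1]
    have h := hh_long (w := 7 * s - 2 * s) (h := s + a - s) (by omega) (by omega)
    refine le_trans ?_ h
    apply Real.exp_le_exp.mpr
    have e : (((7 * s - 2 * s : ℤ) : ℝ)) / ((s + a - s : ℤ) : ℝ) = 5 * L := by
      rw [hL]
      push_cast
      rw [show (s:ℝ) + a - s = a by ring, show 7 * (s:ℝ) - 2 * s = 5 * s by ring, mul_div_assoc]
    rw [e]
    linarith
  have p2 := fkg_neg (S := RE 0 n 0 n) (I1 n s a ∪ I2 s a) (fun q => q.X)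
    (fun q _ F G hFG _ hF => q.mono hFG hF)
    (fun q => (if q ∈ I1 n s a then t1 else 0) + (if q ∈ I2 s a then t2 else 0)) (by
      intro q hq
      rw [mem_union] at hq
      rcases hq with hq | hq
      · refine le_trans (Real.exp_le_exp.mpr ?_) (pr_I1 ha has hn hq)
        rw [← ht1, if_pos hq]
        have : 0 ≤ (if q ∈ I2 s a then t2 else 0) := by split_ifs <;> [exact t2p; exact le_rfl]
        linarith
      · refine le_trans (Real.exp_le_exp.mpr ?_) (pr_I2 ha has hn hq)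
        rw [← ht2, if_pos hq]
        have : 0 ≤ (if q ∈ I1 n s a then t1 else 0) := by split_ifs <;> [exact t1p; exact le_rfl]
        linarith)
  have hsum : ∑ q ∈ I1 n s a ∪ I2 s a, ((if q ∈ I1 n s a then t1 else 0) +
      (if q ∈ I2 s a then t2 else 0)) ≤ 1224 * L + 306 * K ^ 2 := by
    rw [sum_add_distrib, sum_ite_mem, sum_ite_mem, sum_const, sum_const, nsmul_eq_mul,
      nsmul_eq_mul]
    have c1 : (((I1 n s a ∪ I2 s a) ∩ I1 n s a).card : ℝ) ≤ 3 * K := by
      have h1 : (((I1 n s a ∪ I2 s a) ∩ I1 n s a).card : ℝ) ≤ (I1 n s a).card := by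
        exact_mod_cast card_le_card inter_subset_right
      have h2 := card_I1 (n := n) (a := a) hs
      rw [← hK] at h2
      linarith
    have c2 : (((I1 n s a ∪ I2 s a) ∩ I2 s a).card : ℝ) ≤ 4 := by
      have h1 : (((I1 n s a ∪ I2 s a) ∩ I2 s a).card : ℝ) ≤ (I2 s a).card := by
        exact_mod_cast card_le_card inter_subset_right
      exact h1.trans card_I2
    have d1 := mul_le_mul c1 b1 t1p (by linarith)
    have d2 := mul_le_mul c2 b2 t2p (by norm_num)
    nlinarith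
  have p3 := mul_le_mul p1 p2 (Real.exp_pos _).le ((Real.exp_pos _).le.trans p1)
  refine le_trans ?_ p3
  rw [← Real.exp_add, ← hK, ← hL]
  apply Real.exp_le_exp.mpr
  nlinarith [sq_nonneg K]

theorem card_REr {a b c d : ℤ} (hab : a ≤ b + 1) (hcd : c ≤ d + 1) :
    ((RE a b c d).card : ℝ) ≤ 2 * (((b:ℝ) + 1 - a) * ((d:ℝ) + 1 - c)) := by
  have h1 : (RE a b c d).card ≤
      ((Finset.Icc a b) ×ˢ ((Finset.Icc c d) ×ˢ (Finset.univ : Finset Bool))).card := by
    unfold RE
    exact card_filter_le _ _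
  rw [card_product, card_product, Int.card_Icc, Int.card_Icc, card_univ, Fintype.card_bool] at h1
  have h2 : ((RE a b c d).card : ℝ) ≤
      (((b + 1 - a).toNat * ((d + 1 - c).toNat * 2) : ℕ) : ℝ) := by exact_mod_cast h1
  have e1 : (((b + 1 - a).toNat : ℕ) : ℝ) = (b:ℝ) + 1 - a := by
    have : (((b + 1 - a).toNat : ℕ) : ℤ) = b + 1 - a := Int.toNat_of_nonneg (by omega)
    exact_mod_cast this
  have e2 : (((d + 1 - c).toNat : ℕ) : ℝ) = (d:ℝ) + 1 - c := by
    have : (((d + 1 - c).toNat : ℕ) : ℤ) = d + 1 - c := Int.toNat_of_nonneg (by omega)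
    exact_mod_cast this
  push_cast at h2
  rw [e1, e2] at h2
  linarith

/-- The expected number of two-arm pairs in the collar on the event. -/
theorem ex_ZZ {C : ℝ} (hC : 0 < C) (hU : TwoUp C (1/4)) (ha : 36 ≤ a) (has : 2 * a ≤ s)
    (hn : 9 * s ≤ n) :
    Ex (fun _ => (1/2:ℝ)) (RE 0 n 0 n) (fun F => ZZ n s a (a / 6 - 1) F * ind (TT n s a F)) ≤
      (224 * C / dd ^ 2) * (s * (a:ℝ) ^ (3/4 : ℝ)) *
        Pr (fun _ => (1/2:ℝ)) (RE 0 n 0 n) (TT n s a) := by
  classical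
  have hs : 0 < s := by omega
  have har : (36:ℝ) ≤ a := by exact_mod_cast ha
  have hsr : 2 * (a:ℝ) ≤ s := by exact_mod_cast has
  have ha0 : (0:ℝ) < a := by linarith
  have hs0 : (0:ℝ) < s := by linarith
  have hd := dd_pos
  obtain ⟨r, hr⟩ : ∃ r : ℤ, r = a / 6 - 1 := ⟨_, rfl⟩
  have hr5 : 5 ≤ r := by omega
  obtain ⟨P, hP⟩ : ∃ P : ℝ, P = Pr (fun _ => (1/2:ℝ)) (RE 0 n 0 n) (TT n s a) := ⟨_, rfl⟩
  have hP0 : 0 ≤ P := by rw [hP]; exact Pr_nonneg okl _ _
  have hS1 : LRE (2 * s) (7 * s) s (s + a) ⊆ RE 0 n 0 n :=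
    LRE_subset_RE.trans (RE_subset (by omega) (by omega) (by omega) (by omega))
  -- a single pair
  have h1 : ∀ e ∈ RE (2 * s - a) (7 * s + a + 1) (s - a) (s + 2 * a + 1), ∀ f, Inc (src e) f →
      Ex (fun _ => (1/2:ℝ)) (RE 0 n 0 n) (fun F => ind (Two (src e) f r (↑F)) *
        ind (TT n s a F)) ≤ (2 * C / dd ^ 2) * (a:ℝ) ^ (-(1/4) : ℝ) * P := by
    intro e he f hf
    have hin := src_in he
    unfold inR at hin
    have h2 := quasi (S := RE 0 n 0 n) (u := src e) (f := f) (r := r) hr5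
      (RE_subset (by omega) (by omega) (by omega) (by omega)) (a := 2 * s) (b := 7 * s) (c := s)
      (d := s + a) (by omega) (by omega) hS1 (I := I1 n s a ∪ I2 s a) (by
        intro q hq
        have := adm ha has hn hq
        rw [← hr] at this
        exact this)
    rw [← TT_eq ha has hn, ← hP] at h2
    have h3 : Pr (fun _ => (1/2:ℝ)) (RE 0 n 0 n) (fun F => Two (src e) f r (↑F)) ≤
        2 * C * (a:ℝ) ^ (-(1/4) : ℝ) := by
      rw [pr_two (by omega) (RE_subset (by omega) (by omega) (by omega) (by omega))]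
      refine (hU r (src e) f (by omega) hf).trans ?_
      have h4 : (a:ℝ) / 12 ≤ r := by
        have h5 : a ≤ 6 * r + 11 := by omega
        have h6 : (a:ℝ) ≤ 6 * r + 11 := by exact_mod_cast h5
        linarith
      have h7 : (r:ℝ) ^ (-(1/4) : ℝ) ≤ ((a:ℝ) / 12) ^ (-(1/4) : ℝ) :=
        Real.rpow_le_rpow_of_nonpos (by positivity) h4 (by norm_num)
      have h8 : ((a:ℝ) / 12) ^ (-(1/4) : ℝ) ≤ 2 * (a:ℝ) ^ (-(1/4) : ℝ) := by
        rw [Real.div_rpow ha0.le (by norm_num), div_eq_mul_inv, ← Real.rpow_neg (by norm_num),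
          mul_comm]
        apply mul_le_mul_of_nonneg_right _ (by positivity)
        have h9 : (12:ℝ) ^ (1/4 : ℝ) ≤ (16:ℝ) ^ (1/4 : ℝ) :=
          Real.rpow_le_rpow (by norm_num) (by norm_num) (by norm_num)
        have h10 : (16:ℝ) ^ (1/4 : ℝ) = 2 := by
          rw [show (16:ℝ) = 2 ^ (4:ℝ) by norm_num, ← Real.rpow_mul (by norm_num)]
          norm_num
        rw [neg_neg]
        linarith
      have h11 := h7.trans h8
      calc C * (r:ℝ) ^ (-(1/4) : ℝ) ≤ C * (2 * (a:ℝ) ^ (-(1/4) : ℝ)) :=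
            mul_le_mul_of_nonneg_left h11 hC.le
        _ = _ := by ring
    have h4 : Ex (fun _ => (1/2:ℝ)) (RE 0 n 0 n) (fun F => ind (Two (src e) f r (↑F)) *
        ind (TT n s a F)) = Pr (fun _ => (1/2:ℝ)) (RE 0 n 0 n) (fun F =>
          Two (src e) f r (↑F) ∧ (LRc (2 * s) (7 * s) s (s + a) F ∧
            ∀ q ∈ I1 n s a ∪ I2 s a, ¬ q.X F)) := by
      unfold Pr
      apply Ex_congr
      intro F _
      rw [ind_and]
      rfl
    rw [h4]
    have h5 : dd ^ 2 * Pr (fun _ => (1/2:ℝ)) (RE 0 n 0 n) (fun F =>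
          Two (src e) f r (↑F) ∧ (LRc (2 * s) (7 * s) s (s + a) F ∧
            ∀ q ∈ I1 n s a ∪ I2 s a, ¬ q.X F)) ≤ 2 * C * (a:ℝ) ^ (-(1/4) : ℝ) * P :=
      h2.trans (mul_le_mul_of_nonneg_right h3 hP0)
    have h6 : (2 * C / dd ^ 2) * (a:ℝ) ^ (-(1/4) : ℝ) * P =
        (2 * C * (a:ℝ) ^ (-(1/4) : ℝ) * P) / dd ^ 2 := by ring
    rw [h6, le_div_iff₀ (by positivity), mul_comm]
    exact h5
  have h2 : Ex (fun _ => (1/2:ℝ)) (RE 0 n 0 n) (fun F => ZZ n s a r F * ind (TT n s a F)) ≤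
      ∑ e ∈ RE (2 * s - a) (7 * s + a + 1) (s - a) (s + 2 * a + 1),
        2 * ((2 * C / dd ^ 2) * (a:ℝ) ^ (-(1/4) : ℝ) * P) := by
    have e1 : Ex (fun _ => (1/2:ℝ)) (RE 0 n 0 n) (fun F => ZZ n s a r F * ind (TT n s a F)) =
        Ex (fun _ => (1/2:ℝ)) (RE 0 n 0 n) (fun F =>
          ∑ e ∈ RE (2 * s - a) (7 * s + a + 1) (s - a) (s + 2 * a + 1),
          (ind (Two (src e) (dsrc e) r (↑F)) * ind (TT n s a F) +
            ind (Two (src e) (dtgt e) r (↑F)) * ind (TT n s a F))) := by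
      apply Ex_congr
      intro F _
      unfold ZZ
      rw [sum_mul]
      apply sum_congr rfl
      intro e _
      ring
    rw [e1, Ex_sum]
    apply sum_le_sum
    intro e he
    rw [Ex_add]
    have g1 := h1 e he (dsrc e) (inc_dsrc e)
    have g2 := h1 e he (dtgt e) (inc_dtgt e)
    linarith
  rw [← hr]
  refine h2.trans ?_
  rw [sum_const, nsmul_eq_mul]
  have h3 := card_REr (a := 2 * s - a) (b := 7 * s + a + 1) (c := s - a) (d := s + 2 * a + 1)
    (by omega) (by omega)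
  push_cast at h3
  have h4 : 2 * ((7 * (s:ℝ) + a + 1 + 1 - (2 * s - a)) * (s + 2 * a + 1 + 1 - (s - a))) ≤
      56 * (s * a) := by
    have g1 : 7 * (s:ℝ) + a + 1 + 1 - (2 * s - a) ≤ 7 * s := by linarith
    have g2 : (s:ℝ) + 2 * a + 1 + 1 - (s - a) ≤ 4 * a := by linarith
    have := mul_le_mul g1 g2 (by linarith) (by positivity)
    linarith
  have h5 := h3.trans h4
  have hQ : 0 ≤ 2 * ((2 * C / dd ^ 2) * (a:ℝ) ^ (-(1/4) : ℝ) * P) := by positivity
  refine (mul_le_mul_of_nonneg_right h5 hQ).trans (le_of_eq ?_)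
  have e3 : (a:ℝ) ^ (3/4 : ℝ) = a * (a:ℝ) ^ (-(1/4) : ℝ) := by
    rw [show (3/4 : ℝ) = 1 + -(1/4) by norm_num, Real.rpow_add ha0, Real.rpow_one]
  rw [e3, ← hP]
  ring

/-- All largest clusters have a short outer perimeter. -/
def Sml (n : ℕ) (t : ℝ) (F : Finset Edg) : Prop :=
  ∀ v, IsMax n (↑F : Set Edg) v → (per n (↑F) v : ℝ) ≤ t

theorem tube {C : ℝ} (hC : 0 < C) (hU : TwoUp C (1/4)) (ha : 36 ≤ a) (has : 2 * a ≤ s)
    (hn : 9 * s ≤ n) :
    Real.exp (-(1429 * ((s:ℝ) / a + ((n:ℝ) / s) ^ 2))) ≤ Pr (fun _ => (1/2:ℝ)) (RE 0 n 0 n)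
      (Sml n ((448 * C / dd ^ 2) * (s * (a:ℝ) ^ (3/4 : ℝ)))) := by
  classical
  have hs : 0 < s := by omega
  have har : (36:ℝ) ≤ a := by exact_mod_cast ha
  have hsr : 2 * (a:ℝ) ≤ s := by exact_mod_cast has
  have hnr : 9 * (s:ℝ) ≤ n := by exact_mod_cast hn
  have ha0 : (0:ℝ) < a := by linarith
  have hs0 : (0:ℝ) < s := by linarith
  have hd := dd_pos
  obtain ⟨P, hP⟩ : ∃ P : ℝ, P = Pr (fun _ => (1/2:ℝ)) (RE 0 n 0 n) (TT n s a) := ⟨_, rfl⟩
  have hP1 := pr_TT ha has hn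
  rw [← hP] at hP1
  obtain ⟨M, hM⟩ : ∃ M : ℝ, M = (224 * C / dd ^ 2) * (s * (a:ℝ) ^ (3/4 : ℝ)) := ⟨_, rfl⟩
  have hM0 : 0 < M := by rw [hM]; positivity
  have hE := ex_ZZ (n := n) hC hU ha has hn
  rw [← hM, ← hP] at hE
  have e2 : (448 * C / dd ^ 2) * (s * (a:ℝ) ^ (3/4 : ℝ)) = 2 * M := by rw [hM]; ring
  rw [e2]
  -- Markov
  have hpt : ∀ F : Finset Edg, F ⊆ RE 0 n 0 n → ind (TT n s a F) ≤ ind (Sml n (2 * M) F) +
      (1 / (2 * M)) * (ZZ n s a (a / 6 - 1) F * ind (TT n s a F)) := by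
    intro F hF
    have hZ : 0 ≤ ZZ n s a (a / 6 - 1) F := by
      unfold ZZ
      exact sum_nonneg fun e _ => add_nonneg (ind_nonneg _) (ind_nonneg _)
    by_cases hT : TT n s a F
    · rw [ind_of hT, mul_one]
      by_cases hz : ZZ n s a (a / 6 - 1) F ≤ 2 * M
      · have h1 : Sml n (2 * M) F := fun v hv =>
          (largest hs (by omega) (by omega) has (by omega) hF hT.1 hT.2 hv).trans hz
        rw [ind_of h1]
        have : 0 ≤ (1 / (2 * M)) * ZZ n s a (a / 6 - 1) F := by positivity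
        linarith
      · push Not at hz
        have h1 := ind_nonneg (Sml n (2 * M) F)
        have h2 : 1 ≤ (1 / (2 * M)) * ZZ n s a (a / 6 - 1) F := by
          rw [one_div, inv_mul_eq_div, le_div_iff₀ (by positivity)]
          linarith
        linarith
    · rw [ind_not_of hT, mul_zero, mul_zero, add_zero]
      exact ind_nonneg _
  have h1 : P ≤ Pr (fun _ => (1/2:ℝ)) (RE 0 n 0 n) (Sml n (2 * M)) + 1 / (2 * M) * (M * P) := by
    have h2 := Ex_mono okl hpt
    rw [Ex_add, Ex_mul_left] at h2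
    have h3 : 1 / (2 * M) * Ex (fun _ => (1/2:ℝ)) (RE 0 n 0 n) (fun F =>
        ZZ n s a (a / 6 - 1) F * ind (TT n s a F)) ≤ 1 / (2 * M) * (M * P) :=
      mul_le_mul_of_nonneg_left hE (by positivity)
    rw [hP]
    rw [hP] at h3
    unfold Pr at h3 ⊢
    linarith
  have e3 : 1 / (2 * M) * (M * P) = P / 2 := by
    field_simp
  rw [e3] at h1
  have hK9 : 9 ≤ (n:ℝ) / s := by rw [le_div_iff₀ hs0]; exact hnr
  have hexp : 2 * Real.exp (-(1429 * ((s:ℝ) / a + ((n:ℝ) / s) ^ 2))) ≤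
      Real.exp (-(1428 * ((s:ℝ) / a + ((n:ℝ) / s) ^ 2))) := by
    have h2 : (2:ℝ) ≤ Real.exp ((s:ℝ) / a + ((n:ℝ) / s) ^ 2) := by
      have := Real.add_one_le_exp ((s:ℝ) / a + ((n:ℝ) / s) ^ 2)
      have h3 : 0 ≤ (s:ℝ) / a := by positivity
      nlinarith
    have h4 : Real.exp (-(1428 * ((s:ℝ) / a + ((n:ℝ) / s) ^ 2))) =
        Real.exp ((s:ℝ) / a + ((n:ℝ) / s) ^ 2) *
          Real.exp (-(1429 * ((s:ℝ) / a + ((n:ℝ) / s) ^ 2))) := by
      rw [← Real.exp_add]
      congr 1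
      ring
    rw [h4]
    exact mul_le_mul_of_nonneg_right h2 (Real.exp_pos _).le
  linarith

end

end Pool.Agent.W5h17.LT
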