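import Mathlib

/-!
The choice of the parameters.
-/

set_option autoImplicit false

namespace Pool.Agent.W5h17.LT

theorem mul_self_le {x y : ℝ} (hx : 0 ≤ x) (h : x ≤ y) : x ^ 2 ≤ y ^ 2 :=
  pow_le_pow_left₀ hx h 2

/-- The parameters of a tube of large width. -/
theorem regA {n : ℕ} {k v b C1 c43 L : ℝ} (hC1 : 2 ≤ C1) (hc43 : c43 = C1 ^ (4/3 : ℝ))
    (hk9 : 9 ≤ k) (hv0 : 0 < v) (hb : b = v ^ (4/3 : ℝ)) (hbG : 36 * c43 ≤ b)
    (hbn : b * k ^ 3 = n) (hLv : L = b * k ^ 2 * v) :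
    ∃ s a : ℤ, 36 ≤ a ∧ 2 * a ≤ s ∧ 9 * s ≤ n ∧ C1 * (s * (a:ℝ) ^ (3/4 : ℝ)) ≤ L ∧
      (s:ℝ) / a ≤ 2 * c43 * k ^ 2 ∧ ((n:ℝ) / s) ^ 2 ≤ 4 * k ^ 2 := by
  have hC10 : 0 < C1 := by linarith
  have hc431 : 1 ≤ c43 := by rw [hc43]; exact Real.one_le_rpow (by linarith) (by norm_num)
  have hc0 : 0 < c43 := by linarith
  have hk0 : 0 < k := by linarith
  have hb36 : 36 ≤ b := by linarith
  have hb0 : 0 < b := by linarith
  have hk81 : 81 ≤ k ^ 2 := by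
    have := mul_self_le (by norm_num) hk9
    norm_num at this
    exact this
  obtain ⟨u, hu⟩ : ∃ u : ℝ, u = b * k ^ 2 := ⟨_, rfl⟩
  have hub : 81 * b ≤ u := by
    rw [hu, mul_comm]
    exact mul_le_mul_of_nonneg_left hk81 hb0.le
  have hu0 : 0 < u := by linarith
  have huk : u * k = n := by rw [hu, ← hbn]; ring
  obtain ⟨s, hs⟩ : ∃ s : ℤ, s = ⌊u⌋ := ⟨_, rfl⟩
  have hs1 : (s:ℝ) ≤ u := by rw [hs]; exact Int.floor_le _
  have hs2 : u < s + 1 := by rw [hs]; exact Int.lt_floor_add_one _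
  have hs3 : u ≤ 2 * s := by linarith
  have hs0 : (0:ℝ) < s := by linarith
  have h9s : 9 * s ≤ n := by
    have h1 : u * 9 ≤ u * k := mul_le_mul_of_nonneg_left hk9 hu0.le
    have : 9 * (s:ℝ) ≤ n := by linarith
    exact_mod_cast this
  obtain ⟨w, hw⟩ : ∃ w : ℝ, w = L / (C1 * s) := ⟨_, rfl⟩
  have hL0 : 0 < L := by rw [hLv]; positivity
  have hCs : 0 < C1 * s := by positivity
  have hw0 : 0 < w := by rw [hw]; positivity
  have hw1 : v / C1 ≤ w := by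
    rw [hw, hLv, ← hu, div_le_div_iff₀ hC10 hCs]
    have h1 : v * C1 * s ≤ v * C1 * u := mul_le_mul_of_nonneg_left hs1 (by positivity)
    linarith
  have hw2 : w ≤ v := by
    rw [hw, hLv, ← hu, div_le_iff₀ hCs]
    have h1 : 2 * s ≤ C1 * s := mul_le_mul_of_nonneg_right hC1 hs0.le
    have h2 : v * u ≤ v * (C1 * s) := mul_le_mul_of_nonneg_left (by linarith) hv0.le
    linarith
  obtain ⟨m, hm⟩ : ∃ m : ℝ, m = w ^ (4/3 : ℝ) := ⟨_, rfl⟩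
  have hm1 : b / c43 ≤ m := by
    rw [hb, hc43, hm, ← Real.div_rpow hv0.le hC10.le]
    exact Real.rpow_le_rpow (by positivity) hw1 (by norm_num)
  have hm2 : m ≤ b := by
    rw [hb, hm]
    exact Real.rpow_le_rpow hw0.le hw2 (by norm_num)
  have hm36 : 36 ≤ m := by
    refine le_trans ?_ hm1
    rw [le_div_iff₀ hc0]
    exact hbG
  obtain ⟨a, ha⟩ : ∃ a : ℤ, a = ⌊m⌋ := ⟨_, rfl⟩
  have ha1 : (a:ℝ) ≤ m := by rw [ha]; exact Int.floor_le _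
  have ha2 : m < a + 1 := by rw [ha]; exact Int.lt_floor_add_one _
  have ha36 : 36 ≤ a := by
    rw [ha, Int.le_floor]
    exact_mod_cast hm36
  have har : (36:ℝ) ≤ a := by exact_mod_cast ha36
  have ha0 : (0:ℝ) < a := by linarith
  refine ⟨s, a, ha36, ?_, h9s, ?_, ?_, ?_⟩
  · have : 2 * (a:ℝ) ≤ s := by linarith
    exact_mod_cast this
  · have h1 : (a:ℝ) ^ (3/4 : ℝ) ≤ w := by
      have h2 : (a:ℝ) ^ (3/4 : ℝ) ≤ m ^ (3/4 : ℝ) :=
        Real.rpow_le_rpow ha0.le ha1 (by norm_num)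
      have h3 : m ^ (3/4 : ℝ) = w := by
        rw [hm, ← Real.rpow_mul hw0.le]
        norm_num
      linarith
    have h4 : C1 * s * w = L := by
      rw [hw]
      field_simp
    calc C1 * (s * (a:ℝ) ^ (3/4 : ℝ)) ≤ C1 * (s * w) :=
          mul_le_mul_of_nonneg_left (mul_le_mul_of_nonneg_left h1 hs0.le) hC10.le
      _ = L := by rw [← h4]; ring
  · have h2 : b / c43 ≤ 2 * a := by linarith
    rw [div_le_iff₀ hc0] at h2
    rw [div_le_iff₀ ha0]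
    have h3 : b * k ^ 2 ≤ (2 * a * c43) * k ^ 2 := mul_le_mul_of_nonneg_right h2 (by positivity)
    rw [← hu] at h3
    linarith
  · have h1 : (n:ℝ) / s ≤ 2 * k := by
      rw [div_le_iff₀ hs0, ← huk]
      have := mul_le_mul_of_nonneg_right hs3 hk0.le
      linarith
    have h2 : 0 ≤ (n:ℝ) / s := by positivity
    have h3 := mul_self_le h2 h1
    have h4 : (2 * k) ^ 2 = 4 * k ^ 2 := by ring
    linarith

/-- The parameters of a tube of bounded width. -/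
theorem regB {n : ℕ} {k v b C1 c43 L G g : ℝ} (hg : g = (36:ℝ) ^ (3/4 : ℝ)) (hG : G = g * C1)
    (hG2 : 2 ≤ G) (hk9 : 9 ≤ k) (hb0 : 0 < b) (_hv0 : 0 < v) (hvG : v ≤ G) (hbG : b ≤ 36 * c43)
    (hbn : b * k ^ 3 = n) (hLv : L = b * k ^ 2 * v) (hLG : 73 * G ≤ L) :
    ∃ s : ℤ, 72 ≤ s ∧ 9 * s ≤ n ∧ C1 * (s * ((36:ℤ):ℝ) ^ (3/4 : ℝ)) ≤ L ∧
      (s:ℝ) / ((36:ℤ):ℝ) ≤ 36 * c43 * k ^ 2 ∧
      ((n:ℝ) / s) ^ 2 ≤ 4 * G ^ 2 * ((n:ℝ) ^ 2 / L ^ 2) := by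
  have hG0 : 0 < G := by linarith
  have hk0 : 0 < k := by linarith
  have hL0 : 0 < L := by linarith
  have hn0 : (0:ℝ) ≤ n := Nat.cast_nonneg n
  obtain ⟨s, hs⟩ : ∃ s : ℤ, s = ⌊L / G⌋ := ⟨_, rfl⟩
  have hs1 : (s:ℝ) ≤ L / G := by rw [hs]; exact Int.floor_le _
  have hs2 : L / G < s + 1 := by rw [hs]; exact Int.lt_floor_add_one _
  have h73 : 73 ≤ L / G := by rw [le_div_iff₀ hG0]; exact hLG
  have hs3 : L / G ≤ 2 * s := by linarith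
  have hs72r : (72:ℝ) < s := by linarith
  have hs72 : 72 < s := by exact_mod_cast hs72r
  have hs0 : (0:ℝ) < s := by linarith
  have hbk : 0 < b * k ^ 2 := by positivity
  have hsu : (s:ℝ) ≤ b * k ^ 2 := by
    refine hs1.trans ?_
    rw [div_le_iff₀ hG0, hLv]
    exact mul_le_mul_of_nonneg_left hvG hbk.le
  refine ⟨s, hs72.le, ?_, ?_, ?_, ?_⟩
  · have h1 : b * k ^ 2 * 9 ≤ b * k ^ 2 * k := mul_le_mul_of_nonneg_left hk9 hbk.le
    have h2 : b * k ^ 2 * k = n := by rw [← hbn]; ring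
    have : 9 * (s:ℝ) ≤ n := by linarith
    exact_mod_cast this
  · have h1 : ((36:ℤ):ℝ) ^ (3/4 : ℝ) = g := by rw [hg]; norm_num
    rw [h1]
    have h2 : C1 * (s * g) = s * G := by rw [hG]; ring
    rw [h2]
    rwa [le_div_iff₀ hG0] at hs1
  · have h1 : (s:ℝ) / ((36:ℤ):ℝ) ≤ s := div_le_self hs0.le (by norm_num)
    have h2 : b * k ^ 2 ≤ 36 * c43 * k ^ 2 := mul_le_mul_of_nonneg_right hbG (by positivity)
    linarith
  · have h1 : (n:ℝ) / s ≤ 2 * G * n / L := by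
      rw [div_le_div_iff₀ hs0 hL0]
      have h2 : L ≤ 2 * s * G := by
        rwa [div_le_iff₀ hG0] at hs3
      have h3 : (n:ℝ) * L ≤ n * (2 * s * G) := mul_le_mul_of_nonneg_left h2 hn0
      linarith
    have h3 : 0 ≤ (n:ℝ) / s := by positivity
    have h4 := mul_self_le h3 h1
    have h5 : (2 * G * n / L) ^ 2 = 4 * G ^ 2 * ((n:ℝ) ^ 2 / L ^ 2) := by
      rw [div_pow]
      ring
    linarith

/-- The power identities. -/
theorem powers {n : ℕ} (hn : 1 ≤ n) {X k v b L : ℝ} (hX : 0 < X) (hk : k = X ^ (4/13 : ℝ))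
    (hv : v = (n:ℝ) ^ (3/4 : ℝ) * k ^ (-(9/4) : ℝ)) (hb : b = v ^ (4/3 : ℝ))
    (hL : L = (n:ℝ) ^ (7/4 : ℝ) / X) :
    X ^ (8/13 : ℝ) = k ^ 2 ∧ b * k ^ 3 = n ∧ L = b * k ^ 2 * v ∧
      X ^ 2 / (n:ℝ) ^ (3/2 : ℝ) = (n:ℝ) ^ 2 / L ^ 2 := by
  have hn0 : (0:ℝ) < n := by exact_mod_cast hn
  have hk0 : 0 < k := by rw [hk]; positivity
  have hk2 : X ^ (8/13 : ℝ) = k ^ 2 := by
    rw [hk, ← Real.rpow_natCast, ← Real.rpow_mul hX.le]
    norm_num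
  have hXk : X = k * k ^ (9/4 : ℝ) := by
    have h1 : X = k ^ (13/4 : ℝ) := by
      rw [hk, ← Real.rpow_mul hX.le]
      norm_num
    have h2 : k * k ^ (9/4 : ℝ) = k ^ (1:ℝ) * k ^ (9/4 : ℝ) := by rw [Real.rpow_one]
    rw [h2, ← Real.rpow_add hk0, show (1:ℝ) + 9/4 = 13/4 by norm_num]
    exact h1
  have hbn : b * k ^ 3 = n := by
    rw [hb, hv, Real.mul_rpow (by positivity) (by positivity), ← Real.rpow_mul hn0.le,
      ← Real.rpow_mul hk0.le]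
    have h1 : (3/4 : ℝ) * (4/3) = 1 := by norm_num
    have h2 : (-(9/4) : ℝ) * (4/3) = -3 := by norm_num
    rw [h1, h2, Real.rpow_one, Real.rpow_neg hk0.le]
    have h3 : k ^ (3:ℝ) = k ^ (3:ℕ) := by
      rw [← Real.rpow_natCast]
      norm_num
    rw [h3]
    field_simp
  refine ⟨hk2, hbn, ?_, ?_⟩
  · have h1 : (n:ℝ) ^ (7/4 : ℝ) = n * (n:ℝ) ^ (3/4 : ℝ) := by
      rw [show (7/4 : ℝ) = 1 + 3/4 by norm_num, Real.rpow_add hn0, Real.rpow_one]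
    have h3 : k ^ (9/4 : ℝ) ≠ 0 := by positivity
    have h2 : L = (n / k) * v := by
      rw [hL, h1, hv, Real.rpow_neg hk0.le]
      have h4 : (n:ℝ) * (n:ℝ) ^ (3/4 : ℝ) / X =
          (n:ℝ) * (n:ℝ) ^ (3/4 : ℝ) / (k * k ^ (9/4 : ℝ)) := by rw [← hXk]
      rw [h4]
      field_simp
    rw [h2, ← hbn]
    field_simp
  · have h1 : ((n:ℝ) ^ (7/4 : ℝ)) ^ 2 = n ^ 2 * (n:ℝ) ^ (3/2 : ℝ) := by
      rw [← Real.rpow_natCast, ← Real.rpow_natCast, ← Real.rpow_mul hn0.le,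
        ← Real.rpow_add hn0]
      norm_num
    rw [hL, div_pow, h1]
    have h2 : (n:ℝ) ^ (3/2 : ℝ) ≠ 0 := by positivity
    field_simp

end Pool.Agent.W5h17.LT
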