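import Pool.Agent.W5h17.LT.Low
import Pool.Agent.W5h17.LT.Reg

/-!
Lower bound for the probability that the outer perimeter of the largest cluster is short.
-/

set_option autoImplicit false

namespace Pool.Agent.W5h17.LT

open H974 Finset H342P H984P

theorem sml_mono {n : ℕ} {t t' : ℝ} (h : t ≤ t') :
    Pr (fun _ => (1/2:ℝ)) (RE 0 n 0 n) (Sml n t) ≤
      Pr (fun _ => (1/2:ℝ)) (RE 0 n 0 n) (Sml n t') :=
  Pr_mono okl fun _ _ hF v hv => (hF v hv).trans h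

theorem pr_notMem {S : Finset Edg} {e : Edg} (he : e ∈ S) :
    Pr (fun _ => (1/2:ℝ)) S (fun F => ¬ e ∈ F) = 1/2 := by
  rw [Pr_local (S' := {e}) (singleton_subset_iff.mpr he) (A := fun F => ¬ e ∈ F)
    (by intro F _; simp)]
  unfold Pr
  rw [← insert_empty_eq e, Ex_insert _ (notMem_empty e), Ex_empty, Ex_empty,
    ind_not_of (by simp), ind_of (by simp)]
  norm_num

theorem sml_empty {n : ℕ} (hn : 1 ≤ n) {t : ℝ} (ht : 0 ≤ t) :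
    Real.exp (-(8 * (n:ℝ) ^ 2)) ≤ Pr (fun _ => (1/2:ℝ)) (RE 0 n 0 n) (Sml n t) := by
  classical
  have hn1 : (1:ℝ) ≤ n := by exact_mod_cast hn
  have h1 := fkg_neg (S := RE 0 n 0 n) (RE 0 (n:ℤ) 0 n) (fun (e : Edg) F => e ∈ F)
    (fun e _ F G hFG _ hF => hFG hF) (fun _ => 1) (by
      intro e he
      rw [pr_notMem he]
      have h2 := Real.exp_one_gt_d9
      rw [Real.exp_neg, one_div]
      apply inv_anti₀ (by norm_num)
      linarith)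
  rw [sum_const, nsmul_eq_mul, mul_one] at h1
  have h3 := card_REr (a := 0) (b := (n:ℤ)) (c := 0) (d := (n:ℤ)) (by omega) (by omega)
  push_cast at h3
  refine le_trans (Real.exp_le_exp.mpr ?_) (h1.trans (Pr_mono okl ?_))
  · nlinarith
  · intro F hF h v hv
    have h4 : F = ∅ := by
      rw [eq_empty_iff_forall_notMem]
      intro e he
      exact h e (hF he) he
    have h5 : per n (↑F : Set Edg) v = 0 := by
      unfold per
      apply sum_eq_zero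
      intro e _
      rw [if_neg]
      unfold EC
      rw [h4]
      simp
    rw [h5]
    simpa using ht

theorem low_tail {C : ℝ} (hC : 0 < C) (hU : TwoUp C (1/4)) : ∃ K : ℝ, 0 < K ∧
    ∀ (n : ℕ) (X : ℝ), 1 ≤ n → 1 ≤ X → X ≤ (n:ℝ) ^ (7/4 : ℝ) →
      Real.exp (-(K * (X ^ (8/13 : ℝ) + X ^ 2 / (n:ℝ) ^ (3/2 : ℝ)))) ≤
        Pr (fun _ => (1/2:ℝ)) (RE 0 n 0 n) (Sml n ((n:ℝ) ^ (7/4 : ℝ) / X)) := by
  obtain ⟨C1, hC1⟩ : ∃ C1 : ℝ, C1 = max (448 * C / dd ^ 2) 2 := ⟨_, rfl⟩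
  have hC1a : 448 * C / dd ^ 2 ≤ C1 := by rw [hC1]; exact le_max_left _ _
  have hC1b : 2 ≤ C1 := by rw [hC1]; exact le_max_right _ _
  have hC10 : 0 < C1 := by linarith
  have htube : ∀ (n : ℕ) (s a : ℤ) (t : ℝ), 36 ≤ a → 2 * a ≤ s → 9 * s ≤ n →
      C1 * (s * (a:ℝ) ^ (3/4 : ℝ)) ≤ t →
      Real.exp (-(1429 * ((s:ℝ) / a + ((n:ℝ) / s) ^ 2))) ≤
        Pr (fun _ => (1/2:ℝ)) (RE 0 n 0 n) (Sml n t) := by
    intro n s a t ha has hn ht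
    refine (tube hC hU ha has hn).trans (sml_mono (le_trans ?_ ht))
    have ha0 : (0:ℝ) ≤ a := by exact_mod_cast (by omega : (0:ℤ) ≤ a)
    have hs0 : (0:ℝ) ≤ s := by exact_mod_cast (by omega : (0:ℤ) ≤ s)
    exact mul_le_mul_of_nonneg_right hC1a (by positivity)
  obtain ⟨g, hg⟩ : ∃ g : ℝ, g = (36:ℝ) ^ (3/4 : ℝ) := ⟨_, rfl⟩
  have hg1 : 1 ≤ g := by rw [hg]; exact Real.one_le_rpow (by norm_num) (by norm_num)
  have hg43 : g ^ (4/3 : ℝ) = 36 := by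
    rw [hg, ← Real.rpow_mul (by norm_num)]
    norm_num
  obtain ⟨G, hG⟩ : ∃ G : ℝ, G = g * C1 := ⟨_, rfl⟩
  have hG2 : 2 ≤ G := by rw [hG]; nlinarith
  have hG0 : 0 < G := by linarith
  obtain ⟨c43, hc43⟩ : ∃ c43 : ℝ, c43 = C1 ^ (4/3 : ℝ) := ⟨_, rfl⟩
  have hc431 : 1 ≤ c43 := by rw [hc43]; exact Real.one_le_rpow (by linarith) (by norm_num)
  have hG43 : G ^ (4/3 : ℝ) = 36 * c43 := by
    rw [hG, Real.mul_rpow (by linarith) hC10.le, hg43, hc43]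
  obtain ⟨K1, hK1⟩ : ∃ K1 : ℝ, K1 = 1429 * (2 * c43 + 4 + 36 * c43 + 4 * G ^ 2) +
    8 * (73 * G) ^ 2 := ⟨_, rfl⟩
  have hK10 : 0 < K1 := by rw [hK1]; positivity
  have hGG : 0 ≤ G ^ 2 := by positivity
  have hK1a : 1429 * (2 * c43 + 4) ≤ K1 := by
    rw [hK1]
    have : (73 * G) ^ 2 = 5329 * G ^ 2 := by ring
    linarith
  have hK1b : 1429 * (36 * c43) ≤ K1 := by
    rw [hK1]
    have : (73 * G) ^ 2 = 5329 * G ^ 2 := by ring
    linarith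
  have hK1c : 1429 * (4 * G ^ 2) ≤ K1 := by
    rw [hK1]
    have : (73 * G) ^ 2 = 5329 * G ^ 2 := by ring
    linarith
  have hK1d : 8 * (73 * G) ^ 2 ≤ K1 := by
    rw [hK1]
    linarith
  have hcore : ∀ (n : ℕ) (L k v b : ℝ), 1 ≤ n → 0 < L → 9 ≤ k → 0 < v → 0 < b →
      b = v ^ (4/3 : ℝ) → b * k ^ 3 = n → L = b * k ^ 2 * v →
      Real.exp (-(K1 * (k ^ 2 + (n:ℝ) ^ 2 / L ^ 2))) ≤
        Pr (fun _ => (1/2:ℝ)) (RE 0 n 0 n) (Sml n L) := by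
    intro n L k v b hn hL0 hk9 hv0 hb0 hb hbn hLuv
    have hnL : 0 ≤ (n:ℝ) ^ 2 / L ^ 2 := by positivity
    have hkk : 0 ≤ k ^ 2 := by positivity
    rcases le_or_gt G v with hcase | hcase
    · -- regime A
      have hbG : 36 * c43 ≤ b := by
        rw [hb, ← hG43]
        exact Real.rpow_le_rpow hG0.le hcase (by norm_num)
      obtain ⟨s, a, ha36, has, h9s, hcost, e1, e2⟩ := regA hC1b hc43 hk9 hv0 hb hbG hbn hLuv
      refine le_trans (Real.exp_le_exp.mpr ?_) (htube n s a L ha36 has h9s hcost)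
      have e5 : 1429 * (2 * c43 + 4) * k ^ 2 ≤ K1 * k ^ 2 :=
        mul_le_mul_of_nonneg_right hK1a hkk
      have e6 : 0 ≤ K1 * ((n:ℝ) ^ 2 / L ^ 2) := mul_nonneg hK10.le hnL
      linarith
    · -- regime B
      have hbG : b ≤ 36 * c43 := by
        rw [hb, ← hG43]
        exact Real.rpow_le_rpow hv0.le hcase.le (by norm_num)
      rcases le_or_gt (73 * G) L with hLG | hLG
      · obtain ⟨s, hs72, h9s, hcost, e1, e2⟩ :=
          regB hg hG hG2 hk9 hb0 hv0 hcase.le hbG hbn hLuv hLG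
        refine le_trans (Real.exp_le_exp.mpr ?_) (htube n s 36 L le_rfl (by omega) h9s hcost)
        have e6 : 1429 * (36 * c43) * k ^ 2 ≤ K1 * k ^ 2 :=
          mul_le_mul_of_nonneg_right hK1b hkk
        have e7 : 1429 * (4 * G ^ 2) * ((n:ℝ) ^ 2 / L ^ 2) ≤ K1 * ((n:ℝ) ^ 2 / L ^ 2) :=
          mul_le_mul_of_nonneg_right hK1c hnL
        linarith
      · refine le_trans (Real.exp_le_exp.mpr ?_) (sml_empty hn hL0.le)
        have e1 : (n:ℝ) ^ 2 ≤ (73 * G) ^ 2 * ((n:ℝ) ^ 2 / L ^ 2) := by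
          rw [mul_div_assoc', le_div_iff₀ (by positivity), mul_comm]
          apply mul_le_mul_of_nonneg_right _ (by positivity)
          exact mul_self_le hL0.le hLG.le
        have e7 : 8 * (73 * G) ^ 2 * ((n:ℝ) ^ 2 / L ^ 2) ≤ K1 * ((n:ℝ) ^ 2 / L ^ 2) :=
          mul_le_mul_of_nonneg_right hK1d hnL
        have e8 : 0 ≤ K1 * k ^ 2 := mul_nonneg hK10.le hkk
        linarith
  obtain ⟨X0, hX0⟩ : ∃ X0 : ℝ, X0 = (9:ℝ) ^ (13/4 : ℝ) := ⟨_, rfl⟩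
  have hX01 : 1 ≤ X0 := by rw [hX0]; exact Real.one_le_rpow (by norm_num) (by norm_num)
  have hX00 : 0 < X0 := by linarith
  -- the bound for large `X`
  have hmain : ∀ (n : ℕ) (X : ℝ), 1 ≤ n → X0 ≤ X → X ≤ (n:ℝ) ^ (7/4 : ℝ) →
      Real.exp (-(K1 * (X ^ (8/13 : ℝ) + X ^ 2 / (n:ℝ) ^ (3/2 : ℝ)))) ≤
        Pr (fun _ => (1/2:ℝ)) (RE 0 n 0 n) (Sml n ((n:ℝ) ^ (7/4 : ℝ) / X)) := by
    intro n X hn hX hXn
    have hXp : 0 < X := by linarith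
    obtain ⟨L, hL⟩ : ∃ L : ℝ, L = (n:ℝ) ^ (7/4 : ℝ) / X := ⟨_, rfl⟩
    have hL1 : 1 ≤ L := by rw [hL, le_div_iff₀ hXp, one_mul]; exact hXn
    have hL0 : 0 < L := by linarith
    rw [← hL]
    obtain ⟨k, hk⟩ : ∃ k : ℝ, k = X ^ (4/13 : ℝ) := ⟨_, rfl⟩
    have hk0 : 0 < k := by rw [hk]; positivity
    have hk9 : 9 ≤ k := by
      have h1 := Real.rpow_le_rpow (z := 4/13) hX00.le hX (by norm_num)
      rw [hX0, ← Real.rpow_mul (by norm_num), ← hk] at h1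
      norm_num at h1
      exact h1
    obtain ⟨v, hv⟩ : ∃ v : ℝ, v = (n:ℝ) ^ (3/4 : ℝ) * k ^ (-(9/4) : ℝ) := ⟨_, rfl⟩
    have hv0 : 0 < v := by
      have : (0:ℝ) < n := by exact_mod_cast hn
      rw [hv]
      positivity
    obtain ⟨b, hb⟩ : ∃ b : ℝ, b = v ^ (4/3 : ℝ) := ⟨_, rfl⟩
    have hb0 : 0 < b := by rw [hb]; positivity
    obtain ⟨hk2, hbn, hLuv, hXL⟩ := powers hn hXp hk hv hb hL
    rw [hk2, hXL]
    exact hcore n L k v b hn hL0 hk9 hv0 hb0 hb hbn hLuv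
  -- small `X`
  obtain ⟨K, hK⟩ : ∃ K : ℝ, K = K1 * (X0 ^ (8/13 : ℝ) + X0 ^ 2) + 8 * X0 ^ 2 := ⟨_, rfl⟩
  have hX0p : 1 ≤ X0 ^ (8/13 : ℝ) := Real.one_le_rpow hX01 (by norm_num)
  have hX02 : 0 ≤ X0 ^ 2 := by positivity
  have hKK : K1 ≤ K := by
    have h1 : K1 * 1 ≤ K1 * (X0 ^ (8/13 : ℝ) + X0 ^ 2) :=
      mul_le_mul_of_nonneg_left (by linarith) hK10.le
    rw [hK]
    linarith
  have hK0 : 0 ≤ K := by linarith
  have hKx : K1 * (X0 ^ (8/13 : ℝ) + X0 ^ 2) ≤ K := by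
    rw [hK]
    linarith
  have hKy : 8 * X0 ^ 2 ≤ K := by
    rw [hK]
    have : 0 ≤ K1 * (X0 ^ (8/13 : ℝ) + X0 ^ 2) := mul_nonneg hK10.le (by linarith)
    linarith
  refine ⟨K, by linarith, fun n X hn hX hXn => ?_⟩
  have hn1 : (1:ℝ) ≤ n := by exact_mod_cast hn
  have hn0 : (0:ℝ) < n := by linarith
  have hn32 : (1:ℝ) ≤ (n:ℝ) ^ (3/2 : ℝ) := Real.one_le_rpow hn1 (by norm_num)
  have hXp : 1 ≤ X ^ (8/13 : ℝ) := Real.one_le_rpow hX (by norm_num)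
  have hE : 1 ≤ X ^ (8/13 : ℝ) + X ^ 2 / (n:ℝ) ^ (3/2 : ℝ) := by
    have : 0 ≤ X ^ 2 / (n:ℝ) ^ (3/2 : ℝ) := by positivity
    linarith
  have hKE : K * 1 ≤ K * (X ^ (8/13 : ℝ) + X ^ 2 / (n:ℝ) ^ (3/2 : ℝ)) :=
    mul_le_mul_of_nonneg_left hE hK0
  rcases le_or_gt X0 X with h0 | h0
  · refine le_trans (Real.exp_le_exp.mpr ?_) (hmain n X hn h0 hXn)
    have := mul_le_mul_of_nonneg_right hKK (by linarith : 0 ≤ X ^ (8/13 : ℝ) +
      X ^ 2 / (n:ℝ) ^ (3/2 : ℝ))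
    linarith
  · rcases le_or_gt X0 ((n:ℝ) ^ (7/4 : ℝ)) with h1 | h1
    · have h2 := hmain n X0 hn le_rfl h1
      have h3 : (n:ℝ) ^ (7/4 : ℝ) / X0 ≤ (n:ℝ) ^ (7/4 : ℝ) / X :=
        div_le_div_of_nonneg_left (by positivity) (by linarith) h0.le
      refine le_trans (Real.exp_le_exp.mpr ?_) (h2.trans (sml_mono h3))
      have h4 : X0 ^ 2 / (n:ℝ) ^ (3/2 : ℝ) ≤ X0 ^ 2 := div_le_self hX02 hn32
      have h5 : K1 * (X0 ^ (8/13 : ℝ) + X0 ^ 2 / (n:ℝ) ^ (3/2 : ℝ)) ≤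
            K1 * (X0 ^ (8/13 : ℝ) + X0 ^ 2) :=
          mul_le_mul_of_nonneg_left (by linarith) hK10.le
      linarith
    · refine le_trans (Real.exp_le_exp.mpr ?_) (sml_empty hn (by positivity))
      have h2 : (n:ℝ) ^ 2 ≤ X0 ^ 2 := by
        apply mul_self_le hn0.le
        have : (n:ℝ) ^ (1:ℝ) ≤ (n:ℝ) ^ (7/4 : ℝ) :=
          Real.rpow_le_rpow_of_exponent_le hn1 (by norm_num)
        rw [Real.rpow_one] at this
        linarith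
      linarith

end Pool.Agent.W5h17.LT
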