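import Pool.Agent.W5h17.LT.Slow
import Mathlib.Dynamics.PeriodicPts.Defs

/-!
The outer perimeter of a large cluster of the box is the interface of a state, and this interface
has a piece of large extent with at most `8 * per` steps.
-/

set_option autoImplicit false

namespace Pool.Agent.W5h17.LT

open H974 Finset H342P H984P H984N

/-- The period of an interface is at most the number of pairs. -/
theorem period_le {n : ℕ} {F : Finset Edg} (hF : F ⊆ RE 0 n 0 n) {σ : St}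
    (hσ : inR 0 n 0 n σ.1) :
    Function.minimalPeriod (nxt (↑F : Set Edg)) σ ≤ nc4 σ (↑F) (Bx 0 0 n) := by
  classical
  rw [p16_nc4]
  have hinj := Function.iterate_injOn_Iio_minimalPeriod (f := nxt (↑F : Set Edg)) (x := σ)
  have h1 : ((range (Function.minimalPeriod (nxt (↑F : Set Edg)) σ)).image
      (fun s => orb (↑F : Set Edg) σ s)).card = Function.minimalPeriod (nxt (↑F : Set Edg)) σ := by
    rw [card_image_of_injOn, card_range]
    intro s hs t ht hst
    exact hinj (by simpa using hs) (by simpa using ht) hst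
  rw [← h1]
  apply card_le_card
  intro x hx
  rw [mem_image] at hx
  obtain ⟨s, -, rfl⟩ := hx
  rw [mem_filter, mem_product]
  refine ⟨⟨?_, mem_univ _⟩, pb_reach _ σ s, pb_dreach _ σ s⟩
  have h2 := orb_in hF hσ s
  unfold inR at h2
  unfold Bx
  rw [mem_product, mem_Icc, mem_Icc]
  omega

/-- The interface around a large cluster. -/
theorem per_orb {n : ℕ} {F : Finset Edg} (hF : F ⊆ RE 0 n 0 n) {m : ℤ} (hm0 : 0 < m)
    (hm : Big n m (↑F)) {v : Vtx} (hv : IsMax n (↑F) v) :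
    ∃ (σ : St) (l : ℕ), inR 0 n 0 n σ.1 ∧ 2 * m ≤ sd σ.1 (orb (↑F : Set Edg) σ l).1 ∧
      l ≤ 8 * per n (↑F) v := by
  classical
  obtain ⟨a, b, ha, hb, hmax⟩ := hv
  obtain ⟨c, d, hc, hd, hcd, h8⟩ := hm
  have h8' : 8 * m ^ 2 ≤ dsq a b := h8.trans (hmax c d hc hd hcd)
  have hab : 2 * m ≤ |a.1 - b.1| ∨ 2 * m ≤ |a.2 - b.2| := by
    by_contra hcon
    push Not at hcon
    obtain ⟨h3, h4⟩ := hcon
    unfold dsq at h8'
    have h5 : (a.1 - b.1) ^ 2 < (2 * m) ^ 2 := sq_lt_sq' (by linarith [(abs_lt.1 h3).1]) (abs_lt.1 h3).2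
    have h6 : (a.2 - b.2) ^ 2 < (2 * m) ^ 2 := sq_lt_sq' (by linarith [(abs_lt.1 h4).1]) (abs_lt.1 h4).2
    nlinarith
  have hane : a ≠ b := by
    rintro rfl
    simp only [sub_self, abs_zero] at hab
    omega
  -- every vertex of the cluster is in the box
  have hex : ∃ w, w ≠ v ∧ Reach (↑F : Set Edg) v w := by
    by_cases h3 : a = v
    · exact ⟨b, fun h4 => hane (h3.trans h4.symm), hb⟩
    · exact ⟨a, h3, ha⟩
  have hbox : ∀ w, Reach (↑F : Set Edg) v w → inR 0 n 0 n w := by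
    intro w hw
    by_cases h3 : v = w
    · subst h3
      obtain ⟨w', h4, h5⟩ := hex
      exact pb_box hF h5.symm h4
    · exact pb_box hF hw h3
  -- a leftmost vertex
  obtain ⟨vL, hvL, hleft⟩ : ∃ vL, Reach (↑F : Set Edg) v vL ∧
      ∀ w, Reach (↑F : Set Edg) v w → vL.1 ≤ w.1 := by
    have hne : ∃ k : ℕ, ∃ w, Reach (↑F : Set Edg) v w ∧ w.1 = k := by
      have h3 := hbox v (Reach.refl _ _)
      unfold inR at h3
      exact ⟨v.1.toNat, v, Reach.refl _ _, by omega⟩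
    obtain ⟨w, hw, hwk⟩ := Nat.find_spec hne
    refine ⟨w, hw, fun w' hw' => ?_⟩
    have h3 := hbox w' hw'
    unfold inR at h3
    have h4 : Nat.find hne ≤ w'.1.toNat := Nat.find_min' hne ⟨w', hw', by omega⟩
    omega
  obtain ⟨σ, hσ⟩ : ∃ σ : St, σ = (vL, .nw) := ⟨_, rfl⟩
  have hσ1 : σ.1 = vL := by rw [hσ]
  have hσ2 : σ.2 = .nw := by rw [hσ]
  have hleft' : ∀ w, Reach (↑F : Set Edg) σ.1 w → σ.1.1 ≤ w.1 := by
    intro w hw
    rw [hσ1] at hw ⊢
    exact hleft w (hvL.trans hw)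
  have hextA := orb_extent (F := F) (σ := σ) hσ2 hleft' (by rw [hσ1]; exact hvL.symm.trans ha)
  have hextB := orb_extent (F := F) (σ := σ) hσ2 hleft' (by rw [hσ1]; exact hvL.symm.trans hb)
  have hvLbox := hbox vL hvL
  have hσbox : inR 0 n 0 n σ.1 := by rw [hσ1]; exact hvLbox
  -- two far apart states
  obtain ⟨t1, t2, hfar⟩ : ∃ t1 t2 : ℕ,
      2 * m ≤ sd (orb (↑F : Set Edg) σ t1).1 (orb (↑F : Set Edg) σ t2).1 := by
    obtain ⟨⟨ta, hta⟩, ⟨ta2, hta2⟩, ⟨ta3, hta3⟩⟩ := hextA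
    obtain ⟨⟨tb, htb⟩, ⟨tb2, htb2⟩, ⟨tb3, htb3⟩⟩ := hextB
    have hla := hleft a ha
    have hlb := hleft b hb
    have h0 : (orb (↑F : Set Edg) σ 0).1.1 = vL.1 := by rw [orb_zero, hσ1]
    rcases hab with h3 | h3
    · rcases abs_cases (a.1 - b.1) with ⟨h4, h5⟩ | ⟨h4, h5⟩
      · refine ⟨ta, 0, ?_⟩
        rw [det_sd_eq]
        omega
      · refine ⟨tb, 0, ?_⟩
        rw [det_sd_eq]
        omega
    · rcases abs_cases (a.2 - b.2) with ⟨h4, h5⟩ | ⟨h4, h5⟩
      · refine ⟨ta2, tb3, ?_⟩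
        rw [det_sd_eq]
        omega
      · refine ⟨tb2, ta3, ?_⟩
        rw [det_sd_eq]
        omega
  -- the period
  obtain ⟨p, hp⟩ : ∃ p, p = Function.minimalPeriod (nxt (↑F : Set Edg)) σ := ⟨_, rfl⟩
  have hp0 : 0 < p := by
    obtain ⟨k, hk, hk2⟩ := pb_period (n := n) (F := (↑F : Set Edg)) (σ := σ) (orb_in hF hσbox)
    rw [hp]
    exact Function.IsPeriodicPt.minimalPeriod_pos hk hk2
  have hmod : ∀ t, orb (↑F : Set Edg) σ (t % p) = orb (↑F : Set Edg) σ t := by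
    intro t
    unfold orb
    rw [hp]
    exact Function.iterate_mod_minimalPeriod_eq
  rw [← hmod t1, ← hmod t2] at hfar
  have hl1 : t1 % p < p := Nat.mod_lt _ hp0
  have hl2 : t2 % p < p := Nat.mod_lt _ hp0
  generalize t1 % p = s1 at hfar hl1
  generalize t2 % p = s2 at hfar hl2
  -- the perimeter
  have hout := outer_left hF (σ := σ) hσ2 hleft' (by rw [hσ1]; exact hvLbox.1.1)
    (by rw [hσ1]; exact hvLbox.2.1)
  have hEC : EC (↑F : Set Edg) v = EC (↑F) σ.1 := by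
    unfold EC
    rw [hσ1]
    ext e
    constructor
    · rintro ⟨he, h3⟩
      exact ⟨he, hvL.symm.trans h3⟩
    · rintro ⟨he, h3⟩
      exact ⟨he, hvL.trans h3⟩
  have hout' : Outer (↑F) v (face σ) := by
    unfold Outer at hout ⊢
    rw [hEC]
    exact hout
  have hfin := per_ge hF (v := v) (σ := σ) (by rw [hσ1]; exact hvL) hout' hex
  have hpn := period_le hF hσbox
  rw [← hp] at hpn
  rcases le_total s1 s2 with h | h
  · refine ⟨orb (↑F : Set Edg) σ s1, s2 - s1, orb_in hF hσbox s1, ?_, by omega⟩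
    rw [← orb_add, Nat.sub_add_cancel h]
    exact hfar
  · refine ⟨orb (↑F : Set Edg) σ s2, s1 - s2, orb_in hF hσbox s2, ?_, by omega⟩
    rw [← orb_add, Nat.sub_add_cancel h, det_sd_comm]
    exact hfar

/-- The number of steps is at least the extent. -/
theorem steps_ge (F : Set Edg) (σ : St) (l : ℕ) : sd σ.1 (orb F σ l).1 ≤ l := by
  induction l with
  | zero => rw [orb_zero, det_sd_self]; simp
  | succ l ih =>
    have h1 := det_sd_tri σ.1 (orb F σ l).1 (orb F σ (l + 1)).1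
    have h2 := orb_step F σ l
    push_cast
    omega

end Pool.Agent.W5h17.LT
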