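import Pool.Agent.W5h17.LT.Long
import Pool.Agent.H342R2.Per.Loc

/-!
Two arms at a vertex are nearly independent of an open crossing of a rectangle and of the absence
of crossings of other rectangles.
-/

set_option autoImplicit false

namespace Pool.Agent.W5h17.LT

open H974 Finset H342P

/-- A path either avoids the edges of `B` or reaches an edge of `B`. -/
theorem reach_avoid {G : Set Edg} {B : Finset Edg} {u v : Vtx} (h : Reach G u v) :
    Reach (G \ ↑B) u v ∨ ∃ e ∈ B, e ∈ G ∧ Reach G u (src e) := by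
  induction h with
  | refl => exact Or.inl (Reach.refl _ _)
  | @tail w w' hw hs ih =>
    rcases ih with ih | ih
    · have hs' := hs
      obtain ⟨e, he, hcase⟩ := hs
      by_cases heB : e ∈ B
      · right
        refine ⟨e, heB, he, ?_⟩
        rcases hcase with ⟨h1, -⟩ | ⟨h1, -⟩
        · rw [h1]; exact hw
        · rw [h1]; exact hw.tail hs'
      · left
        exact ih.tail ⟨e, ⟨he, fun h => heB (mem_coe.mp h)⟩, hcase⟩
    · exact Or.inr ih

theorem dreach_avoid {G : Set Edg} {B : Finset Edg} {u v : Vtx} (h : DReach G u v) :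
    DReach (G \ ↑B) u v ∨ ∃ e ∈ B, e ∈ G ∧ DReach G u (dsrc e) := by
  induction h with
  | refl => exact Or.inl (DReach.refl _ _)
  | @tail w w' hw hs ih =>
    rcases ih with ih | ih
    · have hs' := hs
      obtain ⟨e, he, hcase⟩ := hs
      by_cases heB : e ∈ B
      · right
        refine ⟨e, heB, he, ?_⟩
        rcases hcase with ⟨h1, -⟩ | ⟨h1, -⟩
        · rw [h1]; exact hw
        · rw [h1]; exact hw.tail hs'
      · left
        exact ih.tail ⟨e, ⟨he, fun h => heB (mem_coe.mp h)⟩, hcase⟩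
    · exact Or.inr ih

theorem src_in {a b c d : ℤ} {e : Edg} (h : e ∈ RE a b c d) : inR a b c d (src e) := by
  obtain ⟨x, y, _ | _⟩ := e
  · rw [mem_RE_false] at h
    simp only [inR, src_mk]
    omega
  · rw [mem_RE_true] at h
    simp only [inR, src_mk]
    omega

theorem dsrc_in {a b c d : ℤ} {e : Edg} (h : e ∈ RE a b c d) : inR (a - 1) b (c - 1) d (dsrc e) := by
  obtain ⟨x, y, _ | _⟩ := e
  · rw [mem_RE_false] at h
    simp only [inR, dsrc_false]
    omega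
  · rw [mem_RE_true] at h
    simp only [inR, dsrc_true]
    omega

/-- The open crossing survives if the edges of `B` are closed and there is a circuit. -/
theorem open_restore {a b c d c1 c2 r R : ℤ} (hr : 0 ≤ r) (hrR : r + 1 < R) (hab : a ≤ b)
    (hcd : c + 2 * R ≤ d) {F B : Finset Edg}
    (hB : B ⊆ RE (c1 - r) (c1 + r) (c2 - r) (c2 + r)) (h : LRc a b c d (F ∪ B))
    (hc : Cir4 c1 c2 (r + 1) R F) : LRc a b c d F := by
  by_contra hno
  obtain ⟨W, hW⟩ : ∃ W : Vtx → Prop, W = fun v => ∃ y, (c ≤ y ∧ y ≤ d) ∧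
    Reach (↑F ∩ ↑(LRE a b c d)) (a, y) v := ⟨_, rfl⟩
  have hL : ∀ y, c ≤ y → y ≤ d → W (a, y) := fun y h3 h4 => by
    rw [hW]; exact ⟨y, ⟨h3, h4⟩, Reach.refl _ _⟩
  have hR : ∀ y, c ≤ y → y ≤ d → ¬ W (b, y) := by
    intro y h3 h4 h5
    rw [hW] at h5
    obtain ⟨y0, h6, h7⟩ := h5
    exact hno ⟨y0, y, h6, ⟨h3, h4⟩, h7⟩
  obtain ⟨x, x', hx, hx', hd⟩ := dual_crossing hab (by omega) W hL hR
  have hd2 : DReach ((↑F : Set Edg)ᶜ ∩ ↑(LRE a b c d)) (x, c - 1) (x', d) := by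
    refine hd.mono ?_
    rintro e ⟨he1, he2⟩
    refine ⟨?_, he2⟩
    intro heF
    apply he1
    rw [hW]
    constructor
    · rintro ⟨y, h3, h4⟩
      exact ⟨y, h3, h4.trans (Adj.reach ⟨e, ⟨heF, he2⟩, Or.inl ⟨rfl, rfl⟩⟩)⟩
    · rintro ⟨y, h3, h4⟩
      exact ⟨y, h3, h4.trans (Adj.reach ⟨e, ⟨heF, he2⟩, Or.inr ⟨rfl, rfl⟩⟩)⟩
  rcases dreach_avoid (B := B) hd2 with h1 | ⟨e, heB, -, h1⟩
  · obtain ⟨y, y', hy, hy', hp⟩ := h
    refine no_both (F := (↑(F ∪ B) : Set Edg)) (by omega) hy' hx hp (h1.mono ?_)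
    rintro e ⟨⟨h2, h3⟩, h4⟩
    refine ⟨?_, h3⟩
    rw [coe_union]
    rintro (h5 | h5)
    · exact h2 h5
    · exact h4 h5
  · have hin := dsrc_in (hB heB)
    have hin' : inR (c1 - (r + 1)) (c1 + (r + 1) - 1) (c2 - (r + 1)) (c2 + (r + 1) - 1)
        (dsrc e) := by
      unfold inR at hin ⊢
      omega
    have g1 : DReach (↑F : Set Edg)ᶜ (dsrc e) (x, c - 1) := h1.symm.mono Set.inter_subset_left
    have g2 : DReach (↑F : Set Edg)ᶜ (dsrc e) (x', d) := g1.trans (hd2.mono Set.inter_subset_left)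
    have k1 := cir_stop (by omega) hrR hc hin' g1
    have k2 := cir_stop (by omega) hrR hc hin' g2
    simp only at k1 k2
    omega

theorem closed_LR {a b c d c1 c2 r R : ℤ} (hr : 0 ≤ r) (hrR : r < R) (hab : a + 2 * R ≤ b)
    {F B : Finset Edg} (hB : B ⊆ RE (c1 - r) (c1 + r) (c2 - r) (c2 + r))
    (h : ¬ LRc a b c d (F \ B)) (hb : Blk4 c1 c2 r R F) : ¬ LRc a b c d F := by
  rintro ⟨y, y', hy, hy', hp⟩
  rcases reach_avoid (B := B) hp with h1 | ⟨e, heB, -, h1⟩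
  · apply h
    refine ⟨y, y', hy, hy', h1.mono ?_⟩
    rintro e ⟨⟨h2, h3⟩, h4⟩
    rw [coe_sdiff]
    exact ⟨⟨h2, h4⟩, h3⟩
  · have hin := src_in (hB heB)
    have g1 : Reach (↑F : Set Edg) (src e) (a, y) := h1.symm.mono Set.inter_subset_left
    have g2 : Reach (↑F : Set Edg) (src e) (b, y') := g1.trans (hp.mono Set.inter_subset_left)
    have k1 := blk_stop hr hrR hb hin g1
    have k2 := blk_stop hr hrR hb hin g2
    simp only at k1 k2
    omega

theorem closed_TB {a b c d c1 c2 r R : ℤ} (hr : 0 ≤ r) (hrR : r < R) (hcd : c + 2 * R ≤ d)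
    {F B : Finset Edg} (hB : B ⊆ RE (c1 - r) (c1 + r) (c2 - r) (c2 + r))
    (h : ¬ TBc a b c d (F \ B)) (hb : Blk4 c1 c2 r R F) : ¬ TBc a b c d F := by
  rintro ⟨y, y', hy, hy', hp⟩
  rcases reach_avoid (B := B) hp with h1 | ⟨e, heB, -, h1⟩
  · apply h
    refine ⟨y, y', hy, hy', h1.mono ?_⟩
    rintro e ⟨⟨h2, h3⟩, h4⟩
    rw [coe_sdiff]
    exact ⟨⟨h2, h4⟩, h3⟩
  · have hin := src_in (hB heB)
    have g1 : Reach (↑F : Set Edg) (src e) (y, c) := h1.symm.mono Set.inter_subset_left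
    have g2 : Reach (↑F : Set Edg) (src e) (y', d) := g1.trans (hp.mono Set.inter_subset_left)
    have k1 := blk_stop hr hrR hb hin g1
    have k2 := blk_stop hr hrR hb hin g2
    simp only at k1 k2
    omega

/-- A rectangle with a direction. -/
structure Rc where
  o : Bool
  a : ℤ
  b : ℤ
  c : ℤ
  d : ℤ
  deriving DecidableEq

/-- The crossing. -/
def Rc.X (q : Rc) (F : Finset Edg) : Prop :=
  if q.o = true then LRc q.a q.b q.c q.d F else TBc q.a q.b q.c q.d F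

/-- Its edges. -/
noncomputable def Rc.E (q : Rc) : Finset Edg :=
  if q.o = true then LRE q.a q.b q.c q.d else TBE q.a q.b q.c q.d

/-- It is not short. -/
def Rc.W (q : Rc) (R : ℤ) : Prop :=
  if q.o = true then q.a + 2 * R ≤ q.b else q.c + 2 * R ≤ q.d

theorem Rc.mono (q : Rc) {F G : Finset Edg} (h : F ⊆ G) (hF : q.X F) : q.X G := by
  unfold Rc.X at hF ⊢
  split_ifs at hF ⊢ with h1
  · exact hF.mono h
  · exact hF.mono h

theorem Rc.local (q : Rc) {F S : Finset Edg} (hS : q.E ⊆ S) : q.X F ↔ q.X (F ∩ S) := by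
  unfold Rc.X
  unfold Rc.E at hS
  split_ifs at hS ⊢ with h1
  · exact LRc_local hS
  · exact TBc_local hS

theorem closed_restore {c1 c2 r R : ℤ} (hr : 0 ≤ r) (hrR : r < R) {q : Rc} (hq : q.W R)
    {F B : Finset Edg} (hB : B ⊆ RE (c1 - r) (c1 + r) (c2 - r) (c2 + r))
    (h : ¬ q.X (F \ B)) (hb : Blk4 c1 c2 r R F) : ¬ q.X F := by
  unfold Rc.X at h ⊢
  unfold Rc.W at hq
  split_ifs at h hq ⊢ with h1
  · exact closed_LR hr hrR hq hB h hb
  · exact closed_TB hr hrR hq hB h hb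

/-- Two arms, an open crossing and no crossings of other rectangles. -/
theorem quasi {S : Finset Edg} {u f : Vtx} {r : ℤ} (hr : 5 ≤ r)
    (hS : RE (u.1 - 3 * (r + 1) - 1) (u.1 + 3 * (r + 1) + 1) (u.2 - 3 * (r + 1) - 1)
      (u.2 + 3 * (r + 1) + 1) ⊆ S) {a b c d : ℤ} (hab : a ≤ b) (hcd : c + 6 * (r + 1) ≤ d)
    (hS1 : LRE a b c d ⊆ S) {I : Finset Rc}
    (hI : ∀ q ∈ I, q.W (3 * r) ∧ q.E ⊆ S ∧ Disjoint q.E (LRE a b c d)) :
    dd ^ 2 * Pr (fun _ => (1/2:ℝ)) S (fun F => Two u f r (↑F) ∧ (LRc a b c d F ∧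
      ∀ q ∈ I, ¬ q.X F)) ≤ Pr (fun _ => (1/2:ℝ)) S (fun F => Two u f r (↑F)) *
      (Pr (fun _ => (1/2:ℝ)) S (LRc a b c d) *
        Pr (fun _ => (1/2:ℝ)) S (fun F => ∀ q ∈ I, ¬ q.X F)) := by
  classical
  obtain ⟨B, hB⟩ : ∃ B : Finset Edg, B = RE (u.1 - r) (u.1 + r) (u.2 - r) (u.2 + r) := ⟨_, rfl⟩
  have hBB : B ⊆ RE (u.1 - r) (u.1 + r) (u.2 - r) (u.2 + r) := by rw [hB]
  have hBS : B ⊆ S := by
    rw [hB]
    exact (RE_subset (by omega) (by omega) (by omega) (by omega)).trans hS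
  -- remove the edges of `B`
  have s1 : Pr (fun _ => (1/2:ℝ)) S (fun F => Two u f r (↑F) ∧ (LRc a b c d F ∧
      ∀ q ∈ I, ¬ q.X F)) ≤ Pr (fun _ => (1/2:ℝ)) S (fun F => Two u f r (↑F) ∧
      (LRc a b c d (F ∪ B) ∧ ∀ q ∈ I, ¬ q.X (F \ B))) := by
    apply Pr_mono okl
    rintro F _ ⟨h1, h2, h3⟩
    exact ⟨h1, h2.mono subset_union_left, fun q hq h4 => h3 q hq (q.mono sdiff_subset h4)⟩
  have s2 : Pr (fun _ => (1/2:ℝ)) S (fun F => Two u f r (↑F) ∧
      (LRc a b c d (F ∪ B) ∧ ∀ q ∈ I, ¬ q.X (F \ B))) =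
      Pr (fun _ => (1/2:ℝ)) S (fun F => Two u f r (↑F)) *
        Pr (fun _ => (1/2:ℝ)) S (fun F => LRc a b c d (F ∪ B) ∧ ∀ q ∈ I, ¬ q.X (F \ B)) := by
    refine Pr_indep (S := B) (T := S \ B) hBS sdiff_subset disjoint_sdiff ?_ ?_
    · intro F _
      exact two_inter (by omega) F (by rw [hB])
    · intro F hF
      have e1 : F ∪ B = F ∩ (S \ B) ∪ B := by
        ext e
        simp only [mem_union, mem_inter, mem_sdiff]
        constructor
        · rintro (h | h)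
          · by_cases h2 : e ∈ B
            · exact Or.inr h2
            · exact Or.inl ⟨h, hF h, h2⟩
          · exact Or.inr h
        · rintro (h | h)
          · exact Or.inl h.1
          · exact Or.inr h
      have e2 : F \ B = (F ∩ (S \ B)) \ B := by
        ext e
        simp only [mem_inter, mem_sdiff]
        constructor
        · rintro ⟨h, h2⟩
          exact ⟨⟨h, hF h, h2⟩, h2⟩
        · rintro ⟨⟨h, -⟩, h2⟩
          exact ⟨h, h2⟩
      rw [← e1, ← e2]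
  have s3 : Pr (fun _ => (1/2:ℝ)) S (fun F => LRc a b c d (F ∪ B) ∧ ∀ q ∈ I, ¬ q.X (F \ B)) =
      Pr (fun _ => (1/2:ℝ)) S (fun F => LRc a b c d (F ∪ B)) *
        Pr (fun _ => (1/2:ℝ)) S (fun F => ∀ q ∈ I, ¬ q.X (F \ B)) := by
    refine Pr_indep (S := LRE a b c d) (T := S \ LRE a b c d) hS1 sdiff_subset disjoint_sdiff
      ?_ ?_
    · intro F _
      rw [LRc_local (S := LRE a b c d) subset_rfl,
        LRc_local (F := F ∩ LRE a b c d ∪ B) (S := LRE a b c d) subset_rfl]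
      have e1 : (F ∪ B) ∩ LRE a b c d = (F ∩ LRE a b c d ∪ B) ∩ LRE a b c d := by
        ext e
        simp only [mem_union, mem_inter]
        tauto
      rw [e1]
    · intro F hF
      refine forall_congr' fun q => forall_congr' fun hq => not_congr ?_
      obtain ⟨-, hqS, hqd⟩ := hI q hq
      rw [q.local (S := q.E) subset_rfl,
        q.local (F := (F ∩ (S \ LRE a b c d)) \ B) (S := q.E) subset_rfl]
      have e1 : (F \ B) ∩ q.E = (F ∩ (S \ LRE a b c d)) \ B ∩ q.E := by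
        ext e
        simp only [mem_inter, mem_sdiff]
        constructor
        · rintro ⟨⟨h1, h2⟩, h3⟩
          exact ⟨⟨⟨h1, hF h1, fun h4 => (disjoint_left.mp hqd h3 h4)⟩, h2⟩, h3⟩
        · rintro ⟨⟨⟨h1, -⟩, h2⟩, h3⟩
          exact ⟨⟨h1, h2⟩, h3⟩
      rw [e1]
  -- restore
  have s4 : dd * Pr (fun _ => (1/2:ℝ)) S (fun F => LRc a b c d (F ∪ B)) ≤
      Pr (fun _ => (1/2:ℝ)) S (LRc a b c d) := by
    have h1 := pr_Cir4 (c1 := u.1) (c2 := u.2) (r := r + 1) (by omega) hS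
    have hA : IncrE S (fun F => LRc a b c d (F ∪ B)) :=
      fun F G hFG _ hF => hF.mono (union_subset_union_left hFG)
    have hC : IncrE S (Cir4 u.1 u.2 (r + 1) (3 * (r + 1))) := fun F G hFG _ hF => hF.mono hFG
    have h2 := Pr_harris okl hA hC
    have h3 : Pr (fun _ => (1/2:ℝ)) S (fun F => LRc a b c d (F ∪ B) ∧
        Cir4 u.1 u.2 (r + 1) (3 * (r + 1)) F) ≤ Pr (fun _ => (1/2:ℝ)) S (LRc a b c d) := by
      apply Pr_mono okl
      rintro F _ ⟨h3, h4⟩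
      exact open_restore (by omega) (by omega) hab (by omega) hBB h3 h4
    refine le_trans ?_ (h2.trans h3)
    rw [mul_comm]
    exact mul_le_mul_of_nonneg_left h1 (Pr_nonneg okl _ _)
  have s5 : dd * Pr (fun _ => (1/2:ℝ)) S (fun F => ∀ q ∈ I, ¬ q.X (F \ B)) ≤
      Pr (fun _ => (1/2:ℝ)) S (fun F => ∀ q ∈ I, ¬ q.X F) := by
    have h1 := pr_Blk4 (c1 := u.1) (c2 := u.2) (r := r) hr
      ((RE_subset (by omega) (by omega) (by omega) (by omega)).trans hS)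
    have hA : IncrE S (fun F => ∃ q ∈ I, q.X (F \ B)) := by
      rintro F G hFG _ ⟨q, hq, h2⟩
      exact ⟨q, hq, q.mono (sdiff_subset_sdiff hFG subset_rfl) h2⟩
    have hC : IncrE S (fun F => ¬ Blk4 u.1 u.2 r (3 * r) F) :=
      fun F G hFG _ hF hG => hF (hG.anti hFG)
    have h2 := Pr_harris_dd okl hA hC
    rw [← Pr_not, ← Pr_not] at h2
    have e1 : Pr (fun _ => (1/2:ℝ)) S (fun F => ¬ ∃ q ∈ I, q.X (F \ B)) =
        Pr (fun _ => (1/2:ℝ)) S (fun F => ∀ q ∈ I, ¬ q.X (F \ B)) := by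
      apply Pr_congr
      intro F _
      push Not
      rfl
    have e2 : Pr (fun _ => (1/2:ℝ)) S (fun F => ¬ ¬ Blk4 u.1 u.2 r (3 * r) F) =
        Pr (fun _ => (1/2:ℝ)) S (Blk4 u.1 u.2 r (3 * r)) :=
      Pr_congr fun F _ => not_not
    rw [e1, e2] at h2
    have h3 : Pr (fun _ => (1/2:ℝ)) S (fun F => (¬ ∃ q ∈ I, q.X (F \ B)) ∧
        ¬ ¬ Blk4 u.1 u.2 r (3 * r) F) ≤
        Pr (fun _ => (1/2:ℝ)) S (fun F => ∀ q ∈ I, ¬ q.X F) := by
      apply Pr_mono okl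
      rintro F _ ⟨h3, h4⟩ q hq
      rw [not_not] at h4
      exact closed_restore (by omega) (by omega) (hI q hq).1 hBB (fun h5 => h3 ⟨q, hq, h5⟩) h4
    refine le_trans ?_ (h2.trans h3)
    rw [mul_comm]
    exact mul_le_mul_of_nonneg_left h1 (Pr_nonneg okl _ _)
  have hP : 0 ≤ Pr (fun _ => (1/2:ℝ)) S (fun F => Two u f r (↑F)) := Pr_nonneg okl _ _
  have hd := dd_pos
  have t1 := mul_le_mul s4 s5 (mul_nonneg hd.le (Pr_nonneg okl _ _)) (Pr_nonneg okl _ _)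
  calc dd ^ 2 * Pr (fun _ => (1/2:ℝ)) S (fun F => Two u f r (↑F) ∧ (LRc a b c d F ∧
      ∀ q ∈ I, ¬ q.X F)) ≤ dd ^ 2 * (Pr (fun _ => (1/2:ℝ)) S (fun F => Two u f r (↑F)) *
        (Pr (fun _ => (1/2:ℝ)) S (fun F => LRc a b c d (F ∪ B)) *
        Pr (fun _ => (1/2:ℝ)) S (fun F => ∀ q ∈ I, ¬ q.X (F \ B)))) := by
        apply mul_le_mul_of_nonneg_left _ (by positivity)
        rw [← s3, ← s2]
        exact s1
    _ = Pr (fun _ => (1/2:ℝ)) S (fun F => Two u f r (↑F)) *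
        ((dd * Pr (fun _ => (1/2:ℝ)) S (fun F => LRc a b c d (F ∪ B))) *
        (dd * Pr (fun _ => (1/2:ℝ)) S (fun F => ∀ q ∈ I, ¬ q.X (F \ B)))) := by ring
    _ ≤ _ := mul_le_mul_of_nonneg_left t1 hP

end Pool.Agent.W5h17.LT
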