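import Pool.Agent.W5h17.LT.UpTail
import Pool.Agent.W5h17.LT.LowTail
import Pool.Agent.TH494.PT.Fin2

/-!
The lower tail of the perimeter of the largest cluster in the plain model, and in the limit.
-/

set_option autoImplicit false

namespace Pool.Agent.W5h17.LT

open H342P H342L MeasureTheory Filter Topology

/-- The upper bound in the plain model. -/
theorem top_up {c C : ℝ} (hc : 0 < c) (hC : 0 < C) (hL : H984P.LowA c (1/4))
    (hU : TwoUp C (1/4)) :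
    ∃ c C : ℝ, 0 < c ∧ 0 < C ∧ ∀ (n : ℕ) (X : ℝ), 1 ≤ n → 0 < X → X ≤ (n:ℝ) ^ (7/4 : ℝ) →
      Plain.prob n (fun F => ∃ v, Plain.Largest n F v ∧
        (Plain.perimeterEdges F v : ℝ) ≤ (n:ℝ) ^ (7/4 : ℝ) / X) ≤
        C * Real.exp (-(c * (X ^ (8/13 : ℝ) + X ^ 2 / (n:ℝ) ^ (3/2 : ℝ)))) := by
  obtain ⟨c1, C1, hc1, hC1, h⟩ := up_tail hc hC hL hU
  refine ⟨c1 / 4, C1, by positivity, hC1, fun n X hn hX hXn => ?_⟩
  have hn0 : (0:ℝ) < n := by exact_mod_cast hn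
  have h1 := h n (X / 2) hn (by positivity) (by linarith)
  have h2 : Plain.prob n (fun F => ∃ v, Plain.Largest n F v ∧
      (Plain.perimeterEdges F v : ℝ) ≤ (n:ℝ) ^ (7/4 : ℝ) / X) ≤
      H974.Pr (fun _ => (1/2:ℝ)) (H974.RE 0 n 0 n) (Short n ((n:ℝ) ^ (7/4 : ℝ) / (X / 2))) := by
    refine Plain.prob_le_of_pr fun F hF => ?_
    rintro ⟨v, hv, hx⟩
    refine ⟨v, Plain.isMax_of_largest hv, ?_⟩
    rw [← Plain.perimeter_eq hF]
    have h3 : (Plain.perimeter F v : ℝ) ≤ 2 * (Plain.perimeterEdges F v : ℝ) := by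
      exact_mod_cast Plain.perimeter_le F v
    have h4 : (n:ℝ) ^ (7/4 : ℝ) / (X / 2) = 2 * ((n:ℝ) ^ (7/4 : ℝ) / X) := by
      field_simp
    rw [h4]
    linarith
  refine h2.trans (h1.trans (mul_le_mul_of_nonneg_left (Real.exp_le_exp.mpr ?_) hC1.le))
  have h5 : X ^ (8/13 : ℝ) ≤ 2 * (X / 2) ^ (8/13 : ℝ) := by
    rw [Real.div_rpow hX.le (by norm_num)]
    have h6 : (2:ℝ) ^ (8/13 : ℝ) ≤ 2 := by
      have := Real.rpow_le_rpow_of_exponent_le (x := 2) (y := 8/13) (z := 1) (by norm_num)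
        (by norm_num)
      rwa [Real.rpow_one] at this
    rw [mul_div_assoc', le_div_iff₀ (by positivity), mul_comm]
    exact mul_le_mul_of_nonneg_right h6 (by positivity)
  have h7 : X ^ 2 / (n:ℝ) ^ (3/2 : ℝ) = 4 * ((X / 2) ^ 2 / (n:ℝ) ^ (3/2 : ℝ)) := by ring
  have h8 : 0 ≤ (X / 2) ^ (8/13 : ℝ) := by positivity
  rw [h7]
  nlinarith

/-- The lower bound in the plain model. -/
theorem top_low {C : ℝ} (hC : 0 < C) (hU : TwoUp C (1/4)) : ∃ K : ℝ, 0 < K ∧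
    ∀ (n : ℕ) (X : ℝ), 1 ≤ n → 1 ≤ X → X ≤ (n:ℝ) ^ (7/4 : ℝ) →
      Real.exp (-(K * (X ^ (8/13 : ℝ) + X ^ 2 / (n:ℝ) ^ (3/2 : ℝ)))) ≤
        Plain.prob n (fun F => ∀ v, Plain.Largest n F v →
          (Plain.perimeter F v : ℝ) ≤ (n:ℝ) ^ (7/4 : ℝ) / X) := by
  obtain ⟨K, hK, h⟩ := low_tail hC hU
  refine ⟨K, hK, fun n X hn hX hXn => (h n X hn hX hXn).trans ?_⟩
  rw [Plain.prob_eq]
  refine H974.Pr_mono okl fun F hF hw v hv => ?_
  have h3 := hw v (Plain.isMax_of_largest hv)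
  rw [← Plain.perimeter_eq (by rw [Plain.edges_eq]; exact hF)] at h3
  exact h3

/-- The tails pass to the limit. -/
theorem top_lim {c C K : ℝ} (hc : 0 < c) (hC : 0 < C) (hK : 0 < K)
    (hup : ∀ (n : ℕ) (X : ℝ), 1 ≤ n → 0 < X → X ≤ (n:ℝ) ^ (7/4 : ℝ) →
      Plain.prob n (fun F => ∃ v, Plain.Largest n F v ∧
        (Plain.perimeterEdges F v : ℝ) ≤ (n:ℝ) ^ (7/4 : ℝ) / X) ≤
        C * Real.exp (-(c * (X ^ (8/13 : ℝ) + X ^ 2 / (n:ℝ) ^ (3/2 : ℝ)))))
    (hlow : ∀ (n : ℕ) (X : ℝ), 1 ≤ n → 1 ≤ X → X ≤ (n:ℝ) ^ (7/4 : ℝ) →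
      Real.exp (-(K * (X ^ (8/13 : ℝ) + X ^ 2 / (n:ℝ) ^ (3/2 : ℝ)))) ≤
        Plain.prob n (fun F => ∀ v, Plain.Largest n F v →
          (Plain.perimeter F v : ℝ) ≤ (n:ℝ) ^ (7/4 : ℝ) / X))
    {sel : ℕ → Finset Plain.Edge → ℤ × ℤ} (hsel : ∀ n F, Plain.Largest n F (sel n F))
    {φ : ℕ → ℕ} (hφ : Tendsto φ atTop atTop) {μ : ProbabilityMeasure ℝ}
    (hμ : Tendsto (fun i => lawOf (φ i) fun F =>
      (Plain.perimeter F (sel (φ i) F) : ℝ) / (φ i : ℝ) ^ (7/4 : ℝ)) atTop (𝓝 μ))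
    {X : ℝ} (hX : 1 ≤ X) :
    ENNReal.ofReal (Real.exp (-(2 * K * X ^ (8/13 : ℝ)))) ≤ (μ : Measure ℝ) {y | y ≤ 1 / X} ∧
      (μ : Measure ℝ) {y | y ≤ 1 / X} ≤
        ENNReal.ofReal (C * Real.exp (-(c / 2 * X ^ (8/13 : ℝ)))) := by
  have hX0 : 0 < X := by linarith
  have hpos : ∀ᶠ i in atTop, 1 ≤ φ i := hφ.eventually_ge_atTop 1
  have hbig : ∀ᶠ i in atTop, X ≤ (φ i : ℝ) ^ (7/4 : ℝ) := by
    have ht : Tendsto (fun i => (φ i : ℝ) ^ (7/4 : ℝ)) atTop atTop :=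
      (tendsto_rpow_atTop (by norm_num)).comp (tendsto_natCast_atTop_atTop.comp hφ)
    exact ht.eventually_ge_atTop X
  have hbig2 : ∀ᶠ i in atTop, X ^ 2 / X ^ (8/13 : ℝ) ≤ (φ i : ℝ) ^ (3/2 : ℝ) := by
    have ht : Tendsto (fun i => (φ i : ℝ) ^ (3/2 : ℝ)) atTop atTop :=
      (tendsto_rpow_atTop (by norm_num)).comp (tendsto_natCast_atTop_atTop.comp hφ)
    exact ht.eventually_ge_atTop _
  constructor
  · have hG : IsClosed {y : ℝ | y ≤ 1 / X} := isClosed_le continuous_id continuous_const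
    have h1 := ProbabilityMeasure.limsup_measure_closed_le_of_tendsto hμ hG
    refine le_trans ?_ h1
    have h2 : ∀ᶠ i in atTop, ENNReal.ofReal (Real.exp (-(2 * K * X ^ (8/13 : ℝ)))) ≤
        ((lawOf (φ i) fun F => (Plain.perimeter F (sel (φ i) F) : ℝ) /
          (φ i : ℝ) ^ (7/4 : ℝ) : ProbabilityMeasure ℝ) : Measure ℝ) {y : ℝ | y ≤ 1 / X} := by
      filter_upwards [hpos, hbig, hbig2] with i hi hi2 hi3
      rw [lawOf_apply _ _ hG.measurableSet]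
      have h3 : (0 : ℝ) < (φ i : ℝ) ^ (7/4 : ℝ) :=
        Real.rpow_pos_of_pos (by exact_mod_cast hi) _
      have h4 : (0 : ℝ) < (φ i : ℝ) ^ (3/2 : ℝ) :=
        Real.rpow_pos_of_pos (by exact_mod_cast hi) _
      have h5 : X ^ 2 / (φ i : ℝ) ^ (3/2 : ℝ) ≤ X ^ (8/13 : ℝ) := by
        rw [div_le_iff₀ h4]
        rw [div_le_iff₀ (by positivity)] at hi3
        linarith
      refine ENNReal.ofReal_le_ofReal ((Real.exp_le_exp.mpr ?_).trans
        ((hlow (φ i) X hi hX hi2).trans ?_))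
      · nlinarith
      · refine TH494.PT.prob_mono fun F _ hF => ?_
        simp only [Set.mem_ofPred_eq]
        rw [div_le_div_iff₀ h3 hX0, one_mul]
        have h6 := hF _ (hsel _ F)
        rwa [le_div_iff₀ hX0] at h6
    calc ENNReal.ofReal (Real.exp (-(2 * K * X ^ (8/13 : ℝ)))) =
          limsup (fun _ : ℕ => ENNReal.ofReal (Real.exp (-(2 * K * X ^ (8/13 : ℝ))))) atTop :=
            (limsup_const _).symm
      _ ≤ _ := limsup_le_limsup h2
  · have hG : IsOpen {y : ℝ | y < 2 / X} := isOpen_lt continuous_id continuous_const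
    have h1 := ProbabilityMeasure.le_liminf_measure_open_of_tendsto hμ hG
    have h3 : (μ : Measure ℝ) {y | y ≤ 1 / X} ≤ (μ : Measure ℝ) {y | y < 2 / X} :=
      measure_mono fun p hp => by
        simp only [Set.mem_ofPred_eq] at hp ⊢
        refine lt_of_le_of_lt hp ?_
        exact div_lt_div_of_pos_right (by norm_num) hX0
    refine h3.trans (h1.trans ?_)
    have h2 : ∀ᶠ i in atTop, ((lawOf (φ i) fun F => (Plain.perimeter F (sel (φ i) F) : ℝ) /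
          (φ i : ℝ) ^ (7/4 : ℝ) : ProbabilityMeasure ℝ) : Measure ℝ) {y : ℝ | y < 2 / X} ≤
        ENNReal.ofReal (C * Real.exp (-(c / 2 * X ^ (8/13 : ℝ)))) := by
      filter_upwards [hpos, hbig] with i hi hi2
      rw [lawOf_apply _ _ hG.measurableSet]
      refine ENNReal.ofReal_le_ofReal ?_
      have h4 := hup (φ i) (X / 2) hi (by positivity) (by linarith)
      have h5 : X ^ (8/13 : ℝ) ≤ 2 * (X / 2) ^ (8/13 : ℝ) := by
        rw [Real.div_rpow hX0.le (by norm_num)]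
        have h6 : (2:ℝ) ^ (8/13 : ℝ) ≤ 2 := by
          have := Real.rpow_le_rpow_of_exponent_le (x := 2) (y := 8/13) (z := 1) (by norm_num)
            (by norm_num)
          rwa [Real.rpow_one] at this
        rw [mul_div_assoc', le_div_iff₀ (by positivity), mul_comm]
        exact mul_le_mul_of_nonneg_right h6 (by positivity)
      have h7 : 0 ≤ (X / 2) ^ 2 / (φ i : ℝ) ^ (3/2 : ℝ) := by positivity
      refine le_trans ?_ (h4.trans (mul_le_mul_of_nonneg_left (Real.exp_le_exp.mpr ?_) hC.le))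
      · refine TH494.PT.prob_mono fun F _ hF => ⟨_, hsel _ F, ?_⟩
        have h3 : (0 : ℝ) < (φ i : ℝ) ^ (7/4 : ℝ) :=
          Real.rpow_pos_of_pos (by exact_mod_cast hi) _
        simp only [Set.mem_ofPred_eq] at hF
        rw [div_lt_div_iff₀ h3 hX0] at hF
        have h8 : (Plain.perimeterEdges F (sel (φ i) F) : ℝ) ≤
            (Plain.perimeter F (sel (φ i) F) : ℝ) := by
          exact_mod_cast Plain.perimeterEdges_le F _
        rw [le_div_iff₀ (by positivity)]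
        nlinarith
      · nlinarith
    calc liminf (fun i => ((lawOf (φ i) fun F => (Plain.perimeter F (sel (φ i) F) : ℝ) /
          (φ i : ℝ) ^ (7/4 : ℝ) : ProbabilityMeasure ℝ) : Measure ℝ) {y : ℝ | y < 2 / X}) atTop ≤
          liminf (fun _ : ℕ => ENNReal.ofReal (C * Real.exp (-(c / 2 * X ^ (8/13 : ℝ))))) atTop :=
            liminf_le_liminf h2
      _ = _ := liminf_const _

end Pool.Agent.W5h17.LT
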