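import Pool.Agent.W5h17.LT.Quasi
import Pool.Agent.H984R3.Per.PerBig

/-!
A configuration in which the largest cluster is a long thin cluster: the geometry.
-/

set_option autoImplicit false

namespace Pool.Agent.W5h17.LT

open H974 Finset H342P H984P

/-- The vertical strips. -/
def Vs (n : ℕ) (s a : ℤ) (k : ℕ) : Rc :=
  if 2 ≤ k ∧ k ≤ 6 then ⟨true, k * s, k * s + s, s + a + 1, n⟩ else ⟨true, k * s, k * s + s, 0, n⟩

/-- The parts of the vertical strips below the tube. -/
def Vl (s : ℤ) (k : ℕ) : Rc := ⟨true, k * s, k * s + s, 0, s - 1⟩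

/-- The horizontal strips. -/
def Hs (n : ℕ) (s : ℤ) (j : ℕ) : Rc := ⟨false, 0, n, j * s, j * s + s⟩

/-- The strips. -/
def I1 (n : ℕ) (s a : ℤ) : Finset Rc :=
  ((range (n / s.toNat)).image (Vs n s a) ∪ (Finset.Icc 2 6).image (Vl s)) ∪
    ((range (n / s.toNat)).erase 1).image (Hs n s)

/-- The collar of the tube. -/
def I2 (s a : ℤ) : Finset Rc :=
  {⟨false, 2 * s - a, 7 * s + a, s + a, s + 2 * a⟩, ⟨false, 2 * s - a, 7 * s + a, s - a, s⟩,
    ⟨true, 2 * s - a, 2 * s, s - a, s + 2 * a⟩, ⟨true, 7 * s, 7 * s + a, s - a, s + 2 * a⟩}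

theorem lt_K {n : ℕ} {s : ℤ} (hs : 0 < s) {k : ℕ} : k < n / s.toNat ↔ (k : ℤ) * s + s ≤ n := by
  have h0 : 0 < s.toNat := by omega
  have e : ((s.toNat : ℕ) : ℤ) = s := Int.toNat_of_nonneg hs.le
  rw [Nat.lt_iff_add_one_le, Nat.le_div_iff_mul_le h0]
  constructor
  · intro h
    have h2 : (((k + 1) * s.toNat : ℕ) : ℤ) ≤ n := by exact_mod_cast h
    push_cast at h2
    rw [e] at h2
    linarith
  · intro h
    have h2 : (((k + 1) * s.toNat : ℕ) : ℤ) ≤ n := by
      push_cast
      rw [e]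
      linarith
    exact_mod_cast h2

section
variable {n : ℕ} {s a : ℤ} {F : Finset Edg}

theorem mem_V (hF : F ⊆ RE 0 n 0 n) : (∀ x y, ((x, y, true) : Edg) ∈ (↑F : Set Edg) →
    0 ≤ y ∧ y ≤ n ∧ 0 ≤ x ∧ x < n) ∧
    (∀ x y, ((x, y, false) : Edg) ∈ (↑F : Set Edg) → 0 ≤ y ∧ y < n ∧ 0 ≤ x ∧ x ≤ n) := by
  constructor
  · intro x y h
    have := hF (mem_coe.mp h)
    rw [mem_RE_true] at this
    omega
  · intro x y h
    have := hF (mem_coe.mp h)
    rw [mem_RE_false] at this
    omega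

/-- An open path across a vertical strip. -/
theorem strip_V (hs : 0 < s) (ha : 0 ≤ a) (hF : F ⊆ RE 0 n 0 n) {u v : Vtx} {k : ℕ}
    (h : Reach (↑F : Set Edg) u v) (hu : u.1 ≤ k * s) (hv : k * s + s ≤ v.1)
    (hI : ∀ w, Reach (↑F : Set Edg) u w → ¬ inR (2 * s) (7 * s) s (s + a) w) :
    (Vs n s a k).X F ∨ ((2 ≤ k ∧ k ≤ 6) ∧ (Vl s k).X F) := by
  obtain ⟨hH, hV⟩ := mem_V hF
  obtain ⟨y1, y2, h1, h2, h3, h4⟩ := sub_LR (G := (↑F : Set Edg)) (a := k * s) (b := k * s + s)
    (c := 0) (d := n) (by omega)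
    (fun x y h _ _ => by have := hH x y h; omega)
    (fun x y h _ _ => by have := hV x y h; omega) h hu hv
  by_cases hk : 2 ≤ k ∧ k ≤ 6
  · have k1 : 2 * s ≤ (k : ℤ) * s := by
      have : (2:ℤ) ≤ k := by exact_mod_cast hk.1
      nlinarith
    have k2 : (k : ℤ) * s + s ≤ 7 * s := by
      have : (k:ℤ) ≤ 6 := by exact_mod_cast hk.2
      nlinarith
    have hout : ∀ w, Reach (↑F ∩ ↑(LRE (k * s) (k * s + s) 0 n)) ((k:ℤ) * s, y1) w →
        ((k:ℤ) * s ≤ w.1 ∧ w.1 ≤ k * s + s) → w.2 < s ∨ s + a < w.2 := by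
      intro w hw hw1
      have := hI w (h4.trans (hw.mono Set.inter_subset_left))
      unfold inR at this
      omega
    have hx : ∀ w, Reach (↑F ∩ ↑(LRE (k * s) (k * s + s) 0 n)) ((k:ℤ) * s, y1) w →
        ((k:ℤ) * s ≤ w.1 ∧ w.1 ≤ k * s + s) := by
      intro w hw
      induction hw with
      | refl => simp only; omega
      | @tail w w' _ hs' ih =>
        obtain ⟨⟨x, y, _ | _⟩, he, hcase⟩ := hs'
        · have hm := he.2
          simp only [mem_coe, mem_LRE_false] at hm
          simp only [src_mk, tgt_false] at hcase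
          rcases hcase with ⟨g1, g2⟩ | ⟨g1, g2⟩
          · rw [← g2]; simp only; omega
          · rw [← g1]; simp only; omega
        · have hm := he.2
          simp only [mem_coe, mem_LRE_true] at hm
          simp only [src_mk, tgt_true] at hcase
          rcases hcase with ⟨g1, g2⟩ | ⟨g1, g2⟩
          · rw [← g2]; simp only; omega
          · rw [← g1]; simp only; omega
    rcases hout _ (Reach.refl _ _) (by simp only; omega) with hy | hy
    · -- below
      right
      refine ⟨hk, ?_⟩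
      simp only at hy
      have key : ∀ w, Reach (↑F ∩ ↑(LRE (k * s) (k * s + s) 0 n)) ((k:ℤ) * s, y1) w →
          w.2 < s ∧ Reach (↑F ∩ ↑(LRE (k * s) (k * s + s) 0 (s - 1))) ((k:ℤ) * s, y1) w := by
        intro w hw
        induction hw with
        | refl => exact ⟨hy, Reach.refl _ _⟩
        | @tail w w' hw hs' ih =>
          obtain ⟨ih1, ih2⟩ := ih
          have hw' := hw.tail hs'
          have hor := hout w' hw' (hx w' hw')
          obtain ⟨⟨x, y, _ | _⟩, he, hcase⟩ := hs'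
          · have hm := he.2
            simp only [mem_coe, mem_LRE_false] at hm
            have hcase' := hcase
            simp only [src_mk, tgt_false] at hcase
            have h5 : w'.2 < s ∧ y < s - 1 := by
              rcases hcase with ⟨g1, g2⟩ | ⟨g1, g2⟩
              · rw [← g1] at ih1; rw [← g2] at hor ⊢; simp only at ih1 hor ⊢; omega
              · rw [← g2] at ih1; rw [← g1] at hor ⊢; simp only at ih1 hor ⊢; omega
            refine ⟨h5.1, ih2.trans (Adj.reach ⟨_, ⟨he.1, ?_⟩, hcase'⟩)⟩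
            simp only [mem_coe, mem_LRE_false]
            omega
          · have hm := he.2
            simp only [mem_coe, mem_LRE_true] at hm
            have hcase' := hcase
            simp only [src_mk, tgt_true] at hcase
            have h5 : w'.2 < s ∧ y < s := by
              rcases hcase with ⟨g1, g2⟩ | ⟨g1, g2⟩
              · rw [← g1] at ih1; rw [← g2] at hor ⊢; simp only at ih1 hor ⊢; omega
              · rw [← g2] at ih1; rw [← g1] at hor ⊢; simp only at ih1 hor ⊢; omega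
            refine ⟨h5.1, ih2.trans (Adj.reach ⟨_, ⟨he.1, ?_⟩, hcase'⟩)⟩
            simp only [mem_coe, mem_LRE_true]
            omega
      obtain ⟨g1, g2⟩ := key _ (h3.mono (by rintro e ⟨h5, h6⟩; exact ⟨h5, h6⟩))
      simp only at g1
      unfold Rc.X Vl
      simp only [if_true]
      exact ⟨y1, y2, by omega, by omega, g2⟩
    · -- above
      left
      simp only at hy
      have key : ∀ w, Reach (↑F ∩ ↑(LRE (k * s) (k * s + s) 0 n)) ((k:ℤ) * s, y1) w →
          s + a < w.2 ∧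
            Reach (↑F ∩ ↑(LRE (k * s) (k * s + s) (s + a + 1) n)) ((k:ℤ) * s, y1) w := by
        intro w hw
        induction hw with
        | refl => exact ⟨hy, Reach.refl _ _⟩
        | @tail w w' hw hs' ih =>
          obtain ⟨ih1, ih2⟩ := ih
          have hw' := hw.tail hs'
          have hor := hout w' hw' (hx w' hw')
          obtain ⟨⟨x, y, _ | _⟩, he, hcase⟩ := hs'
          · have hm := he.2
            simp only [mem_coe, mem_LRE_false] at hm
            have hcase' := hcase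
            simp only [src_mk, tgt_false] at hcase
            have h5 : s + a < w'.2 ∧ s + a < y := by
              rcases hcase with ⟨g1, g2⟩ | ⟨g1, g2⟩
              · rw [← g1] at ih1; rw [← g2] at hor ⊢; simp only at ih1 hor ⊢; omega
              · rw [← g2] at ih1; rw [← g1] at hor ⊢; simp only at ih1 hor ⊢; omega
            refine ⟨h5.1, ih2.trans (Adj.reach ⟨_, ⟨he.1, ?_⟩, hcase'⟩)⟩
            simp only [mem_coe, mem_LRE_false]
            omega
          · have hm := he.2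
            simp only [mem_coe, mem_LRE_true] at hm
            have hcase' := hcase
            simp only [src_mk, tgt_true] at hcase
            have h5 : s + a < w'.2 ∧ s + a < y := by
              rcases hcase with ⟨g1, g2⟩ | ⟨g1, g2⟩
              · rw [← g1] at ih1; rw [← g2] at hor ⊢; simp only at ih1 hor ⊢; omega
              · rw [← g2] at ih1; rw [← g1] at hor ⊢; simp only at ih1 hor ⊢; omega
            refine ⟨h5.1, ih2.trans (Adj.reach ⟨_, ⟨he.1, ?_⟩, hcase'⟩)⟩
            simp only [mem_coe, mem_LRE_true]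
            omega
      obtain ⟨g1, g2⟩ := key _ (h3.mono (by rintro e ⟨h5, h6⟩; exact ⟨h5, h6⟩))
      simp only at g1
      unfold Rc.X Vs
      rw [if_pos hk]
      simp only [if_true]
      exact ⟨y1, y2, by omega, by omega, g2⟩
  · left
    unfold Rc.X Vs
    rw [if_neg hk]
    simp only [if_true]
    exact ⟨y1, y2, h1, h2, h3⟩

/-- An open path across a horizontal strip. -/
theorem strip_H (hs : 0 < s) (hF : F ⊆ RE 0 n 0 n) {u v : Vtx} {j : ℕ}
    (h : Reach (↑F : Set Edg) u v) (hu : u.2 ≤ j * s) (hv : j * s + s ≤ v.2) :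
    (Hs n s j).X F := by
  obtain ⟨hH, hV⟩ := mem_V hF
  obtain ⟨y1, y2, h1, h2, h3, h4⟩ := sub_TB (G := (↑F : Set Edg)) (a := 0) (b := n)
    (c := j * s) (d := j * s + s) (by omega)
    (fun x y h _ _ => by have := hV x y h; omega)
    (fun x y h _ _ => by have := hH x y h; omega) h hu hv
  unfold Rc.X Hs
  simp only [Bool.false_eq_true, if_false]
  exact ⟨y1, y2, h1, h2, h3⟩

/-- The clusters of the tube stay in the collar. -/
theorem collar (ha : 0 < a) (hD : ∀ q ∈ I2 s a, ¬ q.X F) {u v : Vtx}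
    (hu : inR (2 * s) (7 * s) s (s + a) u) (h : Reach (↑F : Set Edg) u v) :
    (2 * s - a < v.1 ∧ v.1 < 7 * s + a) ∧ (s - a < v.2 ∧ v.2 < s + 2 * a) := by
  by_contra hcon
  have hv : v.1 ≤ 2 * s - a ∨ 7 * s + a ≤ v.1 ∨ v.2 ≤ s - a ∨ s + 2 * a ≤ v.2 := by omega
  unfold inR at hu
  obtain ⟨w, k1, k2, k3⟩ := first_exit (a := 2 * s - a) (b := 7 * s + a) (c := s - a)
    (d := s + 2 * a) (by unfold inR; omega) h hv
  have hb1 := hD ⟨false, 2 * s - a, 7 * s + a, s + a, s + 2 * a⟩ (by simp [I2])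
  have hb2 := hD ⟨false, 2 * s - a, 7 * s + a, s - a, s⟩ (by simp [I2])
  have hb3 := hD ⟨true, 2 * s - a, 2 * s, s - a, s + 2 * a⟩ (by simp [I2])
  have hb4 := hD ⟨true, 7 * s, 7 * s + a, s - a, s + 2 * a⟩ (by simp [I2])
  unfold Rc.X at hb1 hb2 hb3 hb4
  simp only [Bool.false_eq_true, if_false, if_true] at hb1 hb2 hb3 hb4
  rcases k2 with k2 | k2 | k2 | k2
  · apply hb3
    obtain ⟨y1, y2, m1, m2, m3, -⟩ := sub_LR (a := 2 * s - a) (b := 2 * s) (c := s - a)
      (d := s + 2 * a) (by omega)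
      (by rintro x y ⟨-, h⟩ _ _; simp only [mem_coe, mem_RE_true] at h; omega)
      (by rintro x y ⟨-, h⟩ _ _; simp only [mem_coe, mem_RE_false] at h; omega)
      k3.symm k2.le (by omega)
    exact ⟨y1, y2, m1, m2, m3.mono (by rintro e ⟨⟨h4, -⟩, h5⟩; exact ⟨h4, h5⟩)⟩
  · apply hb4
    obtain ⟨y1, y2, m1, m2, m3, -⟩ := sub_LR (a := 7 * s) (b := 7 * s + a) (c := s - a)
      (d := s + 2 * a) (by omega)
      (by rintro x y ⟨-, h⟩ _ _; simp only [mem_coe, mem_RE_true] at h; omega)
      (by rintro x y ⟨-, h⟩ _ _; simp only [mem_coe, mem_RE_false] at h; omega)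
      k3 (by omega) k2.ge
    exact ⟨y1, y2, m1, m2, m3.mono (by rintro e ⟨⟨h4, -⟩, h5⟩; exact ⟨h4, h5⟩)⟩
  · apply hb2
    obtain ⟨y1, y2, m1, m2, m3, -⟩ := sub_TB (a := 2 * s - a) (b := 7 * s + a) (c := s - a)
      (d := s) (by omega)
      (by rintro x y ⟨-, h⟩ _ _; simp only [mem_coe, mem_RE_false] at h; omega)
      (by rintro x y ⟨-, h⟩ _ _; simp only [mem_coe, mem_RE_true] at h; omega)
      k3.symm k2.le (by omega)
    exact ⟨y1, y2, m1, m2, m3.mono (by rintro e ⟨⟨h4, -⟩, h5⟩; exact ⟨h4, h5⟩)⟩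
  · apply hb1
    obtain ⟨y1, y2, m1, m2, m3, -⟩ := sub_TB (a := 2 * s - a) (b := 7 * s + a) (c := s + a)
      (d := s + 2 * a) (by omega)
      (by rintro x y ⟨-, h⟩ _ _; simp only [mem_coe, mem_RE_false] at h; omega)
      (by rintro x y ⟨-, h⟩ _ _; simp only [mem_coe, mem_RE_true] at h; omega)
      k3 (by omega) k2.ge
    exact ⟨y1, y2, m1, m2, m3.mono (by rintro e ⟨⟨h4, -⟩, h5⟩; exact ⟨h4, h5⟩)⟩

/-- Clusters which do not visit the tube are small. -/
theorem small (hs : 0 < s) (ha : 0 ≤ a) (hF : F ⊆ RE 0 n 0 n) (hD : ∀ q ∈ I1 n s a, ¬ q.X F)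
    {u v : Vtx} (hu : inR 0 n 0 n u) (hv : inR 0 n 0 n v) (h : Reach (↑F : Set Edg) u v)
    (hI : ∀ w, Reach (↑F : Set Edg) u w → ¬ inR (2 * s) (7 * s) s (s + a) w) :
    v.1 < u.1 + 2 * s ∧ v.2 < u.2 + 3 * s := by
  unfold inR at hu hv
  constructor
  · by_contra hcon
    push Not at hcon
    obtain ⟨k, hk⟩ : ∃ k : ℕ, (k : ℤ) = (u.1 + s - 1) / s := ⟨((u.1 + s - 1) / s).toNat,
      Int.toNat_of_nonneg (Int.ediv_nonneg (by omega) (by omega))⟩
    have e1 : s * ((u.1 + s - 1) / s) ≤ u.1 + s - 1 := Int.mul_ediv_self_le (by omega)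
    have e2 : u.1 + s - 1 < s * ((u.1 + s - 1) / s) + s := Int.lt_mul_ediv_self_add (by omega)
    rw [← hk, mul_comm] at e1 e2
    have hK : k < n / s.toNat := by
      rw [lt_K hs]
      omega
    rcases strip_V hs ha hF (k := k) h (by omega) (by omega) hI with h1 | ⟨h1, h2⟩
    · refine hD _ ?_ h1
      unfold I1
      rw [mem_union, mem_union]
      exact Or.inl (Or.inl (mem_image_of_mem _ (mem_range.mpr hK)))
    · refine hD _ ?_ h2
      unfold I1
      rw [mem_union, mem_union]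
      exact Or.inl (Or.inr (mem_image_of_mem _ (mem_Icc.mpr h1)))
  · by_contra hcon
    push Not at hcon
    obtain ⟨k, hk⟩ : ∃ k : ℕ, (k : ℤ) = (u.2 + s - 1) / s := ⟨((u.2 + s - 1) / s).toNat,
      Int.toNat_of_nonneg (Int.ediv_nonneg (by omega) (by omega))⟩
    have e1 : s * ((u.2 + s - 1) / s) ≤ u.2 + s - 1 := Int.mul_ediv_self_le (by omega)
    have e2 : u.2 + s - 1 < s * ((u.2 + s - 1) / s) + s := Int.lt_mul_ediv_self_add (by omega)
    rw [← hk, mul_comm] at e1 e2
    by_cases hk1 : k = 1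
    · have hK : 2 < n / s.toNat := by
        rw [lt_K hs]
        subst hk1
        push_cast at e1 e2 ⊢
        omega
      refine hD _ ?_ (strip_H hs hF (j := 2) h (by subst hk1; push_cast at e1 e2 ⊢; omega)
        (by subst hk1; push_cast at e1 e2 ⊢; omega))
      unfold I1
      rw [mem_union]
      exact Or.inr (mem_image_of_mem _ (mem_erase.mpr ⟨by norm_num, mem_range.mpr hK⟩))
    · have hK : k < n / s.toNat := by
        rw [lt_K hs]
        omega
      refine hD _ ?_ (strip_H hs hF (j := k) h (by omega) (by omega))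
      unfold I1
      rw [mem_union]
      exact Or.inr (mem_image_of_mem _ (mem_erase.mpr ⟨hk1, mem_range.mpr hK⟩))

/-- The number of pairs with two arms in the collar. -/
noncomputable def ZZ (n : ℕ) (s a r : ℤ) (F : Finset Edg) : ℝ :=
  ∑ e ∈ RE (2 * s - a) (7 * s + a + 1) (s - a) (s + 2 * a + 1),
    (ind (Two (src e) (dsrc e) r (↑F)) + ind (Two (src e) (dtgt e) r (↑F)))

/-- The largest cluster is in the collar. -/
theorem largest (hs : 0 < s) (ha : 0 < a) (hn : 8 * s ≤ n) (has : 2 * a ≤ s) {r : ℤ} (hr : r ≤ a)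
    (hF : F ⊆ RE 0 n 0 n)
    (hT : LRc (2 * s) (7 * s) s (s + a) F) (hD : ∀ q ∈ I1 n s a ∪ I2 s a, ¬ q.X F) {v : Vtx}
    (hv : IsMax n (↑F : Set Edg) v) : (per n (↑F : Set Edg) v : ℝ) ≤ ZZ n s a r F := by
  classical
  have hD1 : ∀ q ∈ I1 n s a, ¬ q.X F := fun q hq => hD q (mem_union_left _ hq)
  have hD2 : ∀ q ∈ I2 s a, ¬ q.X F := fun q hq => hD q (mem_union_right _ hq)
  obtain ⟨x, y, hx, hy, hmax⟩ := hv
  obtain ⟨y1, y2, h1, h2, h3⟩ := hT
  have h4 : Reach (↑F : Set Edg) (2 * s, y1) (7 * s, y2) := h3.mono Set.inter_subset_left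
  have h5 := hmax (2 * s, y1) (7 * s, y2) (by unfold inR; simp only; omega)
    (by unfold inR; simp only; omega) h4
  have h6 : 25 * s ^ 2 ≤ dsq x y := by
    refine le_trans ?_ h5
    unfold dsq
    simp only
    nlinarith [sq_nonneg (y1 - y2)]
  have hxy : x ≠ y := by
    rintro rfl
    unfold dsq at h6
    nlinarith
  have hxy' : Reach (↑F : Set Edg) x y := hx.symm.trans hy
  have hxin : inR 0 n 0 n x := pb_box hF hxy'.symm (Ne.symm hxy)
  have hyin : inR 0 n 0 n y := pb_box hF hxy' hxy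
  obtain ⟨w0, hw0, hw0I⟩ : ∃ w, Reach (↑F : Set Edg) v w ∧ inR (2 * s) (7 * s) s (s + a) w := by
    by_contra hcon
    push Not at hcon
    have g1 := small hs ha.le hF hD1 hxin hyin hxy' (fun w hw => hcon w (hx.trans hw))
    have g2 := small hs ha.le hF hD1 hyin hxin hxy'.symm (fun w hw => hcon w (hy.trans hw))
    have g3 : (x.1 - y.1) ^ 2 ≤ (2 * s) ^ 2 := sq_le_sq' (by omega) (by omega)
    have g4 : (x.2 - y.2) ^ 2 ≤ (3 * s) ^ 2 := sq_le_sq' (by omega) (by omega)
    unfold dsq at h6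
    nlinarith
  have hin : ∀ w, Reach (↑F : Set Edg) v w →
      (2 * s - a < w.1 ∧ w.1 < 7 * s + a) ∧ (s - a < w.2 ∧ w.2 < s + 2 * a) :=
    fun w hw => collar ha hD2 hw0I (hw0.symm.trans hw)
  have hfar : ∀ u : Vtx, ∃ w, Reach (↑F : Set Edg) v w ∧ FarF u r w := by
    intro u
    by_contra hcon
    push Not at hcon
    have g1 := hcon x hx
    have g2 := hcon y hy
    have g3 := dsq_lt g1 g2
    have g4 : 0 < r := by
      unfold FarF at g1
      rw [not_not] at g1
      unfold inF at g1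
      omega
    nlinarith
  unfold per ZZ
  push_cast
  have hsub : ∑ e ∈ RE 0 n 0 n, (if e ∈ EC (↑F : Set Edg) v then
      (((if Outer (↑F : Set Edg) v (dsrc e) then 1 else 0) +
        (if Outer (↑F : Set Edg) v (dtgt e) then 1 else 0)) : ℝ) else 0) =
      ∑ e ∈ (RE 0 n 0 n).filter (fun e => e ∈ EC (↑F : Set Edg) v),
      ((if Outer (↑F : Set Edg) v (dsrc e) then 1 else 0) +
        (if Outer (↑F : Set Edg) v (dtgt e) then 1 else 0) : ℝ) := by
    rw [sum_filter]
  refine (le_of_eq ?_).trans ((le_of_eq hsub).trans ?_)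
  · apply sum_congr rfl
    intro e _
    split_ifs <;> simp
  have hsubset : (RE 0 n 0 n).filter (fun e => e ∈ EC (↑F : Set Edg) v) ⊆
      RE (2 * s - a) (7 * s + a + 1) (s - a) (s + 2 * a + 1) := by
    intro e he
    rw [mem_filter] at he
    have g := hin _ he.2.2
    obtain ⟨x, y, _ | _⟩ := e
    · rw [mem_RE_false]
      simp only [src_mk] at g
      omega
    · rw [mem_RE_true]
      simp only [src_mk] at g
      omega
  refine le_trans ?_ (sum_le_sum_of_subset_of_nonneg hsubset (fun e _ _ =>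
    add_nonneg (ind_nonneg _) (ind_nonneg _)))
  apply sum_le_sum
  intro e he
  rw [mem_filter] at he
  have hsrc := hin _ he.2.2
  have hk : r ≤ (src e).1 := by omega
  obtain ⟨w, hw1, hw2⟩ := hfar (src e)
  have hD3 := ind_nonneg (Two (src e) (dsrc e) r (↑F : Set Edg))
  have hD4 := ind_nonneg (Two (src e) (dtgt e) r (↑F : Set Edg))
  apply add_le_add
  · split_ifs with g1
    · rw [ind_of (two_of_outer he.2 (inc_dsrc e) g1 hk hw1 hw2)]
    · exact hD3
  · split_ifs with g1
    · rw [ind_of (two_of_outer he.2 (inc_dtgt e) g1 hk hw1 hw2)]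
    · exact hD4

end

end Pool.Agent.W5h17.LT
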