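import Pool.Agent.W5h17.LT.Fast
import Pool.Agent.W5h17.LT.PerOrb
import Pool.Agent.TH494.PT.UpB

/-!
Upper bound for the probability that the outer perimeter of the largest cluster is short.
-/

set_option autoImplicit false

namespace Pool.Agent.W5h17.LT

open H974 Finset H342P H984P H984N

theorem hok : Ok (fun _ : Edg => (1/2:ℝ)) := fun _ => ⟨by norm_num, by norm_num⟩

/-- No large cluster. -/
theorem big_pr {n : ℕ} {y : ℝ} (hy1 : 1 ≤ y) (hyn : 12 * y ≤ n) :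
    Pr (fun _ => (1/2:ℝ)) (RE 0 n 0 n) (fun F => ¬ Big n ⌈y / 2⌉ (↑F)) ≤
      Real.exp (-(Real.log 2 / 144 * ((n:ℝ) / y) ^ 2)) := by
  have hy0 : 0 < y := by linarith
  obtain ⟨m, hm⟩ : ∃ m : ℤ, m = ⌈y / 2⌉ := ⟨_, rfl⟩
  have hm1 : y / 2 ≤ m := by rw [hm]; exact Int.le_ceil _
  have hm2 : (m:ℝ) < y / 2 + 1 := by rw [hm]; exact Int.ceil_lt_add_one _
  have hm0 : 0 < m := by
    have : (0:ℝ) < m := by linarith
    exact_mod_cast this
  obtain ⟨L, hL⟩ : ∃ L : ℕ, L = (3 * m).toNat := ⟨_, rfl⟩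
  have hLm : (L : ℤ) = 3 * m := by rw [hL]; exact Int.toNat_of_nonneg (by omega)
  have hLr : (L : ℝ) = 3 * m := by exact_mod_cast hLm
  obtain ⟨J, hJ⟩ : ∃ J : ℕ, J = (n + 1) / (L + 1) := ⟨_, rfl⟩
  have hL6 : (L : ℝ) + 1 ≤ 6 * y := by rw [hLr]; linarith
  have hL0 : (0:ℝ) < (L:ℝ) + 1 := by positivity
  have hLn : L + 1 ≤ n + 1 := by
    have : (L:ℝ) + 1 ≤ n + 1 := by linarith
    exact_mod_cast this
  have hJ1 : 1 ≤ J := by
    rw [hJ, Nat.le_div_iff_mul_le (by omega)]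
    omega
  have hJL : J * (L + 1) ≤ n + 1 := by rw [hJ]; exact Nat.div_mul_le_self _ _
  have h1 := TH494.PT.pr_not_big2 (n := n) (L := L) (J := J) (by omega) (m := m) hm0.le
    (by omega) hJL hJ1
  rw [← hm]
  refine h1.trans ?_
  have hJlt : n + 1 < (J + 1) * (L + 1) := by
    rw [hJ]
    have h2 := Nat.lt_mul_div_succ (n + 1) (show 0 < L + 1 by omega)
    calc n + 1 < (L + 1) * ((n + 1) / (L + 1) + 1) := h2
      _ = _ := by ring
  have hJr : (n:ℝ) + 1 < ((J:ℝ) + 1) * (L + 1) := by exact_mod_cast hJlt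
  have hJ1r : (1:ℝ) ≤ J := by exact_mod_cast hJ1
  have hJn : (n:ℝ) / y ≤ 12 * J := by
    rw [div_le_iff₀ hy0]
    have e1 : ((J:ℝ) + 1) * (L + 1) ≤ (2 * J) * (6 * y) := by
      apply mul_le_mul (by linarith) hL6 hL0.le (by positivity)
    nlinarith
  have hlog : 0 < Real.log 2 := Real.log_pos (by norm_num)
  have e2 : ((1:ℝ)/2) ^ (J * J) = Real.exp (-(((J * J : ℕ) : ℝ) * Real.log 2)) := by
    rw [Real.exp_neg, Real.exp_nat_mul, Real.exp_log (by norm_num), one_div, inv_pow]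
  rw [e2]
  apply Real.exp_le_exp.mpr
  have hq0 : 0 ≤ (n:ℝ) / y := by positivity
  have e3 : ((n:ℝ) / y) ^ 2 ≤ (12 * J) ^ 2 := pow_le_pow_left₀ hq0 hJn 2
  have e4 : Real.log 2 / 144 * ((n:ℝ) / y) ^ 2 ≤ Real.log 2 / 144 * (12 * J) ^ 2 :=
    mul_le_mul_of_nonneg_left e3 (by positivity)
  have e5 : Real.log 2 / 144 * (12 * (J:ℝ)) ^ 2 = J * J * Real.log 2 := by ring
  push_cast
  linarith

/-- The event. -/
def Short (n : ℕ) (t : ℝ) (F : Finset Edg) : Prop :=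
  ∃ v, IsMax n (↑F : Set Edg) v ∧ (per n (↑F) v : ℝ) ≤ t

theorem short_sub {n : ℕ} {t y : ℝ} (hy1 : 1 ≤ y) {F : Finset Edg} (hF : F ⊆ RE 0 n 0 n)
    (h : Short n t F) : ¬ Big n ⌈y / 2⌉ (↑F : Set Edg) ∨
      ∃ (σ : St) (l : ℕ), inR 0 n 0 n σ.1 ∧
      y ≤ ((sd σ.1 (orb (↑F : Set Edg) σ l).1 : ℤ) : ℝ) ∧ (l : ℝ) ≤ 8 * t := by
  obtain ⟨v, hv, hp⟩ := h
  by_cases hb : Big n ⌈y / 2⌉ (↑F : Set Edg)
  · right
    have hm0 : 0 < ⌈y / 2⌉ := Int.ceil_pos.mpr (by linarith)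
    obtain ⟨σ, l, h1, h2, h3⟩ := per_orb hF hm0 hb hv
    refine ⟨σ, l, h1, ?_, ?_⟩
    · have h4 : ((2 * ⌈y / 2⌉ : ℤ) : ℝ) ≤ ((sd σ.1 (orb (↑F : Set Edg) σ l).1 : ℤ) : ℝ) := by
        exact_mod_cast h2
      push_cast at h4
      have h5 := Int.le_ceil (y / 2)
      linarith
    · have h4 : (l : ℝ) ≤ 8 * (per n (↑F) v : ℝ) := by exact_mod_cast h3
      linarith
  · exact Or.inl hb

/-- The probability that the outer perimeter of some largest cluster is short. -/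
theorem up_tail {c C : ℝ} (hc : 0 < c) (hC : 0 < C) (hL : LowA c (1/4)) (hU : TwoUp C (1/4)) :
    ∃ c C : ℝ, 0 < c ∧ 0 < C ∧ ∀ (n : ℕ) (X : ℝ), 1 ≤ n → 0 < X → X ≤ (n:ℝ) ^ (7/4 : ℝ) →
      Pr (fun _ => (1/2:ℝ)) (RE 0 n 0 n) (Short n ((n:ℝ) ^ (7/4 : ℝ) / X)) ≤
        C * Real.exp (-(c * (X ^ (8/13 : ℝ) + X ^ 2 / (n:ℝ) ^ (3/2 : ℝ)))) := by
  obtain ⟨c1, C1', hc1, hC1', hfast⟩ := orb_fast hc hC hL hU
  obtain ⟨C1, hC1e⟩ : ∃ C1 : ℝ, C1 = max C1' 1 := ⟨_, rfl⟩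
  have hC1 : 1 ≤ C1 := by rw [hC1e]; exact le_max_right _ _
  have hCC : C1' ≤ C1 := by rw [hC1e]; exact le_max_left _ _
  have hlog : 0 < Real.log 2 := Real.log_pos (by norm_num)
  -- the constants
  obtain ⟨κ, hκ⟩ : ∃ κ : ℝ, κ = C1 ^ (-(13/12) : ℝ) := ⟨_, rfl⟩
  have hκ0 : 0 < κ := by rw [hκ]; positivity
  have hκ1 : κ ≤ 1 := by
    rw [hκ]
    exact Real.rpow_le_one_of_one_le_of_nonpos hC1 (by norm_num)
  have hκ12 : κ ^ (12/13 : ℝ) = C1⁻¹ := by
    rw [hκ, ← Real.rpow_mul (by linarith)]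
    norm_num [Real.rpow_neg_one]
  obtain ⟨k2, hk2⟩ : ∃ k2 : ℝ, k2 = κ ^ (-(18/13) : ℝ) := ⟨_, rfl⟩
  have hk2p : 0 < k2 := by rw [hk2]; positivity
  obtain ⟨X1, hX1⟩ : ∃ X1 : ℝ, X1 = max ((12:ℝ) ^ (13/4 : ℝ)) (((120 / κ) ^ (3:ℕ)) ^ (7/4 : ℝ)) := ⟨_, rfl⟩
  have hX1a : (12:ℝ) ^ (13/4 : ℝ) ≤ X1 := by rw [hX1]; exact le_max_left _ _
  have hX1b : ((120 / κ) ^ (3:ℕ)) ^ (7/4 : ℝ) ≤ X1 := by rw [hX1]; exact le_max_right _ _
  have hX11 : 1 ≤ X1 := (Real.one_le_rpow (by norm_num) (by norm_num)).trans hX1a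
  obtain ⟨c2, hc2⟩ : ∃ c2 : ℝ, c2 = min (min (Real.log 2 / 288) (c1 / 64))
    (Real.log 2 / 14400 / (1 + k2)) := ⟨_, rfl⟩
  have hc2a : c2 ≤ Real.log 2 / 288 := by
    rw [hc2]; exact (min_le_left _ _).trans (min_le_left _ _)
  have hc2b : c2 ≤ c1 / 64 := by
    rw [hc2]; exact (min_le_left _ _).trans (min_le_right _ _)
  have hc2c : c2 ≤ Real.log 2 / 14400 / (1 + k2) := by
    rw [hc2]; exact min_le_right _ _
  have hc20 : 0 < c2 := by
    rw [hc2]
    exact lt_min (lt_min (by positivity) (by positivity)) (by positivity)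
  refine ⟨c2, Real.exp (c2 * (X1 + X1 ^ 2)) + (1 + C1 * (32 / c1)), hc20, by positivity, ?_⟩
  intro n X hn hX hXn
  have hn1 : (1:ℝ) ≤ n := by exact_mod_cast hn
  have hn0 : (0:ℝ) < n := by linarith
  have hn32 : (1:ℝ) ≤ (n:ℝ) ^ (3/2 : ℝ) := Real.one_le_rpow hn1 (by norm_num)
  have hn32p : (0:ℝ) < (n:ℝ) ^ (3/2 : ℝ) := by linarith
  rcases le_or_gt X X1 with hXs | hXl
  · -- trivial case
    refine (Pr_le_one hok _ _).trans ?_
    have h1 : X ^ (8/13 : ℝ) ≤ X1 := by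
      refine (Real.rpow_le_rpow hX.le hXs (by norm_num)).trans ?_
      calc X1 ^ (8/13 : ℝ) ≤ X1 ^ (1:ℝ) := Real.rpow_le_rpow_of_exponent_le hX11 (by norm_num)
        _ = X1 := Real.rpow_one _
    have h2 : X ^ 2 / (n:ℝ) ^ (3/2 : ℝ) ≤ X1 ^ 2 := by
      refine (div_le_self (by positivity) hn32).trans ?_
      exact pow_le_pow_left₀ hX.le hXs 2
    have h3 : 1 ≤ Real.exp (c2 * (X1 + X1 ^ 2)) *
        Real.exp (-(c2 * (X ^ (8/13 : ℝ) + X ^ 2 / (n:ℝ) ^ (3/2 : ℝ)))) := by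
      rw [← Real.exp_add]
      apply Real.one_le_exp
      nlinarith
    have h4 := Real.exp_pos (-(c2 * (X ^ (8/13 : ℝ) + X ^ 2 / (n:ℝ) ^ (3/2 : ℝ))))
    have h5 : 0 ≤ 1 + C1 * (32 / c1) := by positivity
    nlinarith
  have hX0 : 1 < X := lt_of_le_of_lt hX11 hXl
  obtain ⟨E, hE⟩ : ∃ E : ℝ, E = X ^ (8/13 : ℝ) + X ^ 2 / (n:ℝ) ^ (3/2 : ℝ) := ⟨_, rfl⟩
  rw [← hE]
  have hXsplit : X ^ (18/13 : ℝ) * X ^ (8/13 : ℝ) = X ^ 2 := by
    rw [← Real.rpow_add hX]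
    norm_num
  have hsuff : Pr (fun _ => (1/2:ℝ)) (RE 0 n 0 n) (Short n ((n:ℝ) ^ (7/4 : ℝ) / X)) ≤
      (1 + C1 * (32 / c1)) * Real.exp (-(c2 * E)) := by
    rcases le_or_gt X (κ * (n:ℝ) ^ (13/12 : ℝ)) with hcase | hcase
    · -- case A
      obtain ⟨A, hA⟩ : ∃ A : ℝ, A = X ^ (4/13 : ℝ) := ⟨_, rfl⟩
      have hA0 : 0 < A := by rw [hA]; positivity
      have hA12 : 12 ≤ A := by
        have h1 := Real.rpow_le_rpow (z := 4/13) (by positivity) (hX1a.trans hXl.le) (by norm_num)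
        rw [← Real.rpow_mul (by norm_num), ← hA] at h1
        norm_num at h1
        exact h1
      have hA2 : X ^ (8/13 : ℝ) = A ^ 2 := by
        rw [hA, ← Real.rpow_natCast, ← Real.rpow_mul hX.le]
        norm_num
      have hXA : X = A ^ (13/4 : ℝ) := by
        rw [hA, ← Real.rpow_mul hX.le]
        norm_num
      have hn13 : X ≤ (n:ℝ) ^ (13/12 : ℝ) := by
        have : κ * (n:ℝ) ^ (13/12 : ℝ) ≤ 1 * (n:ℝ) ^ (13/12 : ℝ) :=
          mul_le_mul_of_nonneg_right hκ1 (by positivity)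
        linarith
      have hA3 : C1 * A ^ 3 ≤ n := by
        have h1 := Real.rpow_le_rpow (z := 12/13) hX.le hcase (by norm_num)
        rw [Real.mul_rpow hκ0.le (by positivity), hκ12, ← Real.rpow_mul hn0.le] at h1
        have h2 : X ^ (12/13 : ℝ) = A ^ 3 := by
          rw [hA, ← Real.rpow_natCast, ← Real.rpow_mul hX.le]
          norm_num
        rw [h2] at h1
        norm_num at h1
        calc C1 * A ^ 3 ≤ C1 * (C1⁻¹ * n) := mul_le_mul_of_nonneg_left h1 (by linarith)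
          _ = n := by
            have : C1 ≠ 0 := by linarith
            field_simp
      have hE2 : E ≤ 2 * A ^ 2 := by
        have h1 : X ^ 2 / (n:ℝ) ^ (3/2 : ℝ) ≤ X ^ (8/13 : ℝ) := by
          rw [div_le_iff₀ hn32p, ← hXsplit]
          have h2 := Real.rpow_le_rpow (z := 18/13) hX.le hn13 (by norm_num)
          rw [← Real.rpow_mul hn0.le] at h2
          norm_num at h2
          have h3 : 0 ≤ X ^ (8/13 : ℝ) := by positivity
          nlinarith
        rw [hE]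
        rw [hA2] at h1 ⊢
        linarith
      obtain ⟨y, hy⟩ : ∃ y : ℝ, y = n / A := ⟨_, rfl⟩
      have hy0 : 0 < y := by rw [hy]; positivity
      have hnA : (n:ℝ) / y = A := by rw [hy]; field_simp
      have hA2n : C1 * A ^ 2 ≤ y := by
        rw [hy, le_div_iff₀ hA0]
        have h1 : C1 * A ^ 2 * A = C1 * A ^ 3 := by ring
        rw [h1]
        exact hA3
      have hy1 : 1 ≤ y := by nlinarith
      have h12y : 12 * y ≤ n := by
        rw [hy]
        rw [mul_div_assoc', div_le_iff₀ hA0]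
        nlinarith
      have hyn : y ≤ n := by linarith
      obtain ⟨x, hx⟩ : ∃ x : ℝ, x = 8 * A ^ (-(3/2) : ℝ) := ⟨_, rfl⟩
      have hx0 : 0 < x := by rw [hx]; positivity
      have hx1 : x ≤ 1 := by
        have h1 : A ^ (-(3/2) : ℝ) ≤ (12:ℝ) ^ (-(3/2) : ℝ) :=
          Real.rpow_le_rpow_of_nonpos (by norm_num) hA12 (by norm_num)
        have h2 : (12:ℝ) ^ (-(3/2) : ℝ) ≤ 1 / 12 := by
          have : (12:ℝ) ^ (-(3/2) : ℝ) ≤ (12:ℝ) ^ (-1 : ℝ) :=
            Real.rpow_le_rpow_of_exponent_le (by norm_num) (by norm_num)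
          rw [Real.rpow_neg_one] at this
          linarith
        rw [hx]
        linarith
      have hx43 : x ^ (-(4/3) : ℝ) = A ^ 2 / 16 := by
        rw [hx, Real.mul_rpow (by norm_num) (by positivity), ← Real.rpow_mul hA0.le]
        have h1 : (8:ℝ) ^ (-(4/3) : ℝ) = 1 / 16 := by
          rw [show (8:ℝ) = 2 ^ (3:ℝ) by norm_num, ← Real.rpow_mul (by norm_num)]
          norm_num [Real.rpow_neg]
        rw [h1]
        norm_num
        ring
      have hxy : x * y ^ (7/4 : ℝ) = 8 * ((n:ℝ) ^ (7/4 : ℝ) / X) := by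
        rw [hx, hy, Real.div_rpow hn0.le hA0.le, hXA]
        have h1 : A ^ (13/4 : ℝ) = A ^ (3/2 : ℝ) * A ^ (7/4 : ℝ) := by
          rw [← Real.rpow_add hA0]
          norm_num
        rw [h1, Real.rpow_neg hA0.le]
        have h2 : A ^ (3/2 : ℝ) ≠ 0 := by positivity
        have h3 : A ^ (7/4 : ℝ) ≠ 0 := by positivity
        field_simp
      have hf := hfast n y x hx0 hx1 (by
        rw [hx43]
        have h1 : C1' * (A ^ 2 / 16) ≤ C1 * (A ^ 2 / 16) :=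
          mul_le_mul_of_nonneg_right hCC (by positivity)
        nlinarith [sq_nonneg A]) hyn
      have hb := big_pr hy1 h12y
      have hev : Pr (fun _ => (1/2:ℝ)) (RE 0 n 0 n) (Short n ((n:ℝ) ^ (7/4 : ℝ) / X)) ≤
          Pr (fun _ => (1/2:ℝ)) (RE 0 n 0 n) (fun F => ¬ Big n ⌈y / 2⌉ (↑F : Set Edg) ∨
            ∃ (σ : St) (l : ℕ), inR 0 n 0 n σ.1 ∧
            y ≤ ((sd σ.1 (orb (↑F : Set Edg) σ l).1 : ℤ) : ℝ) ∧ (l : ℝ) ≤ x * y ^ (7/4 : ℝ)) := by
        apply Pr_mono hok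
        intro F hF h
        rw [hxy]
        exact short_sub hy1 hF h
      refine hev.trans ((Pr_or_le hok _ _ _).trans ?_)
      rw [hnA] at hb hf
      rw [hx43] at hf
      have e1 : Real.exp (-(Real.log 2 / 144 * A ^ 2)) ≤ Real.exp (-(c2 * E)) := by
        apply Real.exp_le_exp.mpr
        have h1 : c2 * E ≤ (Real.log 2 / 288) * (2 * A ^ 2) :=
          mul_le_mul hc2a hE2 (by rw [hE]; positivity) (by positivity)
        linarith
      have e2 : C1' * A ^ 2 * Real.exp (-(c1 * (A ^ 2 / 16))) ≤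
          C1 * (32 / c1) * Real.exp (-(c2 * E)) := by
        have h1 : A ^ 2 ≤ 32 / c1 * Real.exp (c1 * A ^ 2 / 32) := by
          have h2 := Real.add_one_le_exp (c1 * A ^ 2 / 32)
          have h3 : A ^ 2 = 32 / c1 * (c1 * A ^ 2 / 32) := by field_simp
          rw [h3]
          apply mul_le_mul_of_nonneg_left _ (by positivity)
          rw [← h3]
          linarith
        have h2 : c2 * E ≤ c1 / 64 * (2 * A ^ 2) :=
          mul_le_mul hc2b hE2 (by rw [hE]; positivity) (by positivity)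
        have h3 : Real.exp (c1 * A ^ 2 / 32) * Real.exp (-(c1 * (A ^ 2 / 16))) ≤
            Real.exp (-(c2 * E)) := by
          rw [← Real.exp_add]
          apply Real.exp_le_exp.mpr
          linarith
        calc C1' * A ^ 2 * Real.exp (-(c1 * (A ^ 2 / 16)))
            ≤ C1 * (32 / c1 * Real.exp (c1 * A ^ 2 / 32)) * Real.exp (-(c1 * (A ^ 2 / 16))) := by
              gcongr
          _ = C1 * (32 / c1) * (Real.exp (c1 * A ^ 2 / 32) *
              Real.exp (-(c1 * (A ^ 2 / 16)))) := by ring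
          _ ≤ _ := by gcongr
      have e3 := add_le_add (hb.trans e1) (hf.trans e2)
      refine e3.trans (le_of_eq ?_)
      ring
    · -- case B
      obtain ⟨t, ht⟩ : ∃ t : ℝ, t = (n:ℝ) ^ (7/4 : ℝ) / X := ⟨_, rfl⟩
      rw [← ht]
      have ht1 : 1 ≤ t := by rw [ht, le_div_iff₀ hX, one_mul]; exact hXn
      have hnX : (n:ℝ) ^ (7/4 : ℝ) = n * (n:ℝ) ^ (3/4 : ℝ) := by
        rw [show (7/4 : ℝ) = 1 + 3/4 by norm_num, Real.rpow_add hn0, Real.rpow_one]
      have hκn : 120 ≤ κ * (n:ℝ) ^ (1/3 : ℝ) := by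
        -- `n` is large since `X` is
        have h1 : ((120 / κ) ^ (3:ℕ)) ^ (7/4 : ℝ) < (n:ℝ) ^ (7/4 : ℝ) :=
          lt_of_le_of_lt hX1b (lt_of_lt_of_le hXl hXn)
        have h2 : (120 / κ) ^ (3:ℕ) < (n:ℝ) := by
          by_contra hcon
          push Not at hcon
          have := Real.rpow_le_rpow (z := 7/4) hn0.le hcon (by norm_num)
          linarith
        have h3 : 120 / κ ≤ (n:ℝ) ^ (1/3 : ℝ) := by
          have h4 := Real.rpow_le_rpow (z := 1/3) (by positivity) h2.le (by norm_num)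
          rw [← Real.rpow_natCast, ← Real.rpow_mul (by positivity)] at h4
          norm_num at h4
          rwa [show (1/3 : ℝ) = 1/3 from rfl]
        rwa [div_le_iff₀ hκ0, mul_comm] at h3
      have hXn34 : 120 * (n:ℝ) ^ (3/4 : ℝ) ≤ X := by
        have h1 : (n:ℝ) ^ (13/12 : ℝ) = (n:ℝ) ^ (1/3 : ℝ) * (n:ℝ) ^ (3/4 : ℝ) := by
          rw [← Real.rpow_add hn0]
          norm_num
        rw [h1, ← mul_assoc] at hcase
        have h2 : (0:ℝ) ≤ (n:ℝ) ^ (3/4 : ℝ) := by positivity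
        nlinarith
      have h12 : 12 * (10 * t) ≤ n := by
        rw [ht, mul_div_assoc', mul_div_assoc', div_le_iff₀ hX, hnX]
        nlinarith
      have hb := big_pr (n := n) (y := 10 * t) (by linarith) h12
      have hev : Pr (fun _ => (1/2:ℝ)) (RE 0 n 0 n) (Short n t) ≤
          Pr (fun _ => (1/2:ℝ)) (RE 0 n 0 n) (fun F => ¬ Big n ⌈10 * t / 2⌉ (↑F : Set Edg)) := by
        apply Pr_mono hok
        intro F hF h
        rcases short_sub (y := 10 * t) (by linarith) hF h with h1 | ⟨σ, l, -, h2, h3⟩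
        · exact h1
        · exfalso
          have h4 : ((sd σ.1 (orb (↑F : Set Edg) σ l).1 : ℤ) : ℝ) ≤ l := by
            exact_mod_cast steps_ge (↑F : Set Edg) σ l
          linarith
      refine hev.trans (hb.trans ?_)
      have hexp : Real.exp (-(Real.log 2 / 144 * ((n:ℝ) / (10 * t)) ^ 2)) ≤
          Real.exp (-(c2 * E)) := by
        apply Real.exp_le_exp.mpr
        have h1 : ((n:ℝ) / (10 * t)) ^ 2 = X ^ 2 / (n:ℝ) ^ (3/2 : ℝ) / 100 := by
          have h2 : (n:ℝ) ^ (3/2 : ℝ) = ((n:ℝ) ^ (3/4 : ℝ)) ^ 2 := by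
            rw [← Real.rpow_natCast, ← Real.rpow_mul hn0.le]
            norm_num
          rw [h2, ht, hnX]
          have h3 : (n:ℝ) ^ (3/4 : ℝ) ≠ 0 := by positivity
          field_simp
          norm_num
        rw [h1]
        have h2 : E ≤ (1 + k2) * (X ^ 2 / (n:ℝ) ^ (3/2 : ℝ)) := by
          have h3 : X ^ (8/13 : ℝ) ≤ k2 * (X ^ 2 / (n:ℝ) ^ (3/2 : ℝ)) := by
            have h4 := Real.rpow_le_rpow (z := 18/13) (by positivity) hcase.le (by norm_num)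
            rw [Real.mul_rpow hκ0.le (by positivity), ← Real.rpow_mul hn0.le] at h4
            norm_num at h4
            rw [mul_div_assoc', le_div_iff₀ hn32p, ← hXsplit]
            have h5 : k2 * κ ^ (18/13 : ℝ) = 1 := by
              rw [hk2, ← Real.rpow_add hκ0]
              norm_num
            have h6 : 0 ≤ X ^ (8/13 : ℝ) := by positivity
            have h7 : k2 * (κ ^ (18/13 : ℝ) * (n:ℝ) ^ (3/2 : ℝ)) ≤ k2 * X ^ (18/13 : ℝ) :=
              mul_le_mul_of_nonneg_left h4 hk2p.le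
            rw [← mul_assoc, h5, one_mul] at h7
            calc X ^ (8/13 : ℝ) * (n:ℝ) ^ (3/2 : ℝ) ≤ X ^ (8/13 : ℝ) * (k2 * X ^ (18/13 : ℝ)) :=
                  mul_le_mul_of_nonneg_left h7 h6
              _ = k2 * (X ^ (18/13 : ℝ) * X ^ (8/13 : ℝ)) := by ring
          rw [hE]
          linarith
        have h3 : c2 * E ≤ Real.log 2 / 14400 / (1 + k2) *
            ((1 + k2) * (X ^ 2 / (n:ℝ) ^ (3/2 : ℝ))) :=
          mul_le_mul hc2c h2 (by rw [hE]; positivity) (by positivity)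
        have h4 : Real.log 2 / 14400 / (1 + k2) * ((1 + k2) * (X ^ 2 / (n:ℝ) ^ (3/2 : ℝ))) =
            Real.log 2 / 144 * (X ^ 2 / (n:ℝ) ^ (3/2 : ℝ) / 100) := by
          have : 1 + k2 ≠ 0 := by positivity
          field_simp
          norm_num
        linarith
      refine hexp.trans ?_
      have h5 : 0 ≤ C1 * (32 / c1) := by positivity
      have h6 := Real.exp_pos (-(c2 * E))
      nlinarith
  refine hsuff.trans ?_
  apply mul_le_mul_of_nonneg_right _ (Real.exp_pos _).le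
  have := Real.exp_pos (c2 * (X1 + X1 ^ 2))
  linarith

end Pool.Agent.W5h17.LT
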